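import Mathlib
import Pool.Agent.H630R2.LA.Nerode

set_option autoImplicit false

/-!
The block machine: from a 1-limited automaton `M` we build a machine of a similar size which reads
a sequence of blocks `w0 c w1 c ... c wt e` and checks that in every block one of the words
`w0 wj`, `j ≥ 1`, is accepted by `M`.
-/

namespace Pool.Agent.N602.FT

open Relation
open Pool.Agent.H630R2.LA

/-- Input letters of the block machine. -/
inductive BL (A : Type) : Type
  | ltr (a : A) : BL A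
  | c : BL A
  | e : BL A

/-- Work symbols of the block machine. -/
inductive BW (A W : Type) : Type
  | raw (l : BL A) : BW A W
  | vis (w : W) : BW A W
  | bot : BW A W
  | bar : BW A W

/-- Phases: reading `w0`; skipping; reading the chosen word; skipping the rest. -/
inductive Ph : Type
  | a | b | c | d
  deriving DecidableEq

/-- The phases in which letters are processed. -/
def Ph.work : Ph → Bool
  | .a => true
  | .b => false
  | .c => true
  | .d => false

/-- The phases in which a word has been chosen. -/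
def Ph.fin : Ph → Bool
  | .a => false
  | .b => false
  | .c => true
  | .d => true

/-- The change of the phase at a separator. -/
inductive Ph.Nxt : Ph → Ph → Prop
  | ab : Ph.Nxt .a .b
  | ac : Ph.Nxt .a .c
  | bb : Ph.Nxt .b .b
  | bc : Ph.Nxt .b .c
  | cd : Ph.Nxt .c .d
  | dd : Ph.Nxt .d .d

variable {A : Type}

/-- The states of the block machine: a state of `M`, the direction of the last move, the phase;
`none` is the final state. -/
abbrev BQ (M : LimAut A) : Type := Option (M.Q × Bool × Ph)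

/-- The moves of the block machine. -/
inductive BT (M : LimAut A) : BQ M → Sym (BW A M.W) → BQ M → BW A M.W → Bool → Prop
  | letter (p : M.Q) (d : Bool) (ph : Ph) (a : A) (q : M.Q) (b : M.W) (d' : Bool)
      (hph : ph.work = true) (h : (q, b, d') ∈ M.δ p (.sym (M.inp a))) :
      BT M (some (p, d, ph)) (.sym (.raw (.ltr a))) (some (q, d', ph)) (.vis b) d'
  | skip (p : M.Q) (d : Bool) (ph : Ph) (a : A) (hph : ph.work = false) :
      BT M (some (p, d, ph)) (.sym (.raw (.ltr a))) (some (p, true, ph)) .bot true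
  | sep (p : M.Q) (d : Bool) (ph ph' : Ph) (h : Ph.Nxt ph ph') :
      BT M (some (p, d, ph)) (.sym (.raw .c)) (some (p, true, ph')) .bot true
  | endR (p : M.Q) (d : Bool) (ph : Ph) (q : M.Q) (b : M.W) (hph : ph.fin = true)
      (h : (q, b, true) ∈ M.δ p .rm) (hq : q ∈ M.F) :
      BT M (some (p, d, ph)) (.sym (.raw .e)) (some (M.q0, true, .a)) .bar true
  | endL (p : M.Q) (d : Bool) (ph : Ph) (q : M.Q) (b : M.W) (hph : ph.fin = true)
      (h : (q, b, false) ∈ M.δ p .rm) :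
      BT M (some (p, d, ph)) (.sym (.raw .e)) (some (q, false, ph)) .bar false
  | vis (p : M.Q) (d : Bool) (ph : Ph) (b : M.W) (q : M.Q) (b' : M.W) (d' : Bool)
      (h : (q, b', d') ∈ M.δ p (.sym b)) :
      BT M (some (p, d, ph)) (.sym (.vis b)) (some (q, d', ph)) (.vis b') d'
  | bot (p : M.Q) (d : Bool) (ph : Ph) :
      BT M (some (p, d, ph)) (.sym .bot) (some (p, d, ph)) .bot d
  | barL (p : M.Q) (ph : Ph) (q : M.Q) (b : M.W) (h : (q, b, true) ∈ M.δ p .lm) :
      BT M (some (p, false, ph)) (.sym .bar) (some (q, true, ph)) .bar true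
  | barR (p : M.Q) (ph : Ph) (q : M.Q) (b : M.W) (h : (q, b, true) ∈ M.δ p .rm)
      (hq : q ∈ M.F) :
      BT M (some (p, true, ph)) (.sym .bar) (some (M.q0, true, .a)) .bar true
  | barB (p : M.Q) (ph : Ph) (q : M.Q) (b : M.W) (h : (q, b, false) ∈ M.δ p .rm) :
      BT M (some (p, true, ph)) (.sym .bar) (some (q, false, ph)) .bar false
  | lm (p : M.Q) (d : Bool) (ph : Ph) (q : M.Q) (b : M.W) (h : (q, b, true) ∈ M.δ p .lm) :
      BT M (some (p, d, ph)) .lm (some (q, true, ph)) .bot true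
  | rm : BT M (some (M.q0, true, .a)) .rm none .bot true

/-- Encoding of the input letters. -/
def blCode (A : Type) : BL A → Option (Option A)
  | .ltr a => some (some a)
  | .c => some none
  | .e => none

theorem blCode_inj (A : Type) : Function.Injective (blCode A) := by
  intro x y h
  cases x <;> cases y <;> simp_all [blCode]

instance finiteBL (A : Type) [Finite A] : Finite (BL A) := Finite.of_injective _ (blCode_inj A)

/-- Encoding of the work symbols. -/
def bwCode (A W : Type) : BW A W → Option (Option (BL A ⊕ W))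
  | .raw l => some (some (Sum.inl l))
  | .vis w => some (some (Sum.inr w))
  | .bot => some none
  | .bar => none

theorem bwCode_inj (A W : Type) : Function.Injective (bwCode A W) := by
  intro x y h
  cases x <;> cases y <;> simp_all [bwCode]

instance finiteBW (A W : Type) [Finite A] [Finite W] : Finite (BW A W) :=
  Finite.of_injective _ (bwCode_inj A W)

/-- Encoding of the phases. -/
def phCode : Ph → Fin 4
  | .a => 0
  | .b => 1
  | .c => 2
  | .d => 3

theorem phCode_inj : Function.Injective phCode := by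
  intro x y h
  cases x <;> cases y <;> first
    | rfl
    | exact absurd h (by decide)

instance : Finite Ph := Finite.of_injective _ phCode_inj

/-- The block machine. -/
def blockM [Finite A] (M : LimAut A) : LimAut (BL A) where
  Q := BQ M
  W := BW A M.W
  finQ := by
    have := M.finQ
    infer_instance
  finW := by
    have := M.finW
    infer_instance
  inp := BW.raw
  inp_inj := by
    intro a b h
    cases h
    rfl
  δ := fun p σ => {x | BT M p σ x.1 x.2.1 x.2.2}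
  q0 := some (M.q0, true, .a)
  F := {none}

variable [Finite A] {M : LimAut A} {strict : Prop}

/-! ### Moves on frozen cells -/

theorem fz_vis {p : M.Q} {d : Bool} {ph : Ph} {b : M.W} {P : BQ M} {d' : Bool} :
    fz strict (blockM M) (some (p, d, ph)) (.sym (.vis b)) P d' ↔
      ∃ q, P = some (q, d', ph) ∧ fz strict M p (.sym b) q d' := by
  constructor
  · rintro ⟨w, h1, h2⟩
    have h1 : BT M (some (p, d, ph)) (.sym (.vis b)) P w d' := h1
    cases h1 with
    | vis _ _ _ _ q b' _ h =>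
      refine ⟨q, rfl, b', h, fun hs => ?_⟩
      have h3 := h2 hs
      have h4 : (Sym.sym (BW.vis b') : Sym (BW A M.W)) = .sym (.vis b) := h3
      simp only [Sym.sym.injEq, BW.vis.injEq] at h4
      rw [h4]
      rfl
  · rintro ⟨q, rfl, b', h, h2⟩
    refine ⟨.vis b', BT.vis _ _ _ _ _ _ _ h, fun hs => ?_⟩
    have h3 := h2 hs
    have h4 : (Sym.sym b' : Sym M.W) = .sym b := h3
    simp only [Sym.sym.injEq] at h4
    rw [h4]
    rfl

theorem fz_bot {p : M.Q} {d : Bool} {ph : Ph} {P : BQ M} {d' : Bool} :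
    fz strict (blockM M) (some (p, d, ph)) (.sym .bot) P d' ↔ P = some (p, d, ph) ∧ d' = d := by
  constructor
  · rintro ⟨w, h1, h2⟩
    have h1 : BT M (some (p, d, ph)) (.sym .bot) P w d' := h1
    cases h1
    exact ⟨rfl, rfl⟩
  · rintro ⟨rfl, rfl⟩
    exact ⟨.bot, BT.bot _ _ _, fun _ => rfl⟩

theorem fz_barL {p : M.Q} {ph : Ph} {P : BQ M} {d' : Bool} :
    fz strict (blockM M) (some (p, false, ph)) (.sym .bar) P d' ↔
      d' = true ∧ ∃ q, P = some (q, true, ph) ∧ fz strict M p .lm q true := by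
  constructor
  · rintro ⟨w, h1, h2⟩
    have h1 : BT M (some (p, false, ph)) (.sym .bar) P w d' := h1
    cases h1 with
    | barL _ _ q b h => exact ⟨rfl, q, rfl, b, h, fun _ => rfl⟩
  · rintro ⟨rfl, q, rfl, b, h, _⟩
    exact ⟨.bar, BT.barL _ _ _ _ h, fun _ => rfl⟩

theorem fz_barT {p : M.Q} {ph : Ph} {P : BQ M} :
    fz strict (blockM M) (some (p, true, ph)) (.sym .bar) P true ↔
      P = some (M.q0, true, .a) ∧ ∃ q ∈ M.F, fz strict M p .rm q true := by
  constructor
  · rintro ⟨w, h1, h2⟩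
    have h1 : BT M (some (p, true, ph)) (.sym .bar) P w true := h1
    cases h1 with
    | barR _ _ q b h hq => exact ⟨rfl, q, hq, b, h, fun _ => rfl⟩
  · rintro ⟨rfl, q, hq, b, h, _⟩
    exact ⟨.bar, BT.barR _ _ _ _ h hq, fun _ => rfl⟩

theorem fz_barF {p : M.Q} {ph : Ph} {P : BQ M} :
    fz strict (blockM M) (some (p, true, ph)) (.sym .bar) P false ↔
      ∃ q, P = some (q, false, ph) ∧ fz strict M p .rm q false := by
  constructor
  · rintro ⟨w, h1, h2⟩
    have h1 : BT M (some (p, true, ph)) (.sym .bar) P w false := h1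
    cases h1 with
    | barB _ _ q b h => exact ⟨q, rfl, b, h, fun _ => rfl⟩
  · rintro ⟨q, rfl, b, h, _⟩
    exact ⟨.bar, BT.barB _ _ _ _ h, fun _ => rfl⟩

theorem fz_lm {p : M.Q} {d : Bool} {ph : Ph} {P : BQ M} {d' : Bool} :
    fz strict (blockM M) (some (p, d, ph)) .lm P d' ↔
      d' = true ∧ ∃ q, P = some (q, true, ph) ∧ fz strict M p .lm q true := by
  constructor
  · rintro ⟨w, h1, h2⟩
    have h1 : BT M (some (p, d, ph)) .lm P w d' := h1
    cases h1 with
    | lm _ _ _ q b h => exact ⟨rfl, q, rfl, b, h, fun _ => rfl⟩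
  · rintro ⟨rfl, q, rfl, b, h, _⟩
    exact ⟨.bot, BT.lm _ _ _ _ _ h, fun _ => rfl⟩

/-! ### Tables -/

/-- The table `T'` of the block machine simulates the table `T` of `M`. -/
def TabOK (T' : Set (BQ M × BQ M)) (T : Set (M.Q × M.Q)) : Prop :=
  ∀ (p : M.Q) (ph : Ph) (y : BQ M), (some (p, false, ph), y) ∈ T' ↔
    ∃ q, y = some (q, true, ph) ∧ (p, q) ∈ T

omit [Finite A] in
/-- Chains of loops. -/
theorem chain_iff {ph : Ph} {C' : BQ M → BQ M → Prop} {C : M.Q → M.Q → Prop}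
    (hC : ∀ x z, C' (some (x, true, ph)) z ↔ ∃ q, z = some (q, true, ph) ∧ C x q) {x : M.Q}
    {z : BQ M} : ReflTransGen C' (some (x, true, ph)) z ↔
      ∃ q, z = some (q, true, ph) ∧ ReflTransGen C x q := by
  constructor
  · intro h
    induction h with
    | refl => exact ⟨x, rfl, ReflTransGen.refl⟩
    | tail _ h2 ih =>
      obtain ⟨q, rfl, h3⟩ := ih
      obtain ⟨r, rfl, h4⟩ := (hC _ _).1 h2
      exact ⟨r, rfl, h3.tail h4⟩
  · rintro ⟨q, rfl, h⟩
    induction h with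
    | refl => exact ReflTransGen.refl
    | tail _ h2 ih => exact ih.tail ((hC _ _).2 ⟨_, rfl, h2⟩)

theorem ext_vis {T' : Set (BQ M × BQ M)} {T : Set (M.Q × M.Q)} (hT : TabOK T' T) (b : M.W)
    (p : M.Q) (d : Bool) (ph : Ph) (y : BQ M) :
    (some (p, d, ph), y) ∈ ext strict (blockM M) T' (.sym (.vis b)) ↔
      ∃ q, y = some (q, true, ph) ∧ (p, q) ∈ ext strict M T (.sym b) := by
  have hC : ∀ (d : Bool) (x : M.Q) (z : BQ M),
      (∃ r, fz strict (blockM M) (some (x, d, ph)) (.sym (.vis b)) r false ∧ (r, z) ∈ T') ↔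
      ∃ q, z = some (q, true, ph) ∧ ∃ r, fz strict M x (.sym b) r false ∧ (r, q) ∈ T := by
    intro d x z
    constructor
    · rintro ⟨r, h1, h2⟩
      obtain ⟨x', rfl, h3⟩ := fz_vis.1 h1
      obtain ⟨q, rfl, h4⟩ := (hT _ _ _).1 h2
      exact ⟨q, rfl, x', h3, h4⟩
    · rintro ⟨q, rfl, x', h3, h4⟩
      exact ⟨some (x', false, ph), fz_vis.2 ⟨x', rfl, h3⟩, (hT _ _ _).2 ⟨q, rfl, h4⟩⟩
  constructor
  · rintro ⟨s, h1, h2⟩
    rcases ReflTransGen.cases_head h1 with h3 | ⟨c, h3, h4⟩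
    · have h5 : (some (p, d, ph) : BQ M) = s := h3
      subst h5
      obtain ⟨q, h6, h7⟩ := fz_vis.1 h2
      exact ⟨q, h6, mem_ext_right h7⟩
    · obtain ⟨q, rfl, r, h5, h6⟩ := (hC d p c).1 h3
      obtain ⟨q', rfl, h7⟩ := (chain_iff (hC true)).1 h4
      obtain ⟨q'', h8, h9⟩ := fz_vis.1 h2
      exact ⟨q'', h8, mem_ext_loop h5 h6 ⟨q', h7, h9⟩⟩
  · rintro ⟨q, rfl, s, h1, h2⟩
    rcases ReflTransGen.cases_head h1 with h3 | ⟨c, h3, h4⟩
    · have h5 : p = s := h3
      subst h5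
      exact mem_ext_right (fz_vis.2 ⟨q, rfl, h2⟩)
    · obtain ⟨r, h5, h6⟩ := (hC d p (some (c, true, ph))).2 ⟨c, rfl, h3⟩
      refine mem_ext_loop h5 h6 ⟨some (s, true, ph), (chain_iff (hC true)).2 ⟨s, rfl, h4⟩,
        fz_vis.2 ⟨q, rfl, h2⟩⟩

theorem tabOK_vis {T' : Set (BQ M × BQ M)} {T : Set (M.Q × M.Q)} (hT : TabOK T' T) (b : M.W) :
    TabOK (ext strict (blockM M) T' (.sym (.vis b))) (ext strict M T (.sym b)) :=
  fun p ph y => ext_vis hT b p false ph y

theorem tabOK_bot {T' : Set (BQ M × BQ M)} {T : Set (M.Q × M.Q)} (hT : TabOK T' T) :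
    TabOK (ext strict (blockM M) T' (.sym .bot)) T := by
  intro p ph y
  constructor
  · rintro ⟨s, h1, h2⟩
    rcases ReflTransGen.cases_head h1 with h3 | ⟨c, ⟨r, h3, h4⟩, h5⟩
    · have h5 : (some (p, false, ph) : BQ M) = s := h3
      subst h5
      obtain ⟨_, h6⟩ := fz_bot.1 h2
      cases h6
    · have h3' : fz strict (blockM M) (some (p, false, ph)) (.sym .bot) r false := h3
      obtain ⟨rfl, _⟩ := fz_bot.1 h3'
      obtain ⟨q, rfl, h6⟩ := (hT _ _ _).1 h4
      rcases ReflTransGen.cases_head h5 with h7 | ⟨c', ⟨r', h7, _⟩, _⟩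
      · have h8 : (some (q, true, ph) : BQ M) = s := h7
        subst h8
        obtain ⟨h9, _⟩ := fz_bot.1 h2
        exact ⟨q, h9, h6⟩
      · have h7' : fz strict (blockM M) (some (q, true, ph)) (.sym .bot) r' false := h7
        obtain ⟨_, h8⟩ := fz_bot.1 h7'
        cases h8
  · rintro ⟨q, rfl, h⟩
    exact mem_ext_loop (M := blockM M) (fz_bot.2 ⟨rfl, rfl⟩) ((hT _ _ _).2 ⟨q, rfl, h⟩)
      (mem_ext_right (fz_bot.2 ⟨rfl, rfl⟩))

theorem tabOK_lm {T' : Set (BQ M × BQ M)} :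
    TabOK (ext strict (blockM M) T' .lm) (x0 strict M).1 := by
  intro p ph y
  constructor
  · rintro ⟨s, h1, h2⟩
    rcases ReflTransGen.cases_head h1 with h3 | ⟨c, ⟨r, h3, h4⟩, h5⟩
    · have h5 : (some (p, false, ph) : BQ M) = s := h3
      subst h5
      obtain ⟨_, q, h6, h7⟩ := fz_lm.1 h2
      exact ⟨q, h6, mem_ext_right h7⟩
    · have h3' : fz strict (blockM M) (some (p, false, ph)) .lm r false := h3
      obtain ⟨h6, _⟩ := fz_lm.1 h3'
      cases h6
  · rintro ⟨q, rfl, s, h1, h2⟩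
    rcases ReflTransGen.cases_head h1 with h3 | ⟨c, ⟨r, h3, h4⟩, h5⟩
    · have h5 : p = s := h3
      subst h5
      exact mem_ext_right (M := blockM M) (fz_lm.2 ⟨rfl, q, rfl, h2⟩)
    · exact absurd h4 (Set.notMem_empty _)

theorem tabOK_bar {T' : Set (BQ M × BQ M)} :
    TabOK (ext strict (blockM M) T' (.sym .bar)) (x0 strict M).1 := by
  intro p ph y
  constructor
  · rintro ⟨s, h1, h2⟩
    rcases ReflTransGen.cases_head h1 with h3 | ⟨c, ⟨r, h3, h4⟩, h5⟩
    · have h5 : (some (p, false, ph) : BQ M) = s := h3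
      subst h5
      obtain ⟨_, q, h6, h7⟩ := fz_barL.1 h2
      exact ⟨q, h6, mem_ext_right h7⟩
    · have h3' : fz strict (blockM M) (some (p, false, ph)) (.sym .bar) r false := h3
      obtain ⟨h6, _⟩ := fz_barL.1 h3'
      cases h6
  · rintro ⟨q, rfl, s, h1, h2⟩
    rcases ReflTransGen.cases_head h1 with h3 | ⟨c, ⟨r, h3, h4⟩, h5⟩
    · have h5 : p = s := h3
      subst h5
      exact mem_ext_right (M := blockM M) (fz_barL.2 ⟨rfl, q, rfl, h2⟩)
    · exact absurd h4 (Set.notMem_empty _)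

theorem ext_bar {T' : Set (BQ M × BQ M)} {T : Set (M.Q × M.Q)} (hT : TabOK T' T)
    (p : M.Q) (ph : Ph) (y : BQ M) :
    (some (p, true, ph), y) ∈ ext strict (blockM M) T' (.sym .bar) ↔
      y = some (M.q0, true, .a) ∧ ∃ q ∈ M.F, (p, q) ∈ ext strict M T .rm := by
  have hC : ∀ (x : M.Q) (z : BQ M),
      (∃ r, fz strict (blockM M) (some (x, true, ph)) (.sym .bar) r false ∧ (r, z) ∈ T') ↔
      ∃ q, z = some (q, true, ph) ∧ ∃ r, fz strict M x .rm r false ∧ (r, q) ∈ T := by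
    intro x z
    constructor
    · rintro ⟨r, h1, h2⟩
      obtain ⟨x', rfl, h3⟩ := fz_barF.1 h1
      obtain ⟨q, rfl, h4⟩ := (hT _ _ _).1 h2
      exact ⟨q, rfl, x', h3, h4⟩
    · rintro ⟨q, rfl, x', h3, h4⟩
      exact ⟨some (x', false, ph), fz_barF.2 ⟨x', rfl, h3⟩, (hT _ _ _).2 ⟨q, rfl, h4⟩⟩
  constructor
  · rintro ⟨s, h1, h2⟩
    obtain ⟨q', rfl, h7⟩ := (chain_iff hC).1 h1
    obtain ⟨h8, q, hq, h9⟩ := fz_barT.1 h2
    exact ⟨h8, q, hq, q', h7, h9⟩
  · rintro ⟨rfl, q, hq, s, h1, h2⟩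
    exact ⟨some (s, true, ph), (chain_iff hC).2 ⟨s, rfl, h1⟩, fz_barT.2 ⟨rfl, q, hq, h2⟩⟩

/-! ### Steps of the table automata -/

/-- Simulation of the states of the table automata. -/
def Sim (ph : Ph) (x' : Set (BQ M × BQ M) × BQ M) (x : Set (M.Q × M.Q) × M.Q) : Prop :=
  x'.2 = some (x.2, true, ph) ∧ TabOK x'.1 x.1

theorem letter_fwd {ph : Ph} (hph : ph.work = true) {x' y' : Set (BQ M × BQ M) × BQ M}
    {x : Set (M.Q × M.Q) × M.Q} (hx : Sim ph x' x) {a : A}
    (h : nstep strict (blockM M) (.sym (.raw (.ltr a))) x' y') :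
    ∃ y, nstep strict M (.sym (M.inp a)) x y ∧ Sim ph y' y := by
  obtain ⟨T, p⟩ := x
  have hx1 : x'.2 = some (p, true, ph) := hx.1
  obtain ⟨q', b', d', h1, h2, h3, h4⟩ := h
  have h1' : BT M x'.2 (.sym (.raw (.ltr a))) q' b' d' := h1
  rw [hx1] at h1'
  cases h1' with
  | letter _ _ _ _ q b _ _ h =>
    have h2' : y'.1 = ext strict (blockM M) x'.1 (.sym (.vis b)) := h2
    cases d'
    · obtain ⟨s, h5, h6⟩ := h4 rfl
      obtain ⟨s', rfl, h7⟩ := (hx.2 _ _ _).1 h5
      rw [h2'] at h6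
      obtain ⟨t, h8, h9⟩ := (ext_vis hx.2 b _ _ _ _).1 h6
      refine ⟨(ext strict M T (.sym b), t), ⟨q, b, false, h, rfl, by simp, fun _ =>
        ⟨s', h7, h9⟩⟩, h8, ?_⟩
      rw [h2']
      exact tabOK_vis hx.2 b
    · refine ⟨(ext strict M T (.sym b), q), ⟨q, b, true, h, rfl, fun _ => rfl, by simp⟩,
        h3 rfl, ?_⟩
      rw [h2']
      exact tabOK_vis hx.2 b
  | skip _ _ _ _ hph' =>
    rw [hph] at hph'
    cases hph'

theorem letter_bwd {ph : Ph} (hph : ph.work = true) {x' : Set (BQ M × BQ M) × BQ M}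
    {x y : Set (M.Q × M.Q) × M.Q} (hx : Sim ph x' x) {a : A}
    (h : nstep strict M (.sym (M.inp a)) x y) :
    ∃ y', nstep strict (blockM M) (.sym (.raw (.ltr a))) x' y' ∧ Sim ph y' y := by
  obtain ⟨q, b, d, h1, h2, h3, h4⟩ := h
  have h2' : y.1 = ext strict M x.1 (.sym b) := h2
  have hok : TabOK (ext strict (blockM M) x'.1 (.sym (.vis b))) y.1 := by
    rw [h2']
    exact tabOK_vis hx.2 b
  have hbt : BT M x'.2 (.sym (.raw (.ltr a))) (some (q, d, ph)) (.vis b) d := by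
    rw [hx.1]
    exact BT.letter _ _ _ _ _ _ _ hph h1
  refine ⟨(ext strict (blockM M) x'.1 (.sym (.vis b)), some (y.2, true, ph)),
    ⟨some (q, d, ph), .vis b, d, hbt, rfl, ?_, ?_⟩, rfl, hok⟩
  · rintro rfl
    rw [h3 rfl]
  · rintro rfl
    obtain ⟨s, h5, h6⟩ := h4 rfl
    refine ⟨some (s, true, ph), (hx.2 _ _ _).2 ⟨s, rfl, h5⟩, ?_⟩
    rw [h2'] at h6
    exact (ext_vis hx.2 b _ _ _ _).2 ⟨_, rfl, h6⟩

theorem skip_fwd {ph : Ph} (hph : ph.work = false) {x' y' : Set (BQ M × BQ M) × BQ M}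
    {x : Set (M.Q × M.Q) × M.Q} (hx : Sim ph x' x) {a : A}
    (h : nstep strict (blockM M) (.sym (.raw (.ltr a))) x' y') : Sim ph y' x := by
  obtain ⟨T, p⟩ := x
  have hx1 : x'.2 = some (p, true, ph) := hx.1
  obtain ⟨q', b', d', h1, h2, h3, h4⟩ := h
  have h1' : BT M x'.2 (.sym (.raw (.ltr a))) q' b' d' := h1
  rw [hx1] at h1'
  cases h1' with
  | letter _ _ _ _ q b _ hph' h =>
    rw [hph] at hph'
    cases hph'
  | skip _ _ _ _ _ =>
    have h2' : y'.1 = ext strict (blockM M) x'.1 (.sym .bot) := h2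
    refine ⟨h3 rfl, ?_⟩
    rw [h2']
    exact tabOK_bot hx.2

theorem skip_bwd {ph : Ph} (hph : ph.work = false) {x' : Set (BQ M × BQ M) × BQ M}
    {x : Set (M.Q × M.Q) × M.Q} (hx : Sim ph x' x) (a : A) :
    ∃ y', nstep strict (blockM M) (.sym (.raw (.ltr a))) x' y' ∧ Sim ph y' x := by
  have hbt : BT M x'.2 (.sym (.raw (.ltr a))) (some (x.2, true, ph)) .bot true := by
    rw [hx.1]
    exact BT.skip _ _ _ _ hph
  exact ⟨(ext strict (blockM M) x'.1 (.sym .bot), some (x.2, true, ph)),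
    ⟨_, .bot, true, hbt, rfl, fun _ => rfl, by simp⟩, rfl, tabOK_bot hx.2⟩

theorem sep_fwd {ph : Ph} {x' y' : Set (BQ M × BQ M) × BQ M}
    {x : Set (M.Q × M.Q) × M.Q} (hx : Sim ph x' x)
    (h : nstep strict (blockM M) (.sym (.raw .c)) x' y') :
    ∃ ph', Ph.Nxt ph ph' ∧ Sim ph' y' x := by
  obtain ⟨T, p⟩ := x
  have hx1 : x'.2 = some (p, true, ph) := hx.1
  obtain ⟨q', b', d', h1, h2, h3, h4⟩ := h
  have h1' : BT M x'.2 (.sym (.raw .c)) q' b' d' := h1
  rw [hx1] at h1'
  cases h1' with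
  | sep _ _ _ ph' hn =>
    have h2' : y'.1 = ext strict (blockM M) x'.1 (.sym .bot) := h2
    refine ⟨ph', hn, h3 rfl, ?_⟩
    rw [h2']
    exact tabOK_bot hx.2

theorem sep_bwd {ph ph' : Ph} (hn : Ph.Nxt ph ph') {x' : Set (BQ M × BQ M) × BQ M}
    {x : Set (M.Q × M.Q) × M.Q} (hx : Sim ph x' x) :
    ∃ y', nstep strict (blockM M) (.sym (.raw .c)) x' y' ∧ Sim ph' y' x := by
  have hbt : BT M x'.2 (.sym (.raw .c)) (some (x.2, true, ph')) .bot true := by
    rw [hx.1]
    exact BT.sep _ _ _ _ hn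
  exact ⟨(ext strict (blockM M) x'.1 (.sym .bot), some (x.2, true, ph')),
    ⟨_, .bot, true, hbt, rfl, fun _ => rfl, by simp⟩, rfl, tabOK_bot hx.2⟩

theorem end_fwd {ph : Ph} {x' y' : Set (BQ M × BQ M) × BQ M}
    {x : Set (M.Q × M.Q) × M.Q} (hx : Sim ph x' x)
    (h : nstep strict (blockM M) (.sym (.raw .e)) x' y') :
    ph.fin = true ∧ finX strict M x ∧ Sim .a y' (x0 strict M) := by
  obtain ⟨T, p⟩ := x
  have hx1 : x'.2 = some (p, true, ph) := hx.1
  obtain ⟨q', b', d', h1, h2, h3, h4⟩ := h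
  have h1' : BT M x'.2 (.sym (.raw .e)) q' b' d' := h1
  rw [hx1] at h1'
  cases h1' with
  | endR _ _ _ q b hph h hq =>
    have h2' : y'.1 = ext strict (blockM M) x'.1 (.sym .bar) := h2
    refine ⟨hph, ⟨(ext strict M T .rm, q), ⟨q, b, true, h, rfl, fun _ => rfl, by simp⟩, hq⟩,
      h3 rfl, ?_⟩
    rw [h2']
    exact tabOK_bar
  | endL _ _ _ q b hph h =>
    have h2' : y'.1 = ext strict (blockM M) x'.1 (.sym .bar) := h2
    obtain ⟨s, h5, h6⟩ := h4 rfl
    obtain ⟨s', rfl, h7⟩ := (hx.2 _ _ _).1 h5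
    rw [h2'] at h6
    obtain ⟨h8, t, ht, h9⟩ := (ext_bar hx.2 _ _ _).1 h6
    refine ⟨hph, ⟨(ext strict M T .rm, t), ⟨q, b, false, h, rfl, by simp, fun _ =>
        ⟨s', h7, h9⟩⟩, ht⟩, h8, ?_⟩
    rw [h2']
    exact tabOK_bar

theorem end_bwd {ph : Ph} (hph : ph.fin = true) {x' : Set (BQ M × BQ M) × BQ M}
    {x : Set (M.Q × M.Q) × M.Q} (hx : Sim ph x' x) (h : finX strict M x) :
    ∃ y', nstep strict (blockM M) (.sym (.raw .e)) x' y' ∧ Sim .a y' (x0 strict M) := by
  obtain ⟨z, ⟨q, b, d, h1, h2, h3, h4⟩, hz⟩ := h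
  refine ⟨(ext strict (blockM M) x'.1 (.sym .bar), some (M.q0, true, .a)), ?_, rfl, tabOK_bar⟩
  cases d
  · obtain ⟨s, h5, h6⟩ := h4 rfl
    have hbt : BT M x'.2 (.sym (.raw .e)) (some (q, false, ph)) .bar false := by
      rw [hx.1]
      exact BT.endL _ _ _ _ _ hph h1
    refine ⟨_, .bar, false, hbt, rfl, by simp, fun _ =>
      ⟨some (s, true, ph), (hx.2 _ _ _).2 ⟨s, rfl, h5⟩, ?_⟩⟩
    have h2' : z.1 = ext strict M x.1 .rm := h2
    rw [h2'] at h6
    exact (ext_bar hx.2 _ _ _).2 ⟨rfl, z.2, hz, h6⟩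
  · have hq : q ∈ M.F := by
      rw [← h3 rfl]
      exact hz
    have hbt : BT M x'.2 (.sym (.raw .e)) (some (M.q0, true, .a)) .bar true := by
      rw [hx.1]
      exact BT.endR _ _ _ _ _ hph h1 hq
    exact ⟨_, .bar, true, hbt, rfl, fun _ => rfl, by simp⟩

/-! ### Words -/

/-- The letters of a word as letters of the block machine. -/
def ltrs (w : List A) : List (BL A) := w.map BL.ltr

theorem runs_work_fwd {ph : Ph} (hph : ph.work = true) (w : List A) :
    ∀ {x' y' : Set (BQ M × BQ M) × BQ M} {x : Set (M.Q × M.Q) × M.Q}, Sim ph x' x →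
    runs strict (blockM M) (ltrs w) x' y' → ∃ y, runs strict M w x y ∧ Sim ph y' y := by
  induction w with
  | nil =>
    intro x' y' x hx h
    have h1 : x' = y' := h
    subst h1
    exact ⟨x, rfl, hx⟩
  | cons a w ih =>
    intro x' y' x hx h
    obtain ⟨z', h1, h2⟩ := h
    obtain ⟨z, h3, h4⟩ := letter_fwd hph hx h1
    obtain ⟨y, h5, h6⟩ := ih h4 h2
    exact ⟨y, ⟨z, h3, h5⟩, h6⟩

theorem runs_work_bwd {ph : Ph} (hph : ph.work = true) (w : List A) :
    ∀ {x' : Set (BQ M × BQ M) × BQ M} {x y : Set (M.Q × M.Q) × M.Q}, Sim ph x' x →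
    runs strict M w x y → ∃ y', runs strict (blockM M) (ltrs w) x' y' ∧ Sim ph y' y := by
  induction w with
  | nil =>
    intro x' x y hx h
    have h1 : x = y := h
    subst h1
    exact ⟨x', rfl, hx⟩
  | cons a w ih =>
    intro x' x y hx h
    obtain ⟨z, h1, h2⟩ := h
    obtain ⟨z', h3, h4⟩ := letter_bwd hph hx h1
    obtain ⟨y', h5, h6⟩ := ih h4 h2
    exact ⟨y', ⟨z', h3, h5⟩, h6⟩

theorem runs_skip_fwd {ph : Ph} (hph : ph.work = false) (w : List A) :
    ∀ {x' y' : Set (BQ M × BQ M) × BQ M} {x : Set (M.Q × M.Q) × M.Q}, Sim ph x' x →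
    runs strict (blockM M) (ltrs w) x' y' → Sim ph y' x := by
  induction w with
  | nil =>
    intro x' y' x hx h
    have h1 : x' = y' := h
    subst h1
    exact hx
  | cons a w ih =>
    intro x' y' x hx h
    obtain ⟨z', h1, h2⟩ := h
    exact ih (skip_fwd hph hx h1) h2

theorem runs_skip_bwd {ph : Ph} (hph : ph.work = false) (w : List A) :
    ∀ {x' : Set (BQ M × BQ M) × BQ M} {x : Set (M.Q × M.Q) × M.Q}, Sim ph x' x →
    ∃ y', runs strict (blockM M) (ltrs w) x' y' ∧ Sim ph y' x := by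
  induction w with
  | nil =>
    intro x' x hx
    exact ⟨x', rfl, hx⟩
  | cons a w ih =>
    intro x' x hx
    obtain ⟨z', h3, h4⟩ := skip_bwd (strict := strict) hph hx a
    obtain ⟨y', h5, h6⟩ := ih h4
    exact ⟨y', ⟨z', h3, h5⟩, h6⟩

/-- The end of a block. -/
def rest (ws : List (List A)) : List (BL A) := (ws.flatMap fun w => BL.c :: ltrs w) ++ [BL.e]

omit [Finite A] in
theorem rest_cons (w : List A) (ws : List (List A)) :
    rest (w :: ws) = BL.c :: (ltrs w ++ rest ws) := by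
  simp [rest]

theorem rest_fin_fwd (ws : List (List A)) : ∀ {ph : Ph}, ph.fin = true →
    ∀ {x' y' : Set (BQ M × BQ M) × BQ M} {x : Set (M.Q × M.Q) × M.Q}, Sim ph x' x →
    runs strict (blockM M) (rest ws) x' y' → finX strict M x ∧ Sim .a y' (x0 strict M) := by
  induction ws with
  | nil =>
    intro ph hph x' y' x hx h
    have h' : runs strict (blockM M) [BL.e] x' y' := h
    obtain ⟨z, h1, h2⟩ := h'
    have h3 : z = y' := h2
    subst h3
    exact (end_fwd hx h1).2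
  | cons w ws ih =>
    intro ph hph x' y' x hx h
    rw [rest_cons] at h
    obtain ⟨z, h1, h2⟩ := h
    rw [runs_append] at h2
    obtain ⟨z', h3, h4⟩ := h2
    obtain ⟨ph', h5, h6⟩ := sep_fwd hx h1
    have h7 : ph' = .d := by
      cases h5 <;> first
        | rfl
        | cases hph
    subst h7
    exact ih rfl (runs_skip_fwd rfl w h6 h3) h4

theorem rest_fin_bwd (ws : List (List A)) : ∀ {ph : Ph}, ph.fin = true →
    ∀ {x' : Set (BQ M × BQ M) × BQ M} {x : Set (M.Q × M.Q) × M.Q}, Sim ph x' x →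
    finX strict M x → ∃ y', runs strict (blockM M) (rest ws) x' y' ∧
      Sim .a y' (x0 strict M) := by
  induction ws with
  | nil =>
    intro ph hph x' x hx h
    obtain ⟨y', h1, h2⟩ := end_bwd hph hx h
    exact ⟨y', ⟨y', h1, rfl⟩, h2⟩
  | cons w ws ih =>
    intro ph hph x' x hx h
    have hn : Ph.Nxt ph .d := by
      cases ph
      · cases hph
      · cases hph
      · exact Ph.Nxt.cd
      · exact Ph.Nxt.dd
    obtain ⟨z, h1, h2⟩ := sep_bwd (strict := strict) hn hx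
    obtain ⟨z', h3, h4⟩ := runs_skip_bwd (strict := strict) rfl w h2
    obtain ⟨y', h5, h6⟩ := ih rfl h4 h
    refine ⟨y', ?_, h6⟩
    rw [rest_cons]
    exact ⟨z, h1, (runs_append _ _ _ _).2 ⟨z', h3, h5⟩⟩

theorem rest_fwd (ws : List (List A)) : ∀ {ph : Ph}, ph.fin = false →
    ∀ {x' y' : Set (BQ M × BQ M) × BQ M} {x : Set (M.Q × M.Q) × M.Q}, Sim ph x' x →
    runs strict (blockM M) (rest ws) x' y' →
    (∃ w ∈ ws, ∃ y, runs strict M w x y ∧ finX strict M y) ∧ Sim .a y' (x0 strict M) := by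
  induction ws with
  | nil =>
    intro ph hph x' y' x hx h
    have h' : runs strict (blockM M) [BL.e] x' y' := h
    obtain ⟨z, h1, h2⟩ := h'
    have h3 := (end_fwd hx h1).1
    rw [hph] at h3
    cases h3
  | cons w ws ih =>
    intro ph hph x' y' x hx h
    rw [rest_cons] at h
    obtain ⟨z, h1, h2⟩ := h
    rw [runs_append] at h2
    obtain ⟨z', h3, h4⟩ := h2
    obtain ⟨ph', h5, h6⟩ := sep_fwd hx h1
    have h7 : ph' = .b ∨ ph' = .c := by
      cases h5 <;> first
        | exact Or.inl rfl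
        | exact Or.inr rfl
        | cases hph
    rcases h7 with rfl | rfl
    · obtain ⟨⟨w', hw', h8⟩, h9⟩ := ih rfl (runs_skip_fwd rfl w h6 h3) h4
      exact ⟨⟨w', List.mem_cons_of_mem _ hw', h8⟩, h9⟩
    · obtain ⟨y, h8, h9⟩ := runs_work_fwd rfl w h6 h3
      obtain ⟨h10, h11⟩ := rest_fin_fwd ws rfl h9 h4
      exact ⟨⟨w, List.mem_cons_self, y, h8, h10⟩, h11⟩

theorem rest_bwd (ws : List (List A)) : ∀ {ph : Ph}, ph.fin = false →
    ∀ {x' : Set (BQ M × BQ M) × BQ M} {x : Set (M.Q × M.Q) × M.Q}, Sim ph x' x →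
    (∃ w ∈ ws, ∃ y, runs strict M w x y ∧ finX strict M y) →
    ∃ y', runs strict (blockM M) (rest ws) x' y' ∧ Sim .a y' (x0 strict M) := by
  induction ws with
  | nil =>
    rintro ph hph x' x hx ⟨w, hw, _⟩
    exact absurd hw List.not_mem_nil
  | cons w ws ih =>
    rintro ph hph x' x hx ⟨w', hw', y, h1, h2⟩
    rcases List.mem_cons.1 hw' with rfl | hw'
    · have hn : Ph.Nxt ph .c := by
        cases ph
        · exact Ph.Nxt.ac
        · exact Ph.Nxt.bc
        · cases hph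
        · cases hph
      obtain ⟨z, h3, h4⟩ := sep_bwd (strict := strict) hn hx
      obtain ⟨z', h5, h6⟩ := runs_work_bwd (strict := strict) rfl w' h4 h1
      obtain ⟨y', h7, h8⟩ := rest_fin_bwd ws rfl h6 h2
      refine ⟨y', ?_, h8⟩
      rw [rest_cons]
      exact ⟨z, h3, (runs_append _ _ _ _).2 ⟨z', h5, h7⟩⟩
    · have hn : Ph.Nxt ph .b := by
        cases ph
        · exact Ph.Nxt.ab
        · exact Ph.Nxt.bb
        · cases hph
        · cases hph
      obtain ⟨z, h3, h4⟩ := sep_bwd (strict := strict) hn hx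
      obtain ⟨z', h5, h6⟩ := runs_skip_bwd (strict := strict) rfl w h4
      obtain ⟨y', h7, h8⟩ := ih rfl h6 ⟨w', hw', y, h1, h2⟩
      refine ⟨y', ?_, h8⟩
      rw [rest_cons]
      exact ⟨z, h3, (runs_append _ _ _ _).2 ⟨z', h5, h7⟩⟩

/-- A block. -/
def blk (b : List A × List (List A)) : List (BL A) := ltrs b.1 ++ rest b.2

/-- The blocks that are accepted. -/
def Good (strict : Prop) (M : LimAut A) (b : List A × List (List A)) : Prop :=
  ∃ w ∈ b.2, b.1 ++ w ∈ M.language strict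

theorem blk_fwd {b : List A × List (List A)} {x' y' : Set (BQ M × BQ M) × BQ M}
    (hx : Sim .a x' (x0 strict M)) (h : runs strict (blockM M) (blk b) x' y') :
    Good strict M b ∧ Sim .a y' (x0 strict M) := by
  unfold blk at h
  rw [runs_append] at h
  obtain ⟨z', h1, h2⟩ := h
  obtain ⟨z, h3, h4⟩ := runs_work_fwd rfl b.1 hx h1
  obtain ⟨⟨w, hw, y, h5, h6⟩, h7⟩ := rest_fwd b.2 rfl h4 h2
  refine ⟨⟨w, hw, ?_⟩, h7⟩
  rw [mem_language_runs]
  exact ⟨y, (runs_append _ _ _ _).2 ⟨z, h3, h5⟩, h6⟩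

theorem blk_bwd {b : List A × List (List A)} {x' : Set (BQ M × BQ M) × BQ M}
    (hx : Sim .a x' (x0 strict M)) (h : Good strict M b) :
    ∃ y', runs strict (blockM M) (blk b) x' y' ∧ Sim .a y' (x0 strict M) := by
  obtain ⟨w, hw, h1⟩ := h
  rw [mem_language_runs] at h1
  obtain ⟨y, h2, h3⟩ := h1
  rw [runs_append] at h2
  obtain ⟨z, h4, h5⟩ := h2
  obtain ⟨z', h6, h7⟩ := runs_work_bwd (strict := strict) rfl b.1 hx h4
  obtain ⟨y', h8, h9⟩ := rest_bwd b.2 rfl h7 ⟨w, hw, y, h5, h3⟩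
  exact ⟨y', (runs_append _ _ _ _).2 ⟨z', h6, h8⟩, h9⟩

theorem blks_fwd (bs : List (List A × List (List A))) :
    ∀ {x' y' : Set (BQ M × BQ M) × BQ M}, Sim .a x' (x0 strict M) →
    runs strict (blockM M) (bs.flatMap blk) x' y' →
    (∀ b ∈ bs, Good strict M b) ∧ Sim .a y' (x0 strict M) := by
  induction bs with
  | nil =>
    intro x' y' hx h
    have h1 : x' = y' := h
    subst h1
    exact ⟨fun b hb => absurd hb List.not_mem_nil, hx⟩
  | cons b bs ih =>
    intro x' y' hx h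
    rw [List.flatMap_cons, runs_append] at h
    obtain ⟨z', h1, h2⟩ := h
    obtain ⟨h3, h4⟩ := blk_fwd hx h1
    obtain ⟨h5, h6⟩ := ih h4 h2
    refine ⟨?_, h6⟩
    intro b' hb'
    rcases List.mem_cons.1 hb' with rfl | hb'
    · exact h3
    · exact h5 b' hb'

theorem blks_bwd (bs : List (List A × List (List A))) :
    ∀ {x' : Set (BQ M × BQ M) × BQ M}, Sim .a x' (x0 strict M) →
    (∀ b ∈ bs, Good strict M b) →
    ∃ y', runs strict (blockM M) (bs.flatMap blk) x' y' ∧ Sim .a y' (x0 strict M) := by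
  induction bs with
  | nil =>
    intro x' hx _
    exact ⟨x', rfl, hx⟩
  | cons b bs ih =>
    intro x' hx h
    obtain ⟨z', h1, h2⟩ := blk_bwd hx (h b List.mem_cons_self)
    obtain ⟨y', h3, h4⟩ := ih h2 fun b' hb' => h b' (List.mem_cons_of_mem _ hb')
    refine ⟨y', ?_, h4⟩
    rw [List.flatMap_cons]
    exact (runs_append _ _ _ _).2 ⟨z', h1, h3⟩

/-- The language of the block machine on sequences of blocks. -/
theorem mem_blocks (bs : List (List A × List (List A))) :
    bs.flatMap blk ∈ (blockM M).language strict ↔ ∀ b ∈ bs, Good strict M b := by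
  have hx : Sim .a (x0 strict (blockM M)) (x0 strict M) := ⟨rfl, tabOK_lm⟩
  rw [mem_language_runs]
  constructor
  · rintro ⟨y, h1, _⟩
    exact (blks_fwd bs hx h1).1
  · intro h
    obtain ⟨y', h1, h2⟩ := blks_bwd bs hx h
    refine ⟨y', h1, (ext strict (blockM M) y'.1 .rm, none), ⟨none, .bot, true, ?_, rfl,
      fun _ => rfl, by simp⟩, rfl⟩
    show BT M y'.2 .rm none .bot true
    rw [h2.1]
    exact BT.rm

end Pool.Agent.N602.FT
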