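import Mathlib

set_option autoImplicit false

/-!
Actions of words on a finite set by a first pass `phi`, by later passes `lam` from left to right
and by passes `rho` from right to left; a bound for the size of fooling sets.
-/

namespace Pool.Agent.N602.FT

open Function

/-- Powers of a word. -/
def pw {A : Type} (x : List A) : ℕ → List A
  | 0 => []
  | n + 1 => x ++ pw x n

theorem pw_comm {A : Type} (x : List A) (n : ℕ) : pw x (n + 1) = pw x n ++ x := by
  induction n with
  | zero => simp [pw]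
  | succ n ih =>
    show x ++ pw x (n + 1) = (x ++ pw x n) ++ x
    rw [ih, List.append_assoc]

theorem pw_add {A : Type} (x : List A) (m n : ℕ) : pw x (m + n) = pw x m ++ pw x n := by
  induction m with
  | zero => simp [pw]
  | succ m ih =>
    have : m + 1 + n = (m + n) + 1 := by omega
    rw [this]
    show x ++ pw x (m + n) = (x ++ pw x m) ++ pw x n
    rw [ih, List.append_assoc]

theorem pw_length {A : Type} (x : List A) (n : ℕ) : (pw x n).length = n * x.length := by
  induction n with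
  | zero => simp [pw]
  | succ n ih =>
    show (x ++ pw x n).length = _
    rw [List.length_append, ih]
    ring

theorem pw_mem {A : Type} {P : Set (List A)} (hP : ∀ x ∈ P, ∀ y ∈ P, x ++ y ∈ P) {x : List A}
    (hx : x ∈ P) : ∀ n, pw x (n + 1) ∈ P := by
  intro n
  induction n with
  | zero =>
    have : pw x (0 + 1) = x := by simp [pw]
    rw [this]
    exact hx
  | succ n ih => exact hP _ hx _ ih

theorem pw_mem' {A : Type} {P : Set (List A)} (hP : ∀ x ∈ P, ∀ y ∈ P, x ++ y ∈ P) (h0 : [] ∈ P)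
    {x : List A} (hx : x ∈ P) : ∀ n, pw x n ∈ P := by
  intro n
  rcases n with _ | n
  · exact h0
  · exact pw_mem hP hx n

/-- A power of an injective map is the identity. -/
theorem iter_id {O : Type} [Finite O] (f : O → O) {E : Set O} (hm : ∀ x ∈ E, f x ∈ E)
    (hi : Set.InjOn f E) {x : O} (hx : x ∈ E) : f^[(Nat.card O).factorial] x = x := by
  classical
  have := Fintype.ofFinite O
  let g : E → E := fun y => ⟨f y.1, hm y.1 y.2⟩
  have hg : Injective g := by
    intro y z h
    have h1 : f y.1 = f z.1 := congrArg Subtype.val h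
    exact Subtype.ext (hi y.2 z.2 h1)
  obtain ⟨n, hn, hp⟩ := Injective.mem_periodicPts hg ⟨x, hx⟩
  have hval : ∀ (n : ℕ) (y : E), (g^[n] y).1 = f^[n] y.1 := by
    intro n
    induction n with
    | zero => intro y; rfl
    | succ n ih =>
      intro y
      rw [Function.iterate_succ_apply, Function.iterate_succ_apply, ih]
  have h1 : f^[n] x = x := by
    have h2 : g^[n] ⟨x, hx⟩ = ⟨x, hx⟩ := hp
    have h3 := hval n ⟨x, hx⟩
    rw [h2] at h3
    exact h3.symm
  have h4 : x ∈ periodicPts f := mk_mem_periodicPts hn h1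
  have h5 := isPeriodicPt_factorial_card_of_mem_periodicPts h4
  rw [Nat.card_eq_fintype_card]
  exact h5

theorem argmin {α : Type} (f : α → ℕ) {P : Set α} (hP : P.Nonempty) :
    ∃ θ ∈ P, ∀ z ∈ P, f θ ≤ f z := by
  classical
  have h : ∃ n, ∃ θ ∈ P, f θ = n := by
    obtain ⟨θ, hθ⟩ := hP
    exact ⟨_, θ, hθ, rfl⟩
  obtain ⟨θ, h1, h2⟩ := Nat.find_spec h
  refine ⟨θ, h1, ?_⟩
  intro z hz
  rw [h2]
  exact Nat.find_min' h ⟨z, hz, rfl⟩

/-- The laws. -/
structure Act {A O : Type} (phi : List A → O → O) (lam rho : List A → O → O → O) : Prop where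
  phi_nil : ∀ e, phi [] e = e
  phi_app : ∀ x y e, phi (x ++ y) e = phi y (phi x e)
  lam_nil : ∀ e p, lam [] e p = p
  lam_app : ∀ x y e p, lam (x ++ y) e p = lam y (phi x e) (lam x e p)
  rho_nil : ∀ e p, rho [] e p = p
  rho_app : ∀ x y e p, rho (x ++ y) e p = rho x e (rho y (phi x e) p)

section act

variable {A O : Type} {phi : List A → O → O} {lam rho : List A → O → O → O}

theorem Act.phi_pw (h : Act phi lam rho) (x : List A) (n : ℕ) (e : O) :
    phi (pw x n) e = (phi x)^[n] e := by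
  induction n generalizing e with
  | zero => exact h.phi_nil e
  | succ n ih =>
    show phi (x ++ pw x n) e = _
    rw [h.phi_app, ih, Function.iterate_succ_apply]

theorem Act.lam_pw (h : Act phi lam rho) {x : List A} {e : O} (he : phi x e = e) (n : ℕ)
    (p : O) : lam (pw x n) e p = (lam x e)^[n] p := by
  induction n generalizing p with
  | zero => exact h.lam_nil e p
  | succ n ih =>
    show lam (x ++ pw x n) e p = _
    rw [h.lam_app, he, ih, Function.iterate_succ_apply]

theorem Act.rho_pw (h : Act phi lam rho) {x : List A} {e : O} (he : phi x e = e) (n : ℕ)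
    (p : O) : rho (pw x n) e p = (rho x e)^[n] p := by
  induction n generalizing p with
  | zero => exact h.rho_nil e p
  | succ n ih =>
    show rho (x ++ pw x n) e p = _
    rw [h.rho_app, he, ih, Function.iterate_succ_apply']

/-- The word `Θ` is a recurrent positive word. -/
structure Core (phi : List A → O → O) (lam rho : List A → O → O → O) (P : Set (List A))
    (E : Set O) (Θ : List A) : Prop where
  mem : Θ ∈ P
  fix : ∀ e ∈ E, phi Θ e = e
  into : ∀ e, phi Θ e ∈ E
  inj : ∀ y ∈ P, Set.InjOn (phi y) E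
  min1 : ∀ z ∈ P, (∀ e ∈ E, phi z e = e) → ∀ e ∈ E,
    Set.InjOn (lam z e) (Set.range (lam Θ e))
  min2 : ∀ z ∈ P, (∀ e ∈ E, phi z e = e) → ∀ e ∈ E,
    Set.InjOn (rho z e) (Set.range (rho Θ e))

theorem exists_core [Finite O] (h : Act phi lam rho) {P : Set (List A)} (hP0 : P.Nonempty)
    (hP : ∀ x ∈ P, ∀ y ∈ P, x ++ y ∈ P) : ∃ E Θ, Core phi lam rho P E Θ := by
  classical
  have := Fintype.ofFinite O
  obtain ⟨θ, hθ, hθmin⟩ := argmin (fun z => (Set.range (phi z)).ncard) hP0
  set E : Set O := Set.range (phi θ) with hE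
  have hinj : ∀ y ∈ P, Set.InjOn (phi y) E := by
    intro y hy
    refine Set.injOn_of_ncard_image_eq ?_ (Set.toFinite _)
    apply le_antisymm (Set.ncard_image_le (Set.toFinite _))
    have h1 := hθmin _ (hP θ hθ y hy)
    have h2 : Set.range (phi (θ ++ y)) = phi y '' E := by
      ext p
      simp only [hE, Set.mem_range, Set.mem_image, exists_exists_eq_and, h.phi_app]
    rw [h2] at h1
    exact h1
  obtain ⟨r, hr⟩ : ∃ r, (Nat.card O).factorial = r + 1 :=
    ⟨(Nat.card O).factorial - 1, by have := Nat.factorial_pos (Nat.card O); omega⟩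
  let Z : Set (List A) := {z | z ∈ P ∧ (∀ e ∈ E, phi z e = e) ∧ ∀ e, phi z e ∈ E}
  have hZ0 : Z.Nonempty := by
    refine ⟨pw θ (r + 1), pw_mem hP hθ r, ?_, ?_⟩
    · intro e he
      rw [h.phi_pw, ← hr]
      exact iter_id (E := E) (phi θ) (fun x _ => ⟨x, rfl⟩) (hinj θ hθ) he
    · intro e
      rw [h.phi_pw, Function.iterate_succ_apply']
      exact ⟨_, rfl⟩
  obtain ⟨Θ, ⟨hΘ1, hΘ2, hΘ3⟩, hΘmin⟩ := argmin (fun z => ∑ e ∈ E.toFinite.toFinset,
    ((Set.range (lam z e)).ncard + (Set.range (rho z e)).ncard)) hZ0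
  have hkey : ∀ z ∈ Z, (∀ e ∈ E, (Set.range (lam z e)).ncard ≤ (Set.range (lam Θ e)).ncard) →
      (∀ e ∈ E, (Set.range (rho z e)).ncard ≤ (Set.range (rho Θ e)).ncard) → ∀ e ∈ E,
      (Set.range (lam z e)).ncard = (Set.range (lam Θ e)).ncard ∧
      (Set.range (rho z e)).ncard = (Set.range (rho Θ e)).ncard := by
    intro z hz h1 h2 e he
    have h3 := hΘmin z hz
    have h4 : ∀ e ∈ E.toFinite.toFinset,
        (Set.range (lam z e)).ncard + (Set.range (rho z e)).ncard ≤
        (Set.range (lam Θ e)).ncard + (Set.range (rho Θ e)).ncard := by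
      intro e he
      rw [Set.Finite.mem_toFinset] at he
      have := h1 e he
      have := h2 e he
      omega
    have h5 := (Finset.sum_eq_sum_iff_of_le h4).1 (le_antisymm (Finset.sum_le_sum h4) h3) e
      (by rw [Set.Finite.mem_toFinset]; exact he)
    have := h1 e he
    have := h2 e he
    omega
  refine ⟨E, Θ, hΘ1, hΘ2, hΘ3, hinj, ?_, ?_⟩
  · intro z hz1 hz2 e he
    have hz : Θ ++ z ∈ Z := by
      refine ⟨hP _ hΘ1 _ hz1, ?_, ?_⟩
      · intro e he
        rw [h.phi_app, hΘ2 e he, hz2 e he]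
      · intro e
        rw [h.phi_app, hz2 _ (hΘ3 e)]
        exact hΘ3 e
    have i1 : ∀ e ∈ E, Set.range (lam (Θ ++ z) e) = lam z e '' Set.range (lam Θ e) := by
      intro e he
      ext p
      simp only [Set.mem_range, Set.mem_image, exists_exists_eq_and, h.lam_app, hΘ2 e he]
    have i2 : ∀ e ∈ E, Set.range (rho (Θ ++ z) e) ⊆ Set.range (rho Θ e) := by
      rintro e he _ ⟨p, rfl⟩
      rw [h.rho_app]
      exact ⟨_, rfl⟩
    have h1 := hkey _ hz (fun e he => by
      rw [i1 e he]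
      exact Set.ncard_image_le (Set.toFinite _))
      (fun e he => Set.ncard_le_ncard (i2 e he) (Set.toFinite _)) e he
    refine Set.injOn_of_ncard_image_eq ?_ (Set.toFinite _)
    rw [← i1 e he]
    exact h1.1
  · intro z hz1 hz2 e he
    have hz : z ++ Θ ∈ Z := by
      refine ⟨hP _ hz1 _ hΘ1, ?_, ?_⟩
      · intro e he
        rw [h.phi_app, hz2 e he, hΘ2 e he]
      · intro e
        rw [h.phi_app]
        exact hΘ3 _
    have i1 : ∀ e ∈ E, Set.range (rho (z ++ Θ) e) = rho z e '' Set.range (rho Θ e) := by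
      intro e he
      ext p
      simp only [Set.mem_range, Set.mem_image, exists_exists_eq_and, h.rho_app, hz2 e he]
    have i2 : ∀ e ∈ E, Set.range (lam (z ++ Θ) e) ⊆ Set.range (lam Θ e) := by
      rintro e he _ ⟨p, rfl⟩
      rw [h.lam_app, hz2 e he]
      exact ⟨_, rfl⟩
    have h1 := hkey _ hz (fun e he => Set.ncard_le_ncard (i2 e he) (Set.toFinite _))
      (fun e he => by
      rw [i1 e he]
      exact Set.ncard_image_le (Set.toFinite _)) e he
    refine Set.injOn_of_ncard_image_eq ?_ (Set.toFinite _)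
    rw [← i1 e he]
    exact h1.2

/-- The word that is tested. -/
def tst (Θ x : List A) : List A := Θ ++ (x ++ (Θ ++ Θ))

/-- The three conditions. -/
structure Cond (phi : List A → O → O) (lam rho : List A → O → O → O) (E : Set O)
    (Θ x : List A) : Prop where
  c0 : Set.InjOn (phi (tst Θ x)) E
  c1 : ∀ e ∈ E, Set.InjOn (lam (tst Θ x) e) (Set.range (lam Θ e))
  c2 : ∀ e ∈ E, Set.InjOn (rho (tst Θ x) e) (Set.range (rho Θ (phi (tst Θ x) e)))

section core

variable {P : Set (List A)} {E : Set O} {Θ : List A}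

theorem Core.tst_into (h : Act phi lam rho) (hc : Core phi lam rho P E Θ) (x : List A) (e : O) :
    phi (tst Θ x) e ∈ E := by
  unfold tst
  rw [h.phi_app, h.phi_app, h.phi_app]
  exact hc.into _

theorem Core.tst_phi (h : Act phi lam rho) (hc : Core phi lam rho P E Θ) (x : List A) {e : O}
    (he : e ∈ E) : phi (tst Θ x) e = phi Θ (phi x e) := by
  unfold tst
  rw [h.phi_app, h.phi_app, h.phi_app, hc.fix e he, hc.fix _ (hc.into _)]

theorem Core.tst_lam (h : Act phi lam rho) (hc : Core phi lam rho P E Θ) (x : List A) {e : O}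
    (he : e ∈ E) (p : O) : lam (tst Θ x) e p =
      lam Θ (phi Θ (phi x e)) (lam Θ (phi x e) (lam x e (lam Θ e p))) := by
  unfold tst
  rw [h.lam_app, h.lam_app, h.lam_app, hc.fix e he]

theorem Core.tst_rho (h : Act phi lam rho) (hc : Core phi lam rho P E Θ) (x : List A) {e : O}
    (he : e ∈ E) (p : O) : rho (tst Θ x) e p =
      rho Θ e (rho x e (rho Θ (phi x e) (rho Θ (phi Θ (phi x e)) p))) := by
  unfold tst
  rw [h.rho_app, h.rho_app, h.rho_app, hc.fix e he]

/-- Positive words satisfy the conditions. -/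
theorem Core.cond_of_mem [Finite O] (h : Act phi lam rho) (hc : Core phi lam rho P E Θ)
    (hP : ∀ x ∈ P, ∀ y ∈ P, x ++ y ∈ P) {x : List A} (hx : x ∈ P) :
    Cond phi lam rho E Θ x := by
  have hy : tst Θ x ∈ P := hP _ hc.mem _ (hP _ hx _ (hP _ hc.mem _ hc.mem))
  have hc0 := hc.inj _ hy
  obtain ⟨r, hr⟩ : ∃ r, (Nat.card O).factorial = r + 1 :=
    ⟨(Nat.card O).factorial - 1, by have := Nat.factorial_pos (Nat.card O); omega⟩
  have hzP : pw (tst Θ x) (r + 1) ∈ P := pw_mem hP hy r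
  have hzfix : ∀ e ∈ E, phi (pw (tst Θ x) (r + 1)) e = e := by
    intro e he
    rw [h.phi_pw, ← hr]
    exact iter_id _ (fun e _ => hc.tst_into h x e) hc0 he
  refine ⟨hc0, ?_, ?_⟩
  · intro e he p hp p' hp' heq
    apply hc.min1 _ hzP hzfix e he hp hp'
    show lam (tst Θ x ++ pw (tst Θ x) r) e p = lam (tst Θ x ++ pw (tst Θ x) r) e p'
    rw [h.lam_app, h.lam_app, heq]
  · intro e he p hp p' hp' heq
    set e1 := phi (tst Θ x) e with he1
    have he1E : e1 ∈ E := hc.tst_into h x e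
    apply hc.min2 _ hzP hzfix e1 he1E hp hp'
    rw [pw_comm, h.rho_app, h.rho_app]
    have h1 : phi (pw (tst Θ x) r) e1 = e := by
      have h2 := hzfix e he
      have h3 : phi (tst Θ x ++ pw (tst Θ x) r) e = e := h2
      rw [h.phi_app] at h3
      exact h3
    rw [h1, heq]

/-- A word that satisfies the conditions acts like a positive word. -/
theorem Core.replace_eq [Finite O] (h : Act phi lam rho) (hc : Core phi lam rho P E Θ)
    {x : List A} (hx : Cond phi lam rho E Θ x) : ∃ r, ∃ X',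
      X' = (Θ ++ Θ) ++ (pw (pw (tst Θ x) (r + 1)) (r + 1) ++ (Θ ++ Θ)) ∧
      phi ((Θ ++ Θ) ++ (Θ ++ Θ)) = phi X' ∧ lam ((Θ ++ Θ) ++ (Θ ++ Θ)) = lam X' ∧
      rho ((Θ ++ Θ) ++ (Θ ++ Θ)) = rho X' := by
  obtain ⟨r, hr⟩ : ∃ r, (Nat.card O).factorial = r + 1 :=
    ⟨(Nat.card O).factorial - 1, by have := Nat.factorial_pos (Nat.card O); omega⟩
  set y := tst Θ x with hy
  have hinto : ∀ e, phi y e ∈ E := hc.tst_into h x
  have hinto' : ∀ n, ∀ e ∈ E, phi (pw y n) e ∈ E := by
    intro n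
    induction n with
    | zero =>
      intro e he
      rw [show pw y 0 = [] from rfl, h.phi_nil]
      exact he
    | succ n ih =>
      intro e he
      show phi (y ++ pw y n) e ∈ E
      rw [h.phi_app]
      exact ih _ (hinto e)
  have hlamr : ∀ e ∈ E, ∀ p, lam y e p ∈ Set.range (lam Θ (phi y e)) := by
    intro e he p
    rw [hy, hc.tst_lam h x he, hc.tst_phi h x he]
    exact ⟨_, rfl⟩
  have hrhor : ∀ e ∈ E, ∀ p, rho y e p ∈ Set.range (rho Θ e) := by
    intro e he p
    rw [hy, hc.tst_rho h x he]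
    exact ⟨_, rfl⟩
  have hL : ∀ n, ∀ e ∈ E, Set.InjOn (lam (pw y n) e) (Set.range (lam Θ e)) ∧
      ∀ p ∈ Set.range (lam Θ e), lam (pw y n) e p ∈ Set.range (lam Θ (phi (pw y n) e)) := by
    intro n
    induction n with
    | zero =>
      intro e he
      rw [show pw y 0 = [] from rfl, h.phi_nil]
      refine ⟨?_, ?_⟩
      · intro p _ p' _ hpp
        rwa [h.lam_nil, h.lam_nil] at hpp
      · intro p hp
        rw [h.lam_nil]
        exact hp
    | succ n ih =>
      intro e he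
      rw [show pw y (n + 1) = y ++ pw y n from rfl, h.phi_app]
      obtain ⟨i1, i2⟩ := ih (phi y e) (hinto e)
      refine ⟨?_, ?_⟩
      · intro p hp p' hp' hpp
        rw [h.lam_app, h.lam_app] at hpp
        exact hx.c1 e he hp hp' (i1 (hlamr e he p) (hlamr e he p') hpp)
      · intro p hp
        rw [h.lam_app]
        exact i2 _ (hlamr e he p)
  have hR : ∀ n, ∀ e ∈ E,
      Set.InjOn (rho (pw y n) e) (Set.range (rho Θ (phi (pw y n) e))) ∧
      ∀ p ∈ Set.range (rho Θ (phi (pw y n) e)), rho (pw y n) e p ∈ Set.range (rho Θ e) := by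
    intro n
    induction n with
    | zero =>
      intro e he
      rw [show pw y 0 = [] from rfl, h.phi_nil]
      refine ⟨?_, ?_⟩
      · intro p _ p' _ hpp
        rwa [h.rho_nil, h.rho_nil] at hpp
      · intro p hp
        rw [h.rho_nil]
        exact hp
    | succ n ih =>
      intro e he
      rw [show pw y (n + 1) = y ++ pw y n from rfl, h.phi_app]
      obtain ⟨i1, i2⟩ := ih (phi y e) (hinto e)
      refine ⟨?_, ?_⟩
      · intro p hp p' hp' hpp
        rw [h.rho_app, h.rho_app] at hpp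
        exact i1 hp hp' (hx.c2 e he (i2 p hp) (i2 p' hp') hpp)
      · intro p hp
        rw [h.rho_app]
        exact hrhor e he _
  set z1 := pw y (r + 1) with hz1
  have hz1fix : ∀ e ∈ E, phi z1 e = e := by
    intro e he
    rw [hz1, h.phi_pw, ← hr]
    exact iter_id _ (fun e _ => hinto e) hx.c0 he
  set z2 := pw z1 (r + 1) with hz2
  have hfix : ∀ (f : O → O) (e : O), f e = e → ∀ n, f^[n] e = e := by
    intro f e hfe n
    exact Function.iterate_fixed hfe n
  have hz2fix : ∀ e ∈ E, phi z2 e = e := by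
    intro e he
    rw [hz2, h.phi_pw]
    exact hfix _ _ (hz1fix e he) _
  have hz2lam : ∀ e ∈ E, ∀ p ∈ Set.range (lam Θ e), lam z2 e p = p := by
    intro e he p hp
    rw [hz2, h.lam_pw (hz1fix e he), ← hr]
    obtain ⟨i1, i2⟩ := hL (r + 1) e he
    rw [← hz1, hz1fix e he] at i2
    exact iter_id _ i2 i1 hp
  have hz2rho : ∀ e ∈ E, ∀ p ∈ Set.range (rho Θ e), rho z2 e p = p := by
    intro e he p hp
    rw [hz2, h.rho_pw (hz1fix e he), ← hr]
    obtain ⟨i1, i2⟩ := hR (r + 1) e he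
    rw [← hz1, hz1fix e he] at i1 i2
    exact iter_id _ i2 i1 hp
  refine ⟨r, _, rfl, ?_, ?_, ?_⟩
  · funext e
    rw [h.phi_app, h.phi_app (Θ ++ Θ), h.phi_app z2]
    have h1 : phi (Θ ++ Θ) e ∈ E := by
      rw [h.phi_app]
      exact hc.into _
    rw [hz2fix _ h1]
  · funext e p
    rw [h.lam_app, h.lam_app (Θ ++ Θ), h.lam_app z2]
    have h1 : phi (Θ ++ Θ) e ∈ E := by
      rw [h.phi_app]
      exact hc.into _
    have h2 : phi (Θ ++ Θ) e = phi Θ e := by
      rw [h.phi_app]
      exact hc.fix _ (hc.into _)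
    have h3 : lam (Θ ++ Θ) e p ∈ Set.range (lam Θ (phi (Θ ++ Θ) e)) := by
      rw [h.lam_app, h2]
      exact ⟨_, rfl⟩
    rw [hz2fix _ h1, hz2lam _ h1 _ h3]
  · funext e p
    rw [h.rho_app, h.rho_app (Θ ++ Θ), h.rho_app z2]
    have h1 : phi (Θ ++ Θ) e ∈ E := by
      rw [h.phi_app]
      exact hc.into _
    have h3 : ∀ p, rho (Θ ++ Θ) (phi (Θ ++ Θ) e) p ∈ Set.range (rho Θ (phi (Θ ++ Θ) e)) := by
      intro p
      rw [h.rho_app]
      exact ⟨_, rfl⟩
    rw [hz2fix _ h1, hz2rho _ h1 _ (h3 _)]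

end core

/-- The labels of a word `u ++ v` that violates one of the conditions. -/
inductive Lab (phi : List A → O → O) (lam rho : List A → O → O → O) (E : Set O)
    (Θ u v : List A) : (O × O) ⊕ ((O × O × O) ⊕ (O × O × O)) → Prop
  | l0 (e e' : O) (he : e ∈ E) (he' : e' ∈ E) (hne : e ≠ e')
      (heq : phi Θ (phi v (phi u e)) = phi Θ (phi v (phi u e'))) :
      Lab phi lam rho E Θ u v (Sum.inl (phi u e, phi u e'))
  | l1 (e p p' : O) (he : e ∈ E) (hp : p ∈ Set.range (lam Θ e)) (hp' : p' ∈ Set.range (lam Θ e))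
      (hne : p ≠ p')
      (heq : lam Θ (phi Θ (phi v (phi u e))) (lam Θ (phi v (phi u e))
        (lam v (phi u e) (lam u e (lam Θ e p)))) =
        lam Θ (phi Θ (phi v (phi u e))) (lam Θ (phi v (phi u e))
        (lam v (phi u e) (lam u e (lam Θ e p'))))) :
      Lab phi lam rho E Θ u v
        (Sum.inr (Sum.inl (phi u e, lam u e (lam Θ e p), lam u e (lam Θ e p'))))
  | l2 (e p p' t t' : O) (he : e ∈ E)
      (hp : p ∈ Set.range (rho Θ (phi Θ (phi v (phi u e)))))
      (hp' : p' ∈ Set.range (rho Θ (phi Θ (phi v (phi u e))))) (hne : p ≠ p')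
      (ht : t = rho v (phi u e) (rho Θ (phi v (phi u e)) (rho Θ (phi Θ (phi v (phi u e))) p)))
      (ht' : t' = rho v (phi u e) (rho Θ (phi v (phi u e))
        (rho Θ (phi Θ (phi v (phi u e))) p')))
      (heq : rho Θ e (rho u e t) = rho Θ e (rho u e t')) :
      Lab phi lam rho E Θ u v (Sum.inr (Sum.inr (phi u e, t, t')))

section lab

variable {P : Set (List A)} {E : Set O} {Θ : List A}

theorem exists_lab (h : Act phi lam rho) (hc : Core phi lam rho P E Θ) {u v : List A}
    (hn : ¬ Cond phi lam rho E Θ (u ++ v)) : ∃ l, Lab phi lam rho E Θ u v l := by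
  by_contra hno
  push Not at hno
  apply hn
  refine ⟨?_, ?_, ?_⟩
  · intro e he e' he' heq
    by_contra hne
    rw [hc.tst_phi h _ he, hc.tst_phi h _ he', h.phi_app, h.phi_app] at heq
    exact hno _ (Lab.l0 e e' he he' hne heq)
  · intro e he p hp p' hp' heq
    by_contra hne
    rw [hc.tst_lam h _ he, hc.tst_lam h _ he, h.phi_app, h.lam_app, h.lam_app] at heq
    exact hno _ (Lab.l1 e p p' he hp hp' hne heq)
  · intro e he p hp p' hp' heq
    by_contra hne
    rw [hc.tst_rho h _ he, hc.tst_rho h _ he, h.phi_app, h.rho_app, h.rho_app] at heq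
    rw [hc.tst_phi h _ he, h.phi_app] at hp hp'
    exact hno _ (Lab.l2 e p p' _ _ he hp hp' hne rfl rfl heq)

/-- Two words with a common label can be crossed. -/
theorem not_cond_cross (h : Act phi lam rho) (hc : Core phi lam rho P E Θ) {u v u' v' : List A}
    {l : (O × O) ⊕ ((O × O × O) ⊕ (O × O × O))} (h1 : Lab phi lam rho E Θ u v l)
    (h2 : Lab phi lam rho E Θ u' v' l) : ¬ Cond phi lam rho E Θ (u ++ v') := by
  intro hcond
  rcases h1 with ⟨e, e', he, he', hne, heq⟩ | ⟨e, p, p', he, hp, hp', hne, heq⟩ |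
    ⟨e, p, p', t, t', he, hp, hp', hne, ht, ht', heq⟩
  · generalize hl : (Sum.inl (phi u e, phi u e') : (O × O) ⊕ ((O × O × O) ⊕ (O × O × O))) = l
      at h2
    rcases h2 with ⟨f, f', hf, hf', hnf, hfeq⟩ | _ | _
    · simp only [Sum.inl.injEq, Prod.mk.injEq] at hl
      obtain ⟨hl1, hl2⟩ := hl
      apply hne
      apply hcond.c0 he he'
      rw [hc.tst_phi h _ he, hc.tst_phi h _ he', h.phi_app, h.phi_app, hl1, hl2]
      exact hfeq
    · cases hl
    · cases hl
  · generalize hl : (Sum.inr (Sum.inl (phi u e, lam u e (lam Θ e p), lam u e (lam Θ e p'))) :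
      (O × O) ⊕ ((O × O × O) ⊕ (O × O × O))) = l at h2
    rcases h2 with _ | ⟨f, q, q', hf, hq, hq', hnf, hfeq⟩ | _
    · cases hl
    · simp only [Sum.inr.injEq, Sum.inl.injEq, Prod.mk.injEq] at hl
      obtain ⟨hl1, hl2, hl3⟩ := hl
      apply hne
      apply hcond.c1 e he hp hp'
      rw [hc.tst_lam h _ he, hc.tst_lam h _ he, h.phi_app, h.lam_app, h.lam_app, hl2, hl3, hl1]
      exact hfeq
    · cases hl
  · generalize hl : (Sum.inr (Sum.inr (phi u e, t, t')) :
      (O × O) ⊕ ((O × O × O) ⊕ (O × O × O))) = l at h2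
    rcases h2 with _ | _ | ⟨f, q, q', s, s', hf, hq, hq', hnf, hs, hs', hfeq⟩
    · cases hl
    · cases hl
    · simp only [Sum.inr.injEq, Prod.mk.injEq] at hl
      obtain ⟨hl1, hl2, hl3⟩ := hl
      apply hnf
      have e1 : phi (tst Θ (u ++ v')) e = phi Θ (phi v' (phi u' f)) := by
        rw [hc.tst_phi h _ he, h.phi_app, hl1]
      apply hcond.c2 e he
      · rw [e1]
        exact hq
      · rw [e1]
        exact hq'
      · rw [hc.tst_rho h _ he, hc.tst_rho h _ he, h.phi_app, h.rho_app, h.rho_app, hl1, ← hs,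
          ← hs', ← hl2, ← hl3]
        exact heq

end lab

/-- A bound for fooling sets. -/
theorem fooling [Finite O] (h : Act phi lam rho) {P S L : Set (List A)} (hP0 : P.Nonempty)
    (hP : ∀ x ∈ P, ∀ y ∈ P, x ++ y ∈ P) (hS0 : [] ∈ S) (hS : ∀ x ∈ S, ∀ y ∈ S, x ++ y ∈ S)
    (hPS : P ⊆ S)
    (hrepl : ∀ Θ ∈ P, ∀ X', phi ((Θ ++ Θ) ++ (Θ ++ Θ)) = phi X' →
      lam ((Θ ++ Θ) ++ (Θ ++ Θ)) = lam X' → rho ((Θ ++ Θ) ++ (Θ ++ Θ)) = rho X' →
      ∃ i j, pw Θ (i + 1) ++ (X' ++ pw Θ (j + 1)) ∈ L)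
    {T : Type} [Finite T] (u v : T → List A) (hu : ∀ G, u G ++ v G ∈ S)
    (hneg : ∀ G, ∀ p ∈ P, ∀ q ∈ S, p ++ ((u G ++ v G) ++ q) ∉ L)
    (hpos : ∀ G G', G ≠ G' → u G ++ v G' ∈ P ∨ u G' ++ v G ∈ P) :
    Nat.card T ≤ Nat.card O ^ 2 + 2 * Nat.card O ^ 3 := by
  classical
  obtain ⟨E, Θ, hc⟩ := exists_core h hP0 hP
  have hnc : ∀ G, ¬ Cond phi lam rho E Θ (u G ++ v G) := by
    intro G hcond
    obtain ⟨r, X', hX', k1, k2, k3⟩ := hc.replace_eq h hcond
    obtain ⟨i, j, hij⟩ := hrepl Θ hc.mem X' k1 k2 k3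
    have hΘS : Θ ∈ S := hPS hc.mem
    have htS : tst Θ (u G ++ v G) ∈ S :=
      hS _ hΘS _ (hS _ (hu G) _ (hS _ hΘS _ hΘS))
    set y := tst Θ (u G ++ v G) with hy
    have hyS : ∀ n, pw y n ∈ S := pw_mem' hS hS0 htS
    have hzS : ∀ n, pw (pw y (r + 1)) n ∈ S := pw_mem' hS hS0 (hyS _)
    have e1 : pw Θ (i + 1) ++ (X' ++ pw Θ (j + 1)) =
        (pw Θ (i + 1) ++ (Θ ++ (Θ ++ Θ))) ++ ((u G ++ v G) ++
          ((Θ ++ Θ) ++ (pw y r ++ (pw (pw y (r + 1)) r ++ ((Θ ++ Θ) ++ pw Θ (j + 1)))))) := by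
      rw [hX']
      have e2 : pw (pw y (r + 1)) (r + 1) = (y ++ pw y r) ++ pw (pw y (r + 1)) r := rfl
      rw [e2]
      have e3 : y ++ pw y r = (Θ ++ ((u G ++ v G) ++ (Θ ++ Θ))) ++ pw y r := rfl
      rw [e3]
      simp only [List.append_assoc]
    rw [e1] at hij
    refine hneg G _ ?_ _ ?_ hij
    · exact hP _ (pw_mem hP hc.mem i) _ (hP _ hc.mem _ (hP _ hc.mem _ hc.mem))
    · exact hS _ (hS _ hΘS _ hΘS) _ (hS _ (hyS _) _ (hS _ (hzS _) _
        (hS _ (hS _ hΘS _ hΘS) _ (pw_mem' hS hS0 hΘS _))))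
  have hlab : ∀ G, ∃ l, Lab phi lam rho E Θ (u G) (v G) l := fun G => exists_lab h hc (hnc G)
  choose l hl using hlab
  have hinj : Function.Injective l := by
    intro G G' heq
    by_contra hne
    have h1 := hl G
    have h2 := hl G'
    rw [← heq] at h2
    rcases hpos G G' hne with h3 | h3
    · exact not_cond_cross h hc h1 h2 (hc.cond_of_mem h hP h3)
    · exact not_cond_cross h hc h2 h1 (hc.cond_of_mem h hP h3)
  have h1 := Nat.card_le_card_of_injective l hinj
  rw [Nat.card_sum, Nat.card_sum, Nat.card_prod, Nat.card_prod, Nat.card_prod] at h1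
  refine h1.trans (le_of_eq ?_)
  ring

end act

end Pool.Agent.N602.FT
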