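import Mathlib
import Pool.Agent.H630R2.LA.Nerode

set_option autoImplicit false

/-!
Straight passes of a deterministic 1-limited automaton over a factor of the input, and the
replacement of a factor in which the head does not turn.
-/

namespace Pool.Agent.N602.FT

open Relation
open Pool.Agent.H630R2.LA

variable {A : Type} {strict : Prop} {M : LimAut A}

/-- The head turns at the cell `i` in some computation on `w`: it enters the cell `i` from a
neighbour and goes back to this neighbour with the next move. -/
def TurnsAt (strict : Prop) (M : LimAut A) (w : List A) (i : ℕ) : Prop :=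
  ∃ c c' c'' : Cfg M, ReflTransGen (Step strict w.length) (init M w) c ∧
    Step strict w.length c c' ∧ Step strict w.length c' c'' ∧ c'.pos = i ∧ c''.pos = c.pos

/-! ### Single moves -/

open Classical in
/-- The configuration after a move. -/
noncomputable def nxt (c : Cfg M) (q : M.Q) (b : M.W) (d : Bool) : Cfg M :=
  ⟨q, if d then c.pos + 1 else c.pos - 1,
    if c.pos ∈ c.seen then c.tape else Function.update c.tape c.pos ((c.tape c.pos).rewrite b),
    insert c.pos c.seen⟩

theorem step_iff {n : ℕ} {c c' : Cfg M} : Step strict n c c' ↔ c.pos ≤ n + 1 ∧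
    ∃ (q : M.Q) (b : M.W) (d : Bool), (q, b, d) ∈ M.δ c.state (c.tape c.pos) ∧
      (strict → c.pos ∈ c.seen → (c.tape c.pos).rewrite b = c.tape c.pos) ∧
      (d = false → 0 < c.pos) ∧ c' = nxt c q b d := by
  classical
  constructor
  · rintro ⟨h1, q, b, d, h2, h3, h4, h5, h6, h7, h8, h9⟩
    refine ⟨h1, q, b, d, h2, h3, ?_, ?_⟩
    · intro h
      have := h9 h
      omega
    · obtain ⟨s, p, t, S⟩ := c'
      dsimp only at h4 h5 h6 h7 h8 h9
      subst h4
      subst h7
      unfold nxt
      congr 1
      · cases d
        · have := h9 rfl
          simp only [Bool.false_eq_true, if_false]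
          omega
        · have := h8 rfl
          simpa using this
      · by_cases h : c.pos ∈ c.seen
        · rw [if_pos h]
          exact h5 h
        · rw [if_neg h]
          exact h6 h
  · rintro ⟨h1, q, b, d, h2, h3, h4, rfl⟩
    refine ⟨h1, q, b, d, h2, h3, rfl, ?_, ?_, rfl, ?_, ?_⟩
    · intro h
      unfold nxt
      simp only [if_pos h]
    · intro h
      unfold nxt
      simp only [if_neg h]
    · rintro rfl
      simp [nxt]
    · rintro rfl
      have := h4 rfl
      simp only [nxt, Bool.false_eq_true, if_false]
      omega

open Classical in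
/-- The first visit of a cell with a move to the right. -/
noncomputable def ft (M : LimAut A) (p : M.Q) (a : A) : Option (M.Q × M.W) :=
  if h : ∃ x : M.Q × M.W, (x.1, x.2, true) ∈ M.δ p (.sym (M.inp a)) then some h.choose else none

theorem ft_eq (hd : M.Deterministic) {p : M.Q} {a : A} {q : M.Q} {b : M.W} :
    ft M p a = some (q, b) ↔ (q, b, true) ∈ M.δ p (.sym (M.inp a)) := by
  unfold ft
  constructor
  · intro h
    split_ifs at h with h1
    simp only [Option.some.injEq] at h
    have h2 := h1.choose_spec
    rw [h] at h2
    exact h2
  · intro h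
    have h1 : ∃ x : M.Q × M.W, (x.1, x.2, true) ∈ M.δ p (.sym (M.inp a)) := ⟨(q, b), h⟩
    rw [dif_pos h1]
    have h2 := hd _ _ h1.choose_spec h
    simp only [Prod.mk.injEq] at h2
    congr 1
    exact Prod.ext h2.1 h2.2.1

open Classical in
/-- A move on a frozen cell in the direction `d`. -/
noncomputable def mv (strict : Prop) (M : LimAut A) (d : Bool) (p : M.Q) (b : M.W) :
    Option M.Q :=
  if h : ∃ q, fz strict M p (.sym b) q d then some h.choose else none

theorem mv_eq (hd : M.Deterministic) {d : Bool} {p : M.Q} {b : M.W} {q : M.Q} :
    mv strict M d p b = some q ↔ fz strict M p (.sym b) q d := by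
  unfold mv
  constructor
  · intro h
    split_ifs at h with h1
    simp only [Option.some.injEq] at h
    have h2 := h1.choose_spec
    rw [h] at h2
    exact h2
  · intro h
    have h1 : ∃ q, fz strict M p (.sym b) q d := ⟨q, h⟩
    rw [dif_pos h1]
    congr 1
    exact (fz_unique hd h1.choose_spec h).1

/-! ### Straight passes -/

/-- One cell of the first pass. -/
noncomputable def nx (M : LimAut A) (a : A) (e : Option M.Q) : Option M.Q :=
  e.bind fun p => (ft M p a).map Prod.fst

/-- One cell of a later pass: `e` is the state in which the cell was entered in the first pass,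
`d` the direction. -/
noncomputable def lt (strict : Prop) (M : LimAut A) (d : Bool) (a : A) (e p : Option M.Q) :
    Option M.Q :=
  e.bind fun p0 => (ft M p0 a).bind fun qb => p.bind fun r => mv strict M d r qb.2

/-- The first pass over a word. -/
noncomputable def phi (M : LimAut A) : List A → Option M.Q → Option M.Q
  | [], e => e
  | a :: x, e => phi M x (nx M a e)

/-- A later pass from left to right. -/
noncomputable def lam (strict : Prop) (M : LimAut A) :
    List A → Option M.Q → Option M.Q → Option M.Q
  | [], _, p => p
  | a :: x, e, p => lam strict M x (nx M a e) (lt strict M true a e p)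

/-- A pass from right to left; `e` is the state in which the word was entered, at its left end, in
the first pass. -/
noncomputable def rho (strict : Prop) (M : LimAut A) :
    List A → Option M.Q → Option M.Q → Option M.Q
  | [], _, p => p
  | a :: x, e, p => lt strict M false a e (rho strict M x (nx M a e) p)

theorem phi_append (x y : List A) (e : Option M.Q) : phi M (x ++ y) e = phi M y (phi M x e) := by
  induction x generalizing e with
  | nil => rfl
  | cons a x ih => exact ih _

theorem lam_append (x y : List A) (e p : Option M.Q) :
    lam strict M (x ++ y) e p = lam strict M y (phi M x e) (lam strict M x e p) := by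
  induction x generalizing e p with
  | nil => rfl
  | cons a x ih => exact ih _ _

theorem rho_append (x y : List A) (e p : Option M.Q) :
    rho strict M (x ++ y) e p = rho strict M x e (rho strict M y (phi M x e) p) := by
  induction x generalizing e p with
  | nil => rfl
  | cons a x ih =>
    show lt strict M false a e (rho strict M (x ++ y) (nx M a e) p) = _
    rw [ih]
    rfl

/-! ### Contents of the tape -/

/-- The cells `a + 1, ..., a + |x|` hold the letters of `x`. -/
def Raw (M : LimAut A) : List A → (ℕ → Sym M.W) → ℕ → Prop
  | [], _, _ => True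
  | α :: x, τ, a => τ (a + 1) = .sym (M.inp α) ∧ Raw M x τ (a + 1)

/-- The cells `a + 1, ..., a + |x|` hold what is written in the first pass over `x` that starts
in the state `e`. -/
def Ann (M : LimAut A) : List A → Option M.Q → (ℕ → Sym M.W) → ℕ → Prop
  | [], _, _, _ => True
  | α :: x, e, τ, a => ∃ p q b, e = some p ∧ ft M p α = some (q, b) ∧ τ (a + 1) = .sym b ∧
      Ann M x (some q) τ (a + 1)

/-- The cells `a + 1, ..., b` are not visited. -/
def Unseen (S : Set ℕ) (a b : ℕ) : Prop := ∀ j, a < j → j ≤ b → j ∉ S

/-- The cells `a + 1, ..., b` are visited. -/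
def Seen (S : Set ℕ) (a b : ℕ) : Prop := ∀ j, a < j → j ≤ b → j ∈ S

theorem Raw.congr {x : List A} {τ τ' : ℕ → Sym M.W} {a : ℕ} (h : Raw M x τ a)
    (he : ∀ j, a < j → j ≤ a + x.length → τ' j = τ j) : Raw M x τ' a := by
  induction x generalizing a with
  | nil => trivial
  | cons α x ih =>
    refine ⟨?_, ih h.2 ?_⟩
    · rw [he (a + 1) (by omega) (by simp)]
      exact h.1
    · intro j h1 h2
      apply he j (by omega)
      simp only [List.length_cons]
      omega

theorem Ann.congr {x : List A} {e : Option M.Q} {τ τ' : ℕ → Sym M.W} {a : ℕ}
    (h : Ann M x e τ a) (he : ∀ j, a < j → j ≤ a + x.length → τ' j = τ j) : Ann M x e τ' a := by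
  induction x generalizing a e with
  | nil => trivial
  | cons α x ih =>
    obtain ⟨p, q, b, h1, h2, h3, h4⟩ := h
    refine ⟨p, q, b, h1, h2, ?_, ih h4 ?_⟩
    · rw [he (a + 1) (by omega) (by simp)]
      exact h3
    · intro j h5 h6
      apply he j (by omega)
      simp only [List.length_cons]
      omega

theorem Ann_append {x y : List A} {e : Option M.Q} {τ : ℕ → Sym M.W} {a : ℕ} :
    Ann M (x ++ y) e τ a ↔ Ann M x e τ a ∧ Ann M y (phi M x e) τ (a + x.length) := by
  induction x generalizing a e with
  | nil => simp [Ann, phi]
  | cons α x ih =>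
    have key : ∀ (p q : M.Q) (b : M.W), e = some p → ft M p α = some (q, b) →
        nx M α e = some q := by
      rintro p q b rfl h
      simp [nx, h]
    have e1 : a + (α :: x).length = a + 1 + x.length := by
      simp only [List.length_cons]
      omega
    rw [e1]
    simp only [List.cons_append, Ann]
    constructor
    · rintro ⟨p, q, b, h1, h2, h3, h4⟩
      have h5 := ih.1 h4
      refine ⟨⟨p, q, b, h1, h2, h3, h5.1⟩, ?_⟩
      show Ann M y (phi M x (nx M α e)) τ _
      rw [key p q b h1 h2]
      exact h5.2
    · rintro ⟨⟨p, q, b, h1, h2, h3, h4⟩, h5⟩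
      refine ⟨p, q, b, h1, h2, h3, ih.2 ⟨h4, ?_⟩⟩
      have h6 : Ann M y (phi M x (nx M α e)) τ (a + 1 + x.length) := h5
      rw [key p q b h1 h2] at h6
      exact h6

/-! ### Straight passes exist -/

/-- Everything outside `a + 1, ..., b` is the same. -/
def Outside (c d : Cfg M) (a b : ℕ) : Prop :=
  ∀ j, (j ≤ a ∨ b < j) → d.tape j = c.tape j ∧ (j ∈ d.seen ↔ j ∈ c.seen)

theorem pass1 (hd : M.Deterministic) {n : ℕ} (x : List A) : ∀ (a : ℕ) (c : Cfg M) (q : M.Q),
    c.pos = a + 1 → Raw M x c.tape a → Unseen c.seen a (a + x.length) → a + x.length ≤ n →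
    phi M x (some c.state) = some q →
    ∃ d : Cfg M, ReflTransGen (Step strict n) c d ∧ d.state = q ∧ d.pos = a + x.length + 1 ∧
      Ann M x (some c.state) d.tape a ∧ Seen d.seen a (a + x.length) ∧
      Outside c d a (a + x.length) := by
  classical
  induction x with
  | nil =>
    intro a c q h1 h2 h3 h4 h5
    refine ⟨c, ReflTransGen.refl, ?_, ?_, trivial, ?_, ?_⟩
    · simpa [phi] using h5
    · simpa using h1
    · intro j h6 h7
      simp at h7
      omega
    · intro j _
      exact ⟨rfl, Iff.rfl⟩
  | cons α x ih =>
    intro a c q h1 h2 h3 h4 h5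
    simp only [List.length_cons] at h3 h4
    have h6 : phi M x (nx M α (some c.state)) = some q := h5
    have hnx : ∃ p b, ft M c.state α = some (p, b) := by
      rcases hft : ft M c.state α with _ | ⟨p, b⟩
      · exfalso
        have h7 : nx M α (some c.state) = none := by simp [nx, hft]
        rw [h7] at h6
        have h8 : ∀ y : List A, phi M y none = none := by
          intro y
          induction y with
          | nil => rfl
          | cons _ y ih2 => exact ih2
        rw [h8] at h6
        cases h6
      · exact ⟨p, b, rfl⟩
    obtain ⟨p, b, hft⟩ := hnx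
    have h7 : nx M α (some c.state) = some p := by simp [nx, hft]
    rw [h7] at h6
    have hns : c.pos ∉ c.seen := by
      rw [h1]
      exact h3 (a + 1) (by omega) (by omega)
    have htp : c.tape c.pos = .sym (M.inp α) := by
      rw [h1]
      exact h2.1
    set c1 : Cfg M := nxt c p b true with hc1
    have hpos1 : c1.pos = a + 1 + 1 := by
      rw [hc1]
      simp [nxt, h1]
    have htape1 : c1.tape = Function.update c.tape (a + 1) (.sym b) := by
      rw [hc1]
      unfold nxt
      dsimp only
      rw [if_neg hns, htp, h1]
      rfl
    have hseen1 : c1.seen = insert (a + 1) c.seen := by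
      rw [hc1]
      unfold nxt
      dsimp only
      rw [h1]
    have hstate1 : c1.state = p := rfl
    have hstep : Step strict n c c1 := by
      rw [step_iff]
      refine ⟨by omega, p, b, true, ?_, ?_, by simp, rfl⟩
      · rw [htp]
        exact (ft_eq hd).1 hft
      · intro _ h
        exact absurd h hns
    obtain ⟨d, hd1, hd2, hd3, hd4, hd5, hd6⟩ := ih (a + 1) c1 q hpos1
      (h2.2.congr (by
        intro j hj1 hj2
        rw [htape1, Function.update_of_ne (by omega)]))
      (by
        intro j hj1 hj2
        rw [hseen1, Set.mem_insert_iff]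
        rintro (h | h)
        · omega
        · exact h3 j (by omega) (by omega) h)
      (by omega) (by rw [hstate1]; exact h6)
    have hout := hd6 (a + 1) (Or.inl le_rfl)
    refine ⟨d, ReflTransGen.head hstep hd1, hd2, ?_, ?_, ?_, ?_⟩
    · rw [hd3]
      simp only [List.length_cons]
      omega
    · refine ⟨c.state, p, b, rfl, hft, ?_, hd4⟩
      rw [hout.1, htape1, Function.update_self]
    · intro j hj1 hj2
      simp only [List.length_cons] at hj2
      by_cases hj : j = a + 1
      · rw [hj, hout.2, hseen1]
        exact Set.mem_insert _ _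
      · exact hd5 j (by omega) (by omega)
    · intro j hj
      simp only [List.length_cons] at hj
      have h8 := hd6 j (by omega)
      rw [h8.1, h8.2, htape1, hseen1, Function.update_of_ne (by omega), Set.mem_insert_iff]
      refine ⟨rfl, ?_⟩
      constructor
      · rintro (h | h)
        · omega
        · exact h
      · exact Or.inr

/-- The configuration with a new state and a new position. -/
def Cfg.mvTo (c : Cfg M) (q : M.Q) (p : ℕ) : Cfg M := ⟨q, p, c.tape, c.seen⟩

theorem nxt_seen {c : Cfg M} (h : c.pos ∈ c.seen) (q : M.Q) (b : M.W) (d : Bool) :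
    nxt c q b d = Cfg.mvTo c q (if d then c.pos + 1 else c.pos - 1) := by
  unfold nxt Cfg.mvTo
  rw [if_pos h, Set.insert_eq_of_mem h]

theorem lt_some {d : Bool} {a : A} {e : Option M.Q} {p : Option M.Q} {q : M.Q}
    (h : lt strict M d a e p = some q) : ∃ p0 r b r', e = some p0 ∧ ft M p0 a = some (r, b) ∧
      p = some r' ∧ mv strict M d r' b = some q := by
  unfold lt at h
  rcases e with _ | p0
  · simp at h
  · rcases hft : ft M p0 a with _ | ⟨r, b⟩
    · simp [hft] at h
    · rcases p with _ | r'
      · simp at h
      · refine ⟨p0, r, b, r', rfl, hft, rfl, ?_⟩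
        simpa [hft] using h

theorem lam_none {x : List A} (hx : x ≠ []) (e : Option M.Q) : lam strict M x e none = none := by
  induction x generalizing e with
  | nil => exact absurd rfl hx
  | cons a x ih =>
    have h1 : lt strict M true a e none = none := by
      rcases h : lt strict M true a e none with _ | q
      · rfl
      · obtain ⟨_, _, _, _, _, _, h2, _⟩ := lt_some h
        cases h2
    show lam strict M x (nx M a e) (lt strict M true a e none) = none
    rw [h1]
    by_cases hx' : x = []
    · subst hx'
      rfl
    · exact ih hx' _

theorem passR (hd : M.Deterministic) {n : ℕ} (x : List A) : ∀ (a : ℕ) (c : Cfg M) (q : M.Q)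
    (e : Option M.Q), c.pos = a + 1 → Ann M x e c.tape a → Seen c.seen a (a + x.length) →
    a + x.length ≤ n → lam strict M x e (some c.state) = some q →
    ReflTransGen (Step strict n) c (Cfg.mvTo c q (a + x.length + 1)) := by
  induction x with
  | nil =>
    intro a c q e h1 _ _ _ h5
    have h6 : c.state = q := by simpa [lam] using h5
    have : Cfg.mvTo c q (a + ([] : List A).length + 1) = c := by
      unfold Cfg.mvTo
      simp only [List.length_nil, add_zero]
      rw [← h1, ← h6]
    rw [this]
  | cons α x ih =>
    intro a c q e h1 h2 h3 h4 h5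
    simp only [List.length_cons] at h3 h4
    obtain ⟨p, r, b, he, hft, htp, hann⟩ := h2
    have h6 : lam strict M x (nx M α e) (lt strict M true α e (some c.state)) = some q := h5
    have hnx : nx M α e = some r := by simp [nx, he, hft]
    rw [hnx] at h6
    have hlt : ∃ s, lt strict M true α e (some c.state) = some s := by
      rcases h : lt strict M true α e (some c.state) with _ | s
      · rw [h] at h6
        by_cases hx : x = []
        · subst hx
          cases h6
        · rw [lam_none hx] at h6
          cases h6
      · exact ⟨s, rfl⟩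
    obtain ⟨s, hs⟩ := hlt
    rw [hs] at h6
    obtain ⟨p0, r0, b0, r', h7, h8, h9, h10⟩ := lt_some hs
    rw [he] at h7
    cases h7
    rw [hft] at h8
    cases h8
    cases h9
    rw [mv_eq hd] at h10
    obtain ⟨b1, h11, h12⟩ := h10
    have hsn : c.pos ∈ c.seen := by
      rw [h1]
      exact h3 (a + 1) (by omega) (by omega)
    have hstep : Step strict n c (nxt c s b1 true) := by
      rw [step_iff]
      refine ⟨by omega, s, b1, true, ?_, ?_, by simp, rfl⟩
      · rw [h1, htp]
        exact h11
      · intro hst _
        rw [h1, htp]
        exact h12 hst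
    rw [nxt_seen hsn] at hstep
    have h13 := ih (a + 1) (Cfg.mvTo c s (if true = true then c.pos + 1 else c.pos - 1)) q (some r)
      (by simp [Cfg.mvTo, h1]) hann (fun j hj1 hj2 => h3 j (by omega) (by omega)) (by omega) h6
    refine ReflTransGen.head hstep ?_
    have e1 : a + (α :: x).length + 1 = a + 1 + x.length + 1 := by
      simp only [List.length_cons]
      omega
    rw [e1]
    exact h13

theorem rho_some {x : List A} {e p : Option M.Q} {q : M.Q} (h : rho strict M x e p = some q) :
    ∃ r, p = some r := by
  induction x generalizing e q with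
  | nil => exact ⟨q, h⟩
  | cons a x ih =>
    obtain ⟨_, _, _, r', _, _, h1, _⟩ := lt_some h
    exact ih h1

theorem passL (hd : M.Deterministic) {n : ℕ} (x : List A) : ∀ (a : ℕ) (c : Cfg M) (q : M.Q)
    (e : Option M.Q), c.pos = a + x.length → Ann M x e c.tape a →
    Seen c.seen a (a + x.length) → a + x.length ≤ n → rho strict M x e (some c.state) = some q →
    ReflTransGen (Step strict n) c (Cfg.mvTo c q a) := by
  induction x using List.reverseRecOn with
  | nil =>
    intro a c q e h1 _ _ _ h5
    have h6 : c.state = q := by simpa [rho] using h5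
    have : Cfg.mvTo c q a = c := by
      unfold Cfg.mvTo
      simp only [List.length_nil, add_zero] at h1
      rw [← h1, ← h6]
    rw [this]
  | append_singleton x α ih =>
    intro a c q e h1 h2 h3 h4 h5
    simp only [List.length_append, List.length_singleton] at h1 h3 h4
    rw [Ann_append] at h2
    obtain ⟨h2, p, r, b, he, hft, htp, _⟩ := h2
    rw [rho_append] at h5
    obtain ⟨s, hs⟩ := rho_some h5
    rw [hs] at h5
    have hs' : lt strict M false α (phi M x e) (some c.state) = some s := hs
    obtain ⟨p0, r0, b0, r', h7, h8, h9, h10⟩ := lt_some hs'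
    rw [he] at h7
    cases h7
    rw [hft] at h8
    cases h8
    cases h9
    rw [mv_eq hd] at h10
    obtain ⟨b1, h11, h12⟩ := h10
    have hpos : c.pos = a + x.length + 1 := by omega
    have hsn : c.pos ∈ c.seen := by
      rw [hpos]
      exact h3 _ (by omega) (by omega)
    have hstep : Step strict n c (nxt c s b1 false) := by
      rw [step_iff]
      refine ⟨by omega, s, b1, false, ?_, ?_, fun _ => by omega, rfl⟩
      · rw [hpos, htp]
        exact h11
      · intro hst _
        rw [hpos, htp]
        exact h12 hst
    rw [nxt_seen hsn] at hstep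
    have h13 := ih a (Cfg.mvTo c s (if false = true then c.pos + 1 else c.pos - 1)) q e
      (by simp [Cfg.mvTo, hpos]) h2 (fun j hj1 hj2 => h3 j (by omega) (by omega)) (by omega) h5
    exact ReflTransGen.head hstep h13

/-! ### Forced passes -/

/-- `k` steps. -/
def Run {α : Type} (r : α → α → Prop) : ℕ → α → α → Prop
  | 0, a, b => a = b
  | k + 1, a, c => ∃ b, r a b ∧ Run r k b c

theorem Run.of_rtg {α : Type} {r : α → α → Prop} {a b : α} (h : ReflTransGen r a b) :
    ∃ k, Run r k a b := by
  induction h using ReflTransGen.head_induction_on with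
  | refl => exact ⟨0, rfl⟩
  | head h1 _ ih =>
    obtain ⟨k, hk⟩ := ih
    exact ⟨k + 1, _, h1, hk⟩

/-- The configuration `c` is reachable and the last move came from the cell `p`. -/
def From (strict : Prop) (M : LimAut A) (w : List A) (c : Cfg M) (p : ℕ) : Prop :=
  ∃ c0 : Cfg M, ReflTransGen (Step strict w.length) (init M w) c0 ∧ Step strict w.length c0 c ∧
    c0.pos = p

theorem From.reach {w : List A} {c : Cfg M} {p : ℕ} (h : From strict M w c p) :
    ReflTransGen (Step strict w.length) (init M w) c := by
  obtain ⟨c0, h1, h2, _⟩ := h
  exact h1.tail h2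

theorem From.noturn {w : List A} {c c' : Cfg M} {p : ℕ} (h : From strict M w c p)
    (hs : Step strict w.length c c') (hno : ¬ TurnsAt strict M w c.pos) : c'.pos ≠ p := by
  intro hp
  obtain ⟨c0, h1, h2, h3⟩ := h
  exact hno ⟨c0, c, c', h1, h2, hs, rfl, by rw [hp, h3]⟩

theorem force1 (hd : M.Deterministic) {w : List A} {f : Cfg M} (hf : f.pos = w.length + 2)
    (x : List A) : ∀ (a k : ℕ) (c : Cfg M), c.pos = a + 1 → From strict M w c a →
    Raw M x c.tape a → Unseen c.seen a (a + x.length) → a + x.length ≤ w.length →
    (∀ j, a < j → j ≤ a + x.length → ¬ TurnsAt strict M w j) →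
    Run (Step strict w.length) k c f →
    ∃ (d : Cfg M) (q : M.Q) (l : ℕ), phi M x (some c.state) = some q ∧ d.state = q ∧
      d.pos = a + x.length + 1 ∧ From strict M w d (a + x.length) ∧
      Ann M x (some c.state) d.tape a ∧ Seen d.seen a (a + x.length) ∧
      Outside c d a (a + x.length) ∧ Run (Step strict w.length) l d f ∧ l ≤ k := by
  classical
  induction x with
  | nil =>
    intro a k c h1 h2 _ _ _ _ h7
    refine ⟨c, c.state, k, rfl, rfl, by simpa using h1, by simpa using h2, trivial, ?_, ?_, h7,
      le_rfl⟩
    · intro j h8 h9
      simp at h9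
      omega
    · intro j _
      exact ⟨rfl, Iff.rfl⟩
  | cons α x ih =>
    intro a k c h1 h2 h3 h4 h5 h6 h7
    simp only [List.length_cons] at h4 h5 h6
    have hns : c.pos ∉ c.seen := by
      rw [h1]
      exact h4 (a + 1) (by omega) (by omega)
    have htp : c.tape c.pos = .sym (M.inp α) := by
      rw [h1]
      exact h3.1
    rcases k with _ | k
    · have h8 : c = f := h7
      rw [← h8, h1] at hf
      omega
    · obtain ⟨c1, h8, h9⟩ := h7
      have hne := h2.noturn h8 (by
        rw [h1]
        exact h6 _ (by omega) (by omega))
      have h8' := h8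
      rw [step_iff] at h8
      obtain ⟨_, p, b, dd, h10, _, h12, h13⟩ := h8
      have hdd : dd = true := by
        cases dd
        · exfalso
          apply hne
          rw [h13]
          simp [nxt, h1]
        · rfl
      subst hdd
      rw [htp] at h10
      have hft := (ft_eq hd).2 h10
      have hpos1 : c1.pos = a + 1 + 1 := by
        rw [h13]
        simp [nxt, h1]
      have htape1 : c1.tape = Function.update c.tape (a + 1) (.sym b) := by
        rw [h13]
        unfold nxt
        dsimp only
        rw [if_neg hns, htp, h1]
        rfl
      have hseen1 : c1.seen = insert (a + 1) c.seen := by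
        rw [h13]
        unfold nxt
        dsimp only
        rw [h1]
      have hstate1 : c1.state = p := by rw [h13]; rfl
      obtain ⟨d, q, l, k1, k2, k3, k4, k5, k6, k7, k8, k9⟩ := ih (a + 1) k c1 hpos1
        ⟨c, h2.reach, h8', h1⟩
        (h3.2.congr (by
          intro j hj1 hj2
          rw [htape1, Function.update_of_ne (by omega)]))
        (by
          intro j hj1 hj2
          rw [hseen1, Set.mem_insert_iff]
          rintro (h | h)
          · omega
          · exact h4 j (by omega) (by omega) h)
        (by omega) (fun j hj1 hj2 => h6 j (by omega) (by omega)) h9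
      have hout := k7 (a + 1) (Or.inl le_rfl)
      have e1 : a + (α :: x).length = a + 1 + x.length := by
        simp only [List.length_cons]
        omega
      rw [e1]
      refine ⟨d, q, l, ?_, k2, k3, k4, ?_, ?_, ?_, k8, by omega⟩
      · show phi M x (nx M α (some c.state)) = some q
        have : nx M α (some c.state) = some p := by simp [nx, hft]
        rw [this, ← hstate1]
        exact k1
      · refine ⟨c.state, p, b, rfl, hft, ?_, ?_⟩
        · rw [hout.1, htape1, Function.update_self]
        · rw [← hstate1]
          exact k5
      · intro j hj1 hj2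
        by_cases hj : j = a + 1
        · rw [hj, hout.2, hseen1]
          exact Set.mem_insert _ _
        · exact k6 j (by omega) (by omega)
      · intro j hj
        have h14 := k7 j (by omega)
        rw [h14.1, h14.2, htape1, hseen1, Function.update_of_ne (by omega), Set.mem_insert_iff]
        refine ⟨rfl, ?_⟩
        constructor
        · rintro (h | h)
          · omega
          · exact h
        · exact Or.inr

theorem forceR (hd : M.Deterministic) {w : List A} {f : Cfg M} (hf : f.pos = w.length + 2)
    (x : List A) : ∀ (a k : ℕ) (c : Cfg M) (e : Option M.Q), c.pos = a + 1 →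
    From strict M w c a → Ann M x e c.tape a → Seen c.seen a (a + x.length) →
    a + x.length ≤ w.length → (∀ j, a < j → j ≤ a + x.length → ¬ TurnsAt strict M w j) →
    Run (Step strict w.length) k c f →
    ∃ (q : M.Q) (l : ℕ), lam strict M x e (some c.state) = some q ∧
      From strict M w (Cfg.mvTo c q (a + x.length + 1)) (a + x.length) ∧
      Run (Step strict w.length) l (Cfg.mvTo c q (a + x.length + 1)) f ∧ l ≤ k := by
  induction x with
  | nil =>
    intro a k c e h1 h2 _ _ _ _ h7
    have h8 : Cfg.mvTo c c.state (a + ([] : List A).length + 1) = c := by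
      unfold Cfg.mvTo
      simp only [List.length_nil, add_zero]
      rw [← h1]
    refine ⟨c.state, k, rfl, ?_, ?_, le_rfl⟩
    · rw [h8]
      simpa using h2
    · rw [h8]
      exact h7
  | cons α x ih =>
    intro a k c e h1 h2 h3 h4 h5 h6 h7
    simp only [List.length_cons] at h4 h5 h6
    obtain ⟨p, r, b, he, hft, htp, hann⟩ := h3
    have hsn : c.pos ∈ c.seen := by
      rw [h1]
      exact h4 (a + 1) (by omega) (by omega)
    rcases k with _ | k
    · have h8 : c = f := h7
      rw [← h8, h1] at hf
      omega
    · obtain ⟨c1, h8, h9⟩ := h7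
      have hne := h2.noturn h8 (by
        rw [h1]
        exact h6 _ (by omega) (by omega))
      have h8' := h8
      rw [step_iff] at h8
      obtain ⟨_, s, b1, dd, h10, h11, h12, h13⟩ := h8
      have hdd : dd = true := by
        cases dd
        · exfalso
          apply hne
          rw [h13]
          simp [nxt, h1]
        · rfl
      subst hdd
      rw [h1, htp] at h10 h11
      have hmv : mv strict M true c.state b = some s := by
        rw [mv_eq hd]
        exact ⟨b1, h10, fun hst => h11 hst (by rw [← h1]; exact hsn)⟩
      rw [nxt_seen hsn] at h13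
      have hlt : lt strict M true α e (some c.state) = some s := by
        simp [lt, he, hft, hmv]
      have hnx : nx M α e = some r := by simp [nx, he, hft]
      obtain ⟨q, l, k1, k2, k3, k4⟩ := ih (a + 1) k c1 (some r) (by rw [h13]; simp [Cfg.mvTo, h1])
        ⟨c, h2.reach, h8', h1⟩ (by rw [h13]; exact hann)
        (by rw [h13]; exact fun j hj1 hj2 => h4 j (by omega) (by omega)) (by omega)
        (fun j hj1 hj2 => h6 j (by omega) (by omega)) h9
      have e1 : a + (α :: x).length = a + 1 + x.length := by
        simp only [List.length_cons]
        omega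
      have e2 : Cfg.mvTo c1 q (a + 1 + x.length + 1) = Cfg.mvTo c q (a + 1 + x.length + 1) := by
        rw [h13]
        rfl
      have e3 : c1.state = s := by rw [h13]; rfl
      rw [e2] at k2 k3
      rw [e1]
      refine ⟨q, l, ?_, k2, k3, by omega⟩
      show lam strict M x (nx M α e) (lt strict M true α e (some c.state)) = some q
      rw [hnx, hlt, ← e3]
      exact k1

theorem forceL (hd : M.Deterministic) {w : List A} {f : Cfg M} (hf : f.pos = w.length + 2)
    (x : List A) : ∀ (a k : ℕ) (c : Cfg M) (e : Option M.Q), c.pos = a + x.length →
    From strict M w c (a + x.length + 1) → Ann M x e c.tape a → Seen c.seen a (a + x.length) →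
    a + x.length ≤ w.length → (∀ j, a < j → j ≤ a + x.length → ¬ TurnsAt strict M w j) →
    Run (Step strict w.length) k c f →
    ∃ (q : M.Q) (l : ℕ), rho strict M x e (some c.state) = some q ∧
      From strict M w (Cfg.mvTo c q a) (a + 1) ∧
      Run (Step strict w.length) l (Cfg.mvTo c q a) f ∧ l ≤ k := by
  induction x using List.reverseRecOn with
  | nil =>
    intro a k c e h1 h2 _ _ _ _ h7
    simp only [List.length_nil, add_zero] at h1 h2
    have h8 : Cfg.mvTo c c.state a = c := by
      unfold Cfg.mvTo
      rw [← h1]
    refine ⟨c.state, k, rfl, ?_, ?_, le_rfl⟩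
    · rw [h8]
      exact h2
    · rw [h8]
      exact h7
  | append_singleton x α ih =>
    intro a k c e h1 h2 h3 h4 h5 h6 h7
    simp only [List.length_append, List.length_singleton] at h1 h2 h4 h5 h6
    rw [Ann_append] at h3
    obtain ⟨h3, p, r, b, he, hft, htp, _⟩ := h3
    have hpos : c.pos = a + x.length + 1 := by omega
    have hsn : c.pos ∈ c.seen := by
      rw [hpos]
      exact h4 _ (by omega) (by omega)
    rcases k with _ | k
    · have h8 : c = f := h7
      rw [← h8, h1] at hf
      omega
    · obtain ⟨c1, h8, h9⟩ := h7
      have hne := h2.noturn h8 (by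
        rw [hpos]
        exact h6 _ (by omega) (by omega))
      have h8' := h8
      rw [step_iff] at h8
      obtain ⟨_, s, b1, dd, h10, h11, h12, h13⟩ := h8
      have hdd : dd = false := by
        cases dd
        · rfl
        · exfalso
          apply hne
          rw [h13]
          simp [nxt]
          omega
      subst hdd
      rw [hpos, htp] at h10 h11
      have hmv : mv strict M false c.state b = some s := by
        rw [mv_eq hd]
        exact ⟨b1, h10, fun hst => h11 hst (by rw [← hpos]; exact hsn)⟩
      rw [nxt_seen hsn] at h13
      have hlt : lt strict M false α (phi M x e) (some c.state) = some s := by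
        simp [lt, he, hft, hmv]
      obtain ⟨q, l, k1, k2, k3, k4⟩ := ih a k c1 e (by rw [h13]; simp [Cfg.mvTo, hpos])
        ⟨c, h2.reach, h8', hpos⟩ (by rw [h13]; exact h3)
        (by rw [h13]; exact fun j hj1 hj2 => h4 j (by omega) (by omega)) (by omega)
        (fun j hj1 hj2 => h6 j (by omega) (by omega)) h9
      have e2 : Cfg.mvTo c1 q a = Cfg.mvTo c q a := by
        rw [h13]
        rfl
      have e3 : c1.state = s := by rw [h13]; rfl
      rw [e2] at k2 k3
      refine ⟨q, l, ?_, k2, k3, by omega⟩
      rw [rho_append]
      show rho strict M x e (lt strict M false α (phi M x e) (some c.state)) = some q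
      rw [hlt, ← e3]
      exact k1

end Pool.Agent.N602.FT
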