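import Mathlib
import Pool.Agent.N602.FT.Straight

set_option autoImplicit false

/-!
The replacement lemma: a factor of the input in which the head does not turn can be replaced by
every word with the same straight passes.
-/

namespace Pool.Agent.N602.FT

open Relation
open Pool.Agent.H630R2.LA

variable {A : Type} {strict : Prop} {M : LimAut A}

theorem nxt_out {c : Cfg M} (q : M.Q) (b : M.W) (d : Bool) {i : ℕ} (h : i ≠ c.pos) :
    (nxt c q b d).tape i = c.tape i ∧ (i ∈ (nxt c q b d).seen ↔ i ∈ c.seen) := by
  classical
  unfold nxt
  dsimp only
  constructor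
  · by_cases h1 : c.pos ∈ c.seen
    · rw [if_pos h1]
    · rw [if_neg h1, Function.update_of_ne h]
  · rw [Set.mem_insert_iff]
    constructor
    · rintro (h2 | h2)
      · exact absurd h2 h
      · exact h2
    · exact Or.inr

theorem nxt_agree {c c' : Cfg M} (hp : c'.tape c'.pos = c.tape c.pos)
    (hs : c'.pos ∈ c'.seen ↔ c.pos ∈ c.seen) {i i' : ℕ} (h : i' = c'.pos ↔ i = c.pos)
    (ht : c'.tape i' = c.tape i) (hi : i' ∈ c'.seen ↔ i ∈ c.seen) (q : M.Q) (b : M.W)
    (d : Bool) : (nxt c' q b d).tape i' = (nxt c q b d).tape i ∧
      (i' ∈ (nxt c' q b d).seen ↔ i ∈ (nxt c q b d).seen) := by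
  classical
  by_cases h1 : i = c.pos
  · have h2 := h.2 h1
    subst h2
    subst h1
    unfold nxt
    dsimp only
    constructor
    · by_cases h3 : c.pos ∈ c.seen
      · rw [if_pos h3, if_pos (hs.2 h3)]
        exact hp
      · rw [if_neg h3, if_neg (fun h4 => h3 (hs.1 h4)), Function.update_self,
          Function.update_self, hp]
    · simp
  · have h2 : i' ≠ c'.pos := fun h3 => h1 (h.1 h3)
    obtain ⟨h3, h4⟩ := nxt_out q b d h1
    obtain ⟨h5, h6⟩ := nxt_out q b d h2
    rw [h3, h4, h5, h6]
    exact ⟨ht, hi⟩

theorem raw_init (X : List A) : ∀ (U V : List A),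
    Raw M X (initTape M (U ++ (X ++ V))) U.length := by
  induction X with
  | nil => intro U V; trivial
  | cons α x ih =>
    intro U V
    constructor
    · show (match (U ++ (α :: x ++ V))[U.length]? with
        | some a => Sym.sym (M.inp a)
        | none => Sym.rm) = _
      rw [List.getElem?_append_right (le_refl _)]
      simp
    · have h := ih (U ++ [α]) V
      have e1 : (U ++ [α]) ++ (x ++ V) = U ++ (α :: x ++ V) := by simp
      rw [e1] at h
      have e2 : (U ++ [α]).length = U.length + 1 := by simp
      rw [e2] at h
      exact h

theorem init_lo (U Y Z : List A) {j : ℕ} (hj : j ≤ U.length) :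
    initTape M (U ++ Y) j = initTape M (U ++ Z) j := by
  rcases j with _ | j
  · rfl
  · show (match (U ++ Y)[j]? with
        | some a => Sym.sym (M.inp a)
        | none => Sym.rm) = (match (U ++ Z)[j]? with
        | some a => Sym.sym (M.inp a)
        | none => Sym.rm)
    rw [List.getElem?_append_left (by omega), List.getElem?_append_left (by omega)]

theorem init_hi (U X V : List A) (i : ℕ) :
    initTape M (U ++ (X ++ V)) (U.length + X.length + (i + 1)) = initTape M V (i + 1) := by
  show (match (U ++ (X ++ V))[U.length + X.length + i]? with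
        | some a => Sym.sym (M.inp a)
        | none => Sym.rm) = (match V[i]? with
        | some a => Sym.sym (M.inp a)
        | none => Sym.rm)
  rw [List.getElem?_append_right (by omega), List.getElem?_append_right (by omega)]
  have : U.length + X.length + i - U.length - X.length = i := by omega
  rw [this]

/-- The two computations correspond to each other. -/
structure Rel (M : LimAut A) (X X' : List A) (a : ℕ) (c c' : Cfg M) : Prop where
  st : c'.state = c.state
  pos : (c.pos ≤ a ∧ c'.pos = c.pos) ∨
    ∃ i, c.pos = a + X.length + (i + 1) ∧ c'.pos = a + X'.length + (i + 1)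
  lo : ∀ j, j ≤ a → c'.tape j = c.tape j ∧ (j ∈ c'.seen ↔ j ∈ c.seen)
  hi : ∀ i, c'.tape (a + X'.length + (i + 1)) = c.tape (a + X.length + (i + 1)) ∧
    (a + X'.length + (i + 1) ∈ c'.seen ↔ a + X.length + (i + 1) ∈ c.seen)
  mid : (c.pos ≤ a ∧ Raw M X c.tape a ∧ Raw M X' c'.tape a ∧ Unseen c.seen a (a + X.length) ∧
      Unseen c'.seen a (a + X'.length)) ∨
    ∃ e, Ann M X e c.tape a ∧ Ann M X' e c'.tape a ∧ Seen c.seen a (a + X.length) ∧
      Seen c'.seen a (a + X'.length)

theorem rel_aux (hd : M.Deterministic) {U X X' V : List A}
    (hphi : phi M X = phi M X') (hlam : lam strict M X = lam strict M X')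
    (hrho : rho strict M X = rho strict M X')
    (hno : ∀ j, U.length < j → j ≤ U.length + X.length →
      ¬ TurnsAt strict M (U ++ (X ++ V)) j)
    {f : Cfg M} (hf : f.pos = (U ++ (X ++ V)).length + 2) : ∀ (k : ℕ) (c c' : Cfg M),
    ReflTransGen (Step strict (U ++ (X ++ V)).length) (init M (U ++ (X ++ V))) c →
    Rel M X X' U.length c c' → Run (Step strict (U ++ (X ++ V)).length) k c f →
    ∃ f' : Cfg M, ReflTransGen (Step strict (U ++ (X' ++ V)).length) c' f' ∧
      f'.pos = (U ++ (X' ++ V)).length + 2 ∧ f'.state = f.state := by
  classical
  set a := U.length with ha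
  set w := U ++ (X ++ V) with hw
  set w' := U ++ (X' ++ V) with hw'
  have hn : w.length = a + X.length + V.length := by
    rw [hw, ha]
    simp only [List.length_append]
    omega
  have hn' : w'.length = a + X'.length + V.length := by
    rw [hw', ha]
    simp only [List.length_append]
    omega
  intro k
  induction k using Nat.strong_induction_on with
  | _ k ih =>
    intro c c' hc hR hrun
    rcases k with _ | k
    · have h1 : c = f := hrun
      subst h1
      refine ⟨c', ReflTransGen.refl, ?_, hR.st⟩
      rcases hR.pos with ⟨h1, _⟩ | ⟨i, h1, h2⟩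
      · omega
      · omega
    · obtain ⟨c1, hs, hrun1⟩ := hrun
      have hc1 := hc.tail hs
      have hfrom : ∀ p, c.pos = p → From strict M w c1 p := fun p hp => ⟨c, hc, hs, hp⟩
      have hs2 := hs
      rw [step_iff] at hs2
      obtain ⟨hle, q, b, d, h1, h2, h3, h4⟩ := hs2
      rcases hR.pos with ⟨hp1, hp2⟩ | ⟨i0, hp1, hp2⟩
      · -- the head is in the left part
        have htp : c'.tape c'.pos = c.tape c.pos := by
          rw [hp2]
          exact (hR.lo _ hp1).1
        have hsn : c'.pos ∈ c'.seen ↔ c.pos ∈ c.seen := by
          rw [hp2]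
          exact (hR.lo _ hp1).2
        set c1' : Cfg M := nxt c' q b d with hc1'
        have hstep' : Step strict w'.length c' c1' := by
          rw [step_iff]
          refine ⟨by omega, q, b, d, ?_, ?_, ?_, rfl⟩
          · rw [hR.st, htp]
            exact h1
          · intro h5 h6
            rw [htp]
            exact h2 h5 (hsn.1 h6)
          · intro h5
            rw [hp2]
            exact h3 h5
        have hst1 : c1'.state = c1.state := by
          rw [h4]
          rfl
        have hlo1 : ∀ j, j ≤ a → c1'.tape j = c1.tape j ∧ (j ∈ c1'.seen ↔ j ∈ c1.seen) := by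
          intro j hj
          rw [h4]
          exact nxt_agree htp hsn (by rw [hp2]) (hR.lo j hj).1 (hR.lo j hj).2 q b d
        have hhi1 : ∀ i, c1'.tape (a + X'.length + (i + 1)) = c1.tape (a + X.length + (i + 1)) ∧
            (a + X'.length + (i + 1) ∈ c1'.seen ↔ a + X.length + (i + 1) ∈ c1.seen) := by
          intro i
          rw [h4]
          exact nxt_agree htp hsn (by omega) (hR.hi i).1 (hR.hi i).2 q b d
        have hmidt : ∀ j, a < j → c1.tape j = c.tape j ∧ (j ∈ c1.seen ↔ j ∈ c.seen) := by
          intro j hj
          rw [h4]
          exact nxt_out q b d (by omega)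
        have hmidt' : ∀ j, a < j → c1'.tape j = c'.tape j ∧ (j ∈ c1'.seen ↔ j ∈ c'.seen) := by
          intro j hj
          exact nxt_out q b d (by omega)
        have hpos1 : c1.pos = if d then c.pos + 1 else c.pos - 1 := by
          rw [h4]
          rfl
        have hpos1' : c1'.pos = if d then c.pos + 1 else c.pos - 1 := by
          rw [hc1', ← hp2]
          rfl
        by_cases hent : c1.pos ≤ a
        · -- stays in the left part
          have hR1 : Rel M X X' a c1 c1' := by
            refine ⟨hst1, Or.inl ⟨hent, by rw [hpos1, hpos1']⟩, hlo1, hhi1, ?_⟩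
            rcases hR.mid with ⟨_, m1, m2, m3, m4⟩ | ⟨e, m1, m2, m3, m4⟩
            · left
              refine ⟨hent, m1.congr fun j hj1 _ => (hmidt j hj1).1,
                m2.congr fun j hj1 _ => (hmidt' j hj1).1, ?_, ?_⟩
              · intro j hj1 hj2
                rw [(hmidt j hj1).2]
                exact m3 j hj1 hj2
              · intro j hj1 hj2
                rw [(hmidt' j hj1).2]
                exact m4 j hj1 hj2
            · right
              refine ⟨e, m1.congr fun j hj1 _ => (hmidt j hj1).1,
                m2.congr fun j hj1 _ => (hmidt' j hj1).1, ?_, ?_⟩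
              · intro j hj1 hj2
                rw [(hmidt j hj1).2]
                exact m3 j hj1 hj2
              · intro j hj1 hj2
                rw [(hmidt' j hj1).2]
                exact m4 j hj1 hj2
          obtain ⟨f', k1, k2, k3⟩ := ih k (Nat.lt_succ_self k) c1 c1' hc1 hR1 hrun1
          exact ⟨f', ReflTransGen.head hstep' k1, k2, k3⟩
        · -- enters the factor from the left
          have hd1 : d = true := by
            cases d
            · exfalso
              apply hent
              rw [hpos1]
              simp only [Bool.false_eq_true, if_false]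
              omega
            · rfl
          subst hd1
          simp only [if_true] at hpos1 hpos1'
          have hca : c.pos = a := by omega
          rcases hR.mid with ⟨_, m1, m2, m3, m4⟩ | ⟨e, m1, m2, m3, m4⟩
          · have r1 : Raw M X c1.tape a := m1.congr fun j hj1 _ => (hmidt j hj1).1
            have r2 : Raw M X' c1'.tape a := m2.congr fun j hj1 _ => (hmidt' j hj1).1
            have r3 : Unseen c1.seen a (a + X.length) := by
              intro j hj1 hj2
              rw [(hmidt j hj1).2]
              exact m3 j hj1 hj2
            have r4 : Unseen c1'.seen a (a + X'.length) := by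
              intro j hj1 hj2
              rw [(hmidt' j hj1).2]
              exact m4 j hj1 hj2
            obtain ⟨g, s, l, g1, g2, g3, g4, g5, g6, g7, g8, g9⟩ := force1 hd hf X a k c1
              (by omega) (hfrom a hca) r1 r3 (by omega) hno hrun1
            obtain ⟨g', t1, t2, t3, t4, t5, t6⟩ := pass1 (strict := strict) hd
              (n := w'.length) X' a c1' s
              (by omega) r2 r4 (by omega) (by rw [← hphi, hst1]; exact g1)
            have hR1 : Rel M X X' a g g' := by
              refine ⟨by rw [g2, t2], Or.inr ⟨0, by omega, by omega⟩, ?_, ?_, Or.inr ?_⟩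
              · intro j hj
                have u1 := g7 j (Or.inl hj)
                have u2 := t6 j (Or.inl hj)
                rw [u1.1, u1.2, u2.1, u2.2]
                exact hlo1 j hj
              · intro i
                have u1 := g7 (a + X.length + (i + 1)) (Or.inr (by omega))
                have u2 := t6 (a + X'.length + (i + 1)) (Or.inr (by omega))
                rw [u1.1, u1.2, u2.1, u2.2]
                exact hhi1 i
              · refine ⟨some c1.state, g5, ?_, g6, t5⟩
                rw [hst1] at t4
                exact t4
            obtain ⟨f', k1, k2, k3⟩ := ih l (by omega) g g' g4.reach hR1 g8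
            exact ⟨f', ReflTransGen.head hstep' (t1.trans k1), k2, k3⟩
          · have r1 : Ann M X e c1.tape a := m1.congr fun j hj1 _ => (hmidt j hj1).1
            have r2 : Ann M X' e c1'.tape a := m2.congr fun j hj1 _ => (hmidt' j hj1).1
            have r3 : Seen c1.seen a (a + X.length) := by
              intro j hj1 hj2
              rw [(hmidt j hj1).2]
              exact m3 j hj1 hj2
            have r4 : Seen c1'.seen a (a + X'.length) := by
              intro j hj1 hj2
              rw [(hmidt' j hj1).2]
              exact m4 j hj1 hj2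
            obtain ⟨s, l, g1, g2, g3, g4⟩ := forceR hd hf X a k c1 e (by omega)
              (hfrom a hca) r1 r3 (by omega) hno hrun1
            have t1 := passR (strict := strict) hd (n := w'.length) X' a c1' s e
              (by omega) r2 r4 (by omega) (by rw [← hlam, hst1]; exact g1)
            have hR1 : Rel M X X' a (Cfg.mvTo c1 s (a + X.length + 1))
                (Cfg.mvTo c1' s (a + X'.length + 1)) := by
              refine ⟨rfl, Or.inr ⟨0, rfl, rfl⟩, hlo1, hhi1, Or.inr ⟨e, r1, r2, r3, r4⟩⟩
            obtain ⟨f', k1, k2, k3⟩ := ih l (by omega) _ _ g2.reach hR1 g3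
            exact ⟨f', ReflTransGen.head hstep' (t1.trans k1), k2, k3⟩
      · -- the head is in the right part
        have htp : c'.tape c'.pos = c.tape c.pos := by
          rw [hp2, hp1]
          exact (hR.hi _).1
        have hsn : c'.pos ∈ c'.seen ↔ c.pos ∈ c.seen := by
          rw [hp2, hp1]
          exact (hR.hi _).2
        set c1' : Cfg M := nxt c' q b d with hc1'
        have hstep' : Step strict w'.length c' c1' := by
          rw [step_iff]
          refine ⟨by omega, q, b, d, ?_, ?_, ?_, rfl⟩
          · rw [hR.st, htp]
            exact h1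
          · intro h5 h6
            rw [htp]
            exact h2 h5 (hsn.1 h6)
          · intro _
            omega
        have hst1 : c1'.state = c1.state := by
          rw [h4]
          rfl
        have hlo1 : ∀ j, j ≤ a → c1'.tape j = c1.tape j ∧ (j ∈ c1'.seen ↔ j ∈ c1.seen) := by
          intro j hj
          rw [h4]
          exact nxt_agree htp hsn (by omega) (hR.lo j hj).1 (hR.lo j hj).2 q b d
        have hhi1 : ∀ i, c1'.tape (a + X'.length + (i + 1)) = c1.tape (a + X.length + (i + 1)) ∧
            (a + X'.length + (i + 1) ∈ c1'.seen ↔ a + X.length + (i + 1) ∈ c1.seen) := by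
          intro i
          rw [h4]
          exact nxt_agree htp hsn (by omega) (hR.hi i).1 (hR.hi i).2 q b d
        obtain ⟨e, m1, m2, m3, m4⟩ : ∃ e, Ann M X e c.tape a ∧ Ann M X' e c'.tape a ∧
            Seen c.seen a (a + X.length) ∧ Seen c'.seen a (a + X'.length) := by
          rcases hR.mid with ⟨m0, _⟩ | m
          · omega
          · exact m
        have r1 : Ann M X e c1.tape a := by
          refine m1.congr fun j hj1 hj2 => ?_
          rw [h4]
          exact (nxt_out q b d (by omega)).1
        have r2 : Ann M X' e c1'.tape a := by
          refine m2.congr fun j hj1 hj2 => ?_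
          exact (nxt_out q b d (by omega)).1
        have r3 : Seen c1.seen a (a + X.length) := by
          intro j hj1 hj2
          rw [h4, (nxt_out q b d (by omega)).2]
          exact m3 j hj1 hj2
        have r4 : Seen c1'.seen a (a + X'.length) := by
          intro j hj1 hj2
          rw [hc1', (nxt_out q b d (by omega)).2]
          exact m4 j hj1 hj2
        have hpos1 : c1.pos = if d then c.pos + 1 else c.pos - 1 := by
          rw [h4]
          rfl
        have hpos1' : c1'.pos = if d then c'.pos + 1 else c'.pos - 1 := rfl
        by_cases hent : a + X.length < c1.pos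
        · -- stays in the right part
          have hR1 : Rel M X X' a c1 c1' := by
            refine ⟨hst1, Or.inr ?_, hlo1, hhi1, Or.inr ⟨e, r1, r2, r3, r4⟩⟩
            cases d
            · simp only [Bool.false_eq_true, if_false] at hpos1 hpos1'
              exact ⟨i0 - 1, by omega, by omega⟩
            · simp only [if_true] at hpos1 hpos1'
              exact ⟨i0 + 1, by omega, by omega⟩
          obtain ⟨f', k1, k2, k3⟩ := ih k (Nat.lt_succ_self k) c1 c1' hc1 hR1 hrun1
          exact ⟨f', ReflTransGen.head hstep' k1, k2, k3⟩
        · -- enters the factor from the right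
          have hd1 : d = false := by
            cases d
            · rfl
            · exfalso
              simp only [if_true] at hpos1
              omega
          subst hd1
          simp only [Bool.false_eq_true, if_false] at hpos1 hpos1'
          obtain ⟨s, l, g1, g2, g3, g4⟩ := forceL hd hf X a k c1 e (by omega)
            (hfrom _ (by omega)) r1 r3 (by omega) hno hrun1
          have t1 := passL (strict := strict) hd (n := w'.length) X' a c1' s e
            (by omega) r2 r4 (by omega) (by rw [← hrho, hst1]; exact g1)
          have hR1 : Rel M X X' a (Cfg.mvTo c1 s a) (Cfg.mvTo c1' s a) := by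
            refine ⟨rfl, Or.inl ⟨le_rfl, rfl⟩, hlo1, hhi1, Or.inr ⟨e, r1, r2, r3, r4⟩⟩
          obtain ⟨f', k1, k2, k3⟩ := ih l (by omega) _ _ g2.reach hR1 g3
          exact ⟨f', ReflTransGen.head hstep' (t1.trans k1), k2, k3⟩

/-- The replacement lemma. -/
theorem replace (hd : M.Deterministic) {U X X' V : List A} (hU : U ≠ [])
    (hphi : phi M X = phi M X') (hlam : lam strict M X = lam strict M X')
    (hrho : rho strict M X = rho strict M X')
    (hno : ∀ j, U.length < j → j ≤ U.length + X.length →
      ¬ TurnsAt strict M (U ++ (X ++ V)) j)
    (hmem : U ++ (X ++ V) ∈ M.language strict) : U ++ (X' ++ V) ∈ M.language strict := by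
  obtain ⟨f, h1, h2, h3⟩ := hmem
  obtain ⟨k, hk⟩ := Run.of_rtg h1
  have hUl : 1 ≤ U.length := by
    rcases U with _ | ⟨u, U⟩
    · exact absurd rfl hU
    · simp
  have hR : Rel M X X' U.length (init M (U ++ (X ++ V))) (init M (U ++ (X' ++ V))) := by
    refine ⟨rfl, Or.inl ⟨hUl, rfl⟩, ?_, ?_, Or.inl ⟨hUl, raw_init X U V, raw_init X' U V, ?_, ?_⟩⟩
    · intro j hj
      exact ⟨init_lo U _ _ hj, Iff.rfl⟩
    · intro i
      refine ⟨?_, ?_⟩
      · show initTape M (U ++ (X' ++ V)) (U.length + X'.length + (i + 1)) =
          initTape M (U ++ (X ++ V)) (U.length + X.length + (i + 1))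
        rw [init_hi, init_hi]
      · show _ ∈ (∅ : Set ℕ) ↔ _ ∈ (∅ : Set ℕ)
        simp
    · intro j _ _ h
      exact h
    · intro j _ _ h
      exact h
  obtain ⟨f', k1, k2, k3⟩ := rel_aux hd hphi hlam hrho hno h2 k _ _ ReflTransGen.refl hR hk
  exact ⟨f', k1, k2, by rw [k3]; exact h3⟩

end Pool.Agent.N602.FT
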