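import Mathlib
import Pool.Agent.N602.FT.Replace
import Pool.Agent.N602.FT.Generic

set_option autoImplicit false

/-! Deterministic machines whose head turns at few cells. -/

namespace Pool.Agent.N602.FT

open Pool.Agent.H630R2.LA

variable {A : Type} {strict : Prop} {M : LimAut A}

/-- On the accepted inputs `w` the head of `M` turns at `o(|w|)` cells of the input. -/
def FewTurns (strict : Prop) (M : LimAut A) : Prop :=
  ∀ C : ℕ, ∃ n0 : ℕ, ∀ w ∈ M.language strict, n0 ≤ w.length →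
    C * Nat.card {i : ℕ // 1 ≤ i ∧ i ≤ w.length ∧ TurnsAt strict M w i} ≤ w.length

theorem act (strict : Prop) (M : LimAut A) : Act (phi M) (lam strict M) (rho strict M) where
  phi_nil _ := rfl
  phi_app := phi_append
  lam_nil _ _ := rfl
  lam_app := lam_append
  rho_nil _ _ := rfl
  rho_app := rho_append

theorem finite_turns (w : List A) :
    Finite {i : ℕ // 1 ≤ i ∧ i ≤ w.length ∧ TurnsAt strict M w i} := by
  have h : Function.Injective (fun i : {i : ℕ // 1 ≤ i ∧ i ≤ w.length ∧ TurnsAt strict M w i} =>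
      (⟨i.1, by have := i.2.2.1; omega⟩ : Fin (w.length + 1))) := by
    intro i j hij
    exact Subtype.ext (congrArg Fin.val hij)
  exact Finite.of_injective _ h

theorem repl_of_few (hd : M.Deterministic) (hfew : FewTurns strict M) {P : Set (List A)}
    (hP : ∀ x ∈ P, ∀ y ∈ P, x ++ y ∈ P) (hPL : P ⊆ M.language strict) (hPn : ∀ x ∈ P, x ≠ [])
    {Θ : List A} (hΘ : Θ ∈ P) {X' : List A} (hphi : phi M ((Θ ++ Θ) ++ (Θ ++ Θ)) = phi M X')
    (hlam : lam strict M ((Θ ++ Θ) ++ (Θ ++ Θ)) = lam strict M X')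
    (hrho : rho strict M ((Θ ++ Θ) ++ (Θ ++ Θ)) = rho strict M X') :
    ∃ i j, pw Θ (i + 1) ++ (X' ++ pw Θ (j + 1)) ∈ M.language strict := by
  classical
  have hl : 1 ≤ Θ.length := by
    rcases Θ with _ | ⟨a, Θ⟩
    · exact absurd rfl (hPn _ hΘ)
    · simp
  generalize hℓ : Θ.length = ℓ at hl
  obtain ⟨n0, hn0⟩ := hfew (8 * ℓ)
  set g := n0 + 1 with hg
  set W := pw Θ (4 * g + 2) with hW
  have hWlen : W.length = (4 * g + 2) * ℓ := by rw [hW, pw_length, hℓ]
  have hWL : W ∈ M.language strict := hPL (pw_mem hP hΘ (4 * g + 1))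
  have h1 : n0 ≤ W.length := by
    rw [hWlen]
    nlinarith
  have h2 := hn0 W hWL h1
  have h3 : ∃ i < g, ∀ j, (4 * i + 1) * ℓ < j → j ≤ (4 * i + 1) * ℓ + 4 * ℓ →
      ¬ TurnsAt strict M W j := by
    by_contra hno
    push Not at hno
    have hno' : ∀ i : Fin g, ∃ j, (4 * i.val + 1) * ℓ < j ∧ j ≤ (4 * i.val + 1) * ℓ + 4 * ℓ ∧
        TurnsAt strict M W j := by
      intro i
      obtain ⟨j, h4, h5, h6⟩ := hno i.val i.isLt
      exact ⟨j, h4, h5, h6⟩
    choose t ht1 ht2 ht3 using hno'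
    have hbd : ∀ i : Fin g, 1 ≤ t i ∧ t i ≤ W.length ∧ TurnsAt strict M W (t i) := by
      intro i
      have h4 := ht1 i
      have h5 := ht2 i
      have h6 := i.isLt
      refine ⟨by omega, ?_, ht3 i⟩
      rw [hWlen]
      nlinarith
    have hinj : Function.Injective (fun i : Fin g =>
        (⟨t i, hbd i⟩ : {i : ℕ // 1 ≤ i ∧ i ≤ W.length ∧ TurnsAt strict M W i})) := by
      intro i j hij
      have h4 : t i = t j := congrArg Subtype.val hij
      have hlt : ∀ i j : Fin g, t i = t j → ¬ i.val < j.val := by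
        intro i j h5 h6
        have h7 := ht2 i
        have h8 := ht1 j
        nlinarith
      have h5 := hlt i j h4
      have h6 := hlt j i h4.symm
      exact Fin.ext (by omega)
    have := finite_turns (strict := strict) (M := M) W
    have h4 := Nat.card_le_card_of_injective _ hinj
    rw [Nat.card_fin] at h4
    generalize Nat.card {i : ℕ // 1 ≤ i ∧ i ≤ W.length ∧ TurnsAt strict M W i} = K at h2 h4
    rw [hWlen] at h2
    have h5 : 8 * ℓ * g ≤ 8 * ℓ * K := Nat.mul_le_mul_left _ h4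
    have h6 : 8 * ℓ * g ≤ (4 * g + 2) * ℓ := h5.trans h2
    have h7 : ℓ * (8 * g) ≤ ℓ * (4 * g + 2) := by nlinarith
    have h8 := Nat.le_of_mul_le_mul_left h7 hl
    omega
  obtain ⟨i, hi, hno⟩ := h3
  refine ⟨4 * i, 4 * (g - 1 - i), ?_⟩
  have hU : (pw Θ (4 * i + 1)).length = (4 * i + 1) * ℓ := by rw [pw_length, hℓ]
  have hX : ((Θ ++ Θ) ++ (Θ ++ Θ)).length = 4 * ℓ := by
    simp only [List.length_append, hℓ]
    omega
  have hsplit : W = pw Θ (4 * i + 1) ++ (((Θ ++ Θ) ++ (Θ ++ Θ)) ++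
      pw Θ (4 * (g - 1 - i) + 1)) := by
    have e1 : 4 * g + 2 = (4 * i + 1) + (4 + (4 * (g - 1 - i) + 1)) := by omega
    rw [hW, e1, pw_add, pw_add Θ 4]
    have e2 : pw Θ 4 = (Θ ++ Θ) ++ (Θ ++ Θ) := by
      show Θ ++ (Θ ++ (Θ ++ (Θ ++ []))) = _
      simp only [List.append_nil, List.append_assoc]
    rw [e2]
  refine replace hd (X := (Θ ++ Θ) ++ (Θ ++ Θ)) ?_ hphi hlam hrho ?_ ?_
  · intro h
    have h4 : (pw Θ (4 * i + 1)).length = 0 := by rw [h]; rfl
    rw [hU] at h4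
    have : 1 ≤ (4 * i + 1) * ℓ := Nat.mul_pos (by omega) hl
    omega
  · intro j h4 h5
    rw [hU] at h4
    rw [hU, hX] at h5
    rw [← hsplit]
    exact hno j h4 h5
  · rw [← hsplit]
    exact hWL

/-- A bound for fooling sets of deterministic machines with few turns. -/
theorem few_lower (hd : M.Deterministic) (hfew : FewTurns strict M) {P S : Set (List A)}
    (hP0 : P.Nonempty) (hP : ∀ x ∈ P, ∀ y ∈ P, x ++ y ∈ P) (hPL : P ⊆ M.language strict)
    (hPn : ∀ x ∈ P, x ≠ []) (hS0 : [] ∈ S) (hS : ∀ x ∈ S, ∀ y ∈ S, x ++ y ∈ S) (hPS : P ⊆ S)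
    {T : Type} [Finite T] (u v : T → List A) (hu : ∀ G, u G ++ v G ∈ S)
    (hneg : ∀ G, ∀ p ∈ P, ∀ q ∈ S, p ++ ((u G ++ v G) ++ q) ∉ M.language strict)
    (hpos : ∀ G G', G ≠ G' → u G ++ v G' ∈ P ∨ u G' ++ v G ∈ P) :
    Nat.card T ≤ (Nat.card M.Q + 1) ^ 2 + 2 * (Nat.card M.Q + 1) ^ 3 := by
  have := M.finQ
  have h1 : Nat.card (Option M.Q) = Nat.card M.Q + 1 := Finite.card_option
  rw [← h1]
  exact fooling (act strict M) hP0 hP hS0 hS hPS
    (fun Θ hΘ X' k1 k2 k3 => repl_of_few hd hfew hP hPL hPn hΘ k1 k2 k3) u v hu hneg hpos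

end Pool.Agent.N602.FT
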