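import Mathlib
import Pool.Agent.TH705.LB.Lower
import Pool.Agent.N602.FT.Few
import Pool.Agent.N602.FT.Block

set_option autoImplicit false

/-! The block machine of the witness machine: its size, and a lower bound. -/

namespace Pool.Agent.N602.FT

open Pool.Agent.H630R2.LA Pool.Agent.TH705.LB

/-! ### The size -/

theorem card_BL (A : Type) [Finite A] : Nat.card (BL A) ≤ Nat.card A + 2 := by
  have h := Nat.card_le_card_of_injective _ (blCode_inj A)
  rw [Finite.card_option, Finite.card_option] at h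
  exact h

theorem card_BW (A W : Type) [Finite A] [Finite W] :
    Nat.card (BW A W) ≤ Nat.card A + Nat.card W + 4 := by
  have h := Nat.card_le_card_of_injective _ (bwCode_inj A W)
  rw [Finite.card_option, Finite.card_option, Nat.card_sum] at h
  have h2 := card_BL A
  omega

theorem card_Ph : Nat.card Ph ≤ 4 := by
  have := Nat.card_le_card_of_injective _ phCode_inj
  simpa using this

theorem card_BQ {A : Type} (M : LimAut A) : Nat.card (BQ M) ≤ 8 * Nat.card M.Q + 1 := by
  have := M.finQ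
  rw [Finite.card_option, Nat.card_prod, Nat.card_prod]
  have h1 := card_Ph
  have h2 : Nat.card Bool = 2 := by simp
  rw [h2]
  have h3 : Nat.card M.Q * (2 * Nat.card Ph) ≤ Nat.card M.Q * (2 * 4) := by gcongr
  omega

/-- The code of a target state. -/
def tcode {A : Type} {M : LimAut A} (κ : M.Q → Bool) : BQ M → Option (Bool × Ph)
  | none => none
  | some (q, _, ph) => some (κ q, ph)

theorem BT_unique {A : Type} {M : LimAut A} (κ : M.Q → Bool)
    (hκ : ∀ p σ x y, x ∈ M.δ p σ → y ∈ M.δ p σ → κ x.1 = κ y.1 → x = y) {P P1 P2 : BQ M}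
    {σ : Sym (BW A M.W)} {w1 w2 : BW A M.W} {d : Bool} (h1 : BT M P σ P1 w1 d)
    (h2 : BT M P σ P2 w2 d) (h : tcode κ P1 = tcode κ P2) : P1 = P2 ∧ w1 = w2 := by
  cases h1 with
  | letter p e ph a q b _ hph h1 =>
    cases h2 with
    | letter _ _ _ _ q' b' _ _ h2 =>
      simp only [tcode, Option.some.injEq, Prod.mk.injEq] at h
      have h3 := hκ _ _ _ _ h1 h2 h.1
      simp only [Prod.mk.injEq] at h3
      obtain ⟨rfl, rfl, _⟩ := h3
      exact ⟨rfl, rfl⟩
    | skip _ _ _ _ hph' =>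
      rw [hph] at hph'
      cases hph'
  | skip p e ph a hph =>
    cases h2 with
    | letter _ _ _ _ q' b' _ hph' h2 =>
      rw [hph] at hph'
      cases hph'
    | skip _ _ _ _ hph' => exact ⟨rfl, rfl⟩
  | sep p e ph ph' hn =>
    cases h2 with
    | sep _ _ _ ph'' _ =>
      simp only [tcode, Option.some.injEq, Prod.mk.injEq] at h
      rw [h.2]
      exact ⟨rfl, rfl⟩
  | endR p e ph q b hph h1 hq =>
    cases h2 with
    | endR _ _ _ _ _ _ _ _ => exact ⟨rfl, rfl⟩
  | endL p e ph q b hph h1 =>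
    cases h2 with
    | endL _ _ _ q' b' _ h2 =>
      simp only [tcode, Option.some.injEq, Prod.mk.injEq] at h
      have h3 := hκ _ _ _ _ h1 h2 h.1
      simp only [Prod.mk.injEq] at h3
      obtain ⟨rfl, rfl, _⟩ := h3
      exact ⟨rfl, rfl⟩
  | vis p e ph b q b1 _ h1 =>
    cases h2 with
    | vis _ _ _ _ q' b' _ h2 =>
      simp only [tcode, Option.some.injEq, Prod.mk.injEq] at h
      have h3 := hκ _ _ _ _ h1 h2 h.1
      simp only [Prod.mk.injEq] at h3
      obtain ⟨rfl, rfl, _⟩ := h3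
      exact ⟨rfl, rfl⟩
  | bot p e ph =>
    cases h2
    exact ⟨rfl, rfl⟩
  | barL p ph q b h1 =>
    cases h2 with
    | barL _ _ q' b' h2 =>
      simp only [tcode, Option.some.injEq, Prod.mk.injEq] at h
      have h3 := hκ _ _ _ _ h1 h2 h.1
      simp only [Prod.mk.injEq] at h3
      obtain ⟨rfl, rfl, _⟩ := h3
      exact ⟨rfl, rfl⟩
  | barR p ph q b h1 hq =>
    cases h2 with
    | barR _ _ q' b' h2 _ => exact ⟨rfl, rfl⟩
  | barB p ph q b h1 =>
    cases h2 with
    | barB _ _ q' b' h2 =>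
      simp only [tcode, Option.some.injEq, Prod.mk.injEq] at h
      have h3 := hκ _ _ _ _ h1 h2 h.1
      simp only [Prod.mk.injEq] at h3
      obtain ⟨rfl, rfl, _⟩ := h3
      exact ⟨rfl, rfl⟩
  | lm p e ph q b h1 =>
    cases h2 with
    | lm _ _ _ q' b' h2 =>
      simp only [tcode, Option.some.injEq, Prod.mk.injEq] at h
      have h3 := hκ _ _ _ _ h1 h2 h.1
      simp only [Prod.mk.injEq] at h3
      obtain ⟨rfl, rfl, _⟩ := h3
      exact ⟨rfl, rfl⟩
  | rm =>
    cases h2
    exact ⟨rfl, rfl⟩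

theorem numTrans_blockM {A : Type} [Finite A] (M : LimAut A) (κ : M.Q → Bool)
    (hκ : ∀ p σ x y, x ∈ M.δ p σ → y ∈ M.δ p σ → κ x.1 = κ y.1 → x = y) :
    (blockM M).numTrans ≤
      (8 * Nat.card M.Q + 1) * (Nat.card A + Nat.card M.W + 6) * 18 := by
  classical
  have hQ := M.finQ
  have hW := M.finW
  have hS := finite_Sym (BW A M.W)
  have hcard : Nat.card ((BQ M × Sym (BW A M.W)) × (Option (Bool × Ph) × Bool)) ≤
      (8 * Nat.card M.Q + 1) * (Nat.card A + Nat.card M.W + 6) * 18 := by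
    have h1 := card_BQ M
    have h2 := card_BW A M.W
    have h3 : Nat.card Bool = 2 := by simp
    have h4 := card_Ph
    have h5 : Nat.card (Option (Bool × Ph)) = 2 * Nat.card Ph + 1 := by
      rw [Finite.card_option, Nat.card_prod, h3]
    rw [Nat.card_prod, Nat.card_prod, Nat.card_prod, card_Sym, h5, h3]
    calc Nat.card (BQ M) * (Nat.card (BW A M.W) + 2) * ((2 * Nat.card Ph + 1) * 2)
        ≤ (8 * Nat.card M.Q + 1) * ((Nat.card A + Nat.card M.W + 4) + 2) *
          ((2 * 4 + 1) * 2) := by gcongr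
      _ = (8 * Nat.card M.Q + 1) * (Nat.card A + Nat.card M.W + 6) * 18 := by ring
  refine le_trans ?_ hcard
  unfold LimAut.numTrans
  have hinj : Set.InjOn (fun t : (blockM M).Q × Sym (blockM M).W × (blockM M).Q ×
      (blockM M).W × Bool => (((t.1, t.2.1), (tcode κ t.2.2.1, t.2.2.2.2)) :
        (BQ M × Sym (BW A M.W)) × (Option (Bool × Ph) × Bool)))
      {t | t.2.2 ∈ (blockM M).δ t.1 t.2.1} := by
    rintro ⟨p, σ, q, v, d⟩ hx ⟨p', σ', q', v', d'⟩ hx' h
    simp only [Prod.mk.injEq] at h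
    obtain ⟨⟨rfl, rfl⟩, h3, rfl⟩ := h
    have h4 : BT M p σ q v d := hx
    have h5 : BT M p σ q' v' d := hx'
    obtain ⟨h6, h7⟩ := BT_unique κ hκ h4 h5 h3
    rw [h6, h7]
  rw [← hinj.ncard_image, ← Set.ncard_univ]
  exact Set.ncard_le_ncard (Set.subset_univ _) (Set.toFinite _)

/-- The block machine of the witness. -/
noncomputable def bwit (m : ℕ) : LimAut (BL Ltr) := blockM (witM m)

theorem size_bwit (m : ℕ) : (bwit m).size ≤ 170000 * (m + 1) := by
  classical
  have h1 : (bwit m).numTrans ≤ (8 * Nat.card (witM m).Q + 1) *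
      (Nat.card Ltr + Nat.card (witM m).W + 6) * 18 := by
    refine numTrans_blockM (witM m) (fun q => decide (q.1 = Tag.K ∨ q.1 = Tag.C)) ?_
    rintro p σ ⟨q, v, d⟩ ⟨q', v', d'⟩ hx hy h
    have h4 : Tr p.1 p.2.val σ q.1 q.2.val v d := hx
    have h5 : Tr p.1 p.2.val σ q'.1 q'.2.val v' d' := hy
    simp only [decide_eq_decide] at h
    obtain ⟨h6, h7, h8, h9⟩ := Tr_unique h4 h5 h
    have h10 : q = q' := Prod.ext h6 (Fin.ext h7)
    rw [h10, h8, h9]
  have h2 : Nat.card (witM m).Q = Nat.card Tag * (m + 1) := by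
    show Nat.card (Tag × Fin (m + 1)) = _
    rw [Nat.card_prod]
    simp
  have h3 : Nat.card (witM m).W ≤ 11 := card_Wk
  have h5 := card_Ltr
  have h6 := card_Tag
  have h7 : Nat.card (witM m).Q ≤ 10 * (m + 1) := by
    rw [h2]
    exact Nat.mul_le_mul_right _ h6
  have h8 : (bwit m).numTrans ≤ 32076 * (m + 1) := by
    refine h1.trans ?_
    calc (8 * Nat.card (witM m).Q + 1) * (Nat.card Ltr + Nat.card (witM m).W + 6) * 18
        ≤ (8 * (10 * (m + 1)) + 1) * (5 + 11 + 6) * 18 := by gcongr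
      _ ≤ 32076 * (m + 1) := by omega
  have h9 : Nat.card (bwit m).Q ≤ 8 * Nat.card (witM m).Q + 1 := card_BQ (witM m)
  have h10 : Nat.card (bwit m).W ≤ Nat.card Ltr + Nat.card (witM m).W + 4 := by
    have := (witM m).finW
    exact card_BW Ltr (witM m).W
  have h11 : Nat.card (BL Ltr) ≤ Nat.card Ltr + 2 := card_BL Ltr
  have h12 : (bwit m).F.ncard = 1 := Set.ncard_singleton _
  unfold LimAut.size
  rw [h12]
  omega

/-! ### The lower bound -/

variable {m : ℕ} {strict : Prop}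

/-- The first word of a block. -/
noncomputable def fstW (G : Set (Mat m)) : List Ltr := blocksW (listOf G) ++ [Ltr.q]

/-- The other words of a block. -/
noncomputable def sndW (H : Set (Mat m)) : List (List Ltr) :=
  (listOf Hᶜ).map fun Y => queriesW (test Y)

theorem good_iff (G H : Set (Mat m)) :
    Good strict (witM m) (fstW G, sndW H) ↔ ∃ Y, Y ∈ G ∧ Y ∉ H := by
  have key : ∀ Y : Mat m, fstW G ++ queriesW (test Y) ∈ (witM m).language strict ↔ Y ∈ G := by
    intro Y
    rw [← mem_set strict G Y]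
    unfold fstW
    rw [List.append_assoc]
    rfl
  unfold Good sndW
  dsimp only
  constructor
  · rintro ⟨w, hw, h⟩
    obtain ⟨Y, hY, rfl⟩ := List.mem_map.1 hw
    rw [mem_listOf] at hY
    exact ⟨Y, (key Y).1 h, hY⟩
  · rintro ⟨Y, h1, h2⟩
    refine ⟨queriesW (test Y), List.mem_map.2 ⟨Y, ?_, rfl⟩, (key Y).2 h1⟩
    rw [mem_listOf]
    exact h2

theorem card_sets (m : ℕ) : Nat.card (Set (Mat m)) = 2 ^ 2 ^ (m ^ 2) := by
  have : Nat.card (Set (Mat m)) = Nat.card (Mat m → Prop) := rfl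
  rw [this, Nat.card_fun, card_mat]
  simp

theorem rest_ne (ws : List (List Ltr)) : rest ws ≠ [] := by
  unfold rest
  simp

/-- **The lower bound.** -/
theorem lower_few (m : ℕ) (strict : Prop) (M : LimAut (BL Ltr)) (hd : M.Deterministic)
    (hfew : FewTurns strict M) (hM : M.language strict = (bwit m).language strict) :
    2 ^ 2 ^ (m ^ 2) ≤ (Nat.card M.Q + 1) ^ 2 + 2 * (Nat.card M.Q + 1) ^ 3 := by
  classical
  rw [← card_sets m]
  have hmem : ∀ bs : List (List Ltr × List (List Ltr)),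
      bs.flatMap blk ∈ M.language strict ↔ ∀ b ∈ bs, Good strict (witM m) b := by
    intro bs
    rw [hM]
    exact mem_blocks bs
  refine few_lower hd hfew
    (P := {l | ∃ bs : List (List Ltr × List (List Ltr)), bs ≠ [] ∧
      (∀ b ∈ bs, Good strict (witM m) b) ∧ l = bs.flatMap blk})
    (S := {l | ∃ bs : List (List Ltr × List (List Ltr)), l = bs.flatMap blk})
    ?_ ?_ ?_ ?_ ?_ ?_ ?_ (fun G => ltrs (fstW G)) (fun H => rest (sndW H)) ?_ ?_ ?_
  · refine ⟨_, [(fstW (Set.univ : Set (Mat m)), sndW (∅ : Set (Mat m)))], by simp, ?_, rfl⟩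
    intro b hb
    rw [List.mem_singleton] at hb
    subst hb
    rw [good_iff]
    exact ⟨fun _ _ => false, Set.mem_univ _, Set.notMem_empty _⟩
  · rintro _ ⟨bs, h1, h2, rfl⟩ _ ⟨bs', h3, h4, rfl⟩
    refine ⟨bs ++ bs', by simp [h1], ?_, by rw [List.flatMap_append]⟩
    intro b hb
    rcases List.mem_append.1 hb with hb | hb
    · exact h2 b hb
    · exact h4 b hb
  · rintro _ ⟨bs, _, h2, rfl⟩
    exact (hmem bs).2 h2
  · rintro _ ⟨bs, h1, _, rfl⟩ h
    rcases bs with _ | ⟨b, bs⟩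
    · exact h1 rfl
    · rw [List.flatMap_cons] at h
      have h2 := (List.append_eq_nil_iff.1 h).1
      unfold blk at h2
      exact rest_ne _ (List.append_eq_nil_iff.1 h2).2
  · exact ⟨[], rfl⟩
  · rintro _ ⟨bs, rfl⟩ _ ⟨bs', rfl⟩
    exact ⟨bs ++ bs', by rw [List.flatMap_append]⟩
  · rintro _ ⟨bs, _, _, rfl⟩
    exact ⟨bs, rfl⟩
  · intro G
    refine ⟨[(fstW G, sndW G)], ?_⟩
    simp [blk]
  · rintro G _ ⟨bs, _, _, rfl⟩ _ ⟨bs', rfl⟩ h
    have h1 : bs.flatMap blk ++ ((ltrs (fstW G) ++ rest (sndW G)) ++ bs'.flatMap blk) =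
        (bs ++ ((fstW G, sndW G) :: bs')).flatMap blk := by
      rw [List.flatMap_append, List.flatMap_cons]
      rfl
    rw [h1, hmem] at h
    have h2 := h (fstW G, sndW G) (by simp)
    rw [good_iff] at h2
    obtain ⟨Y, h3, h4⟩ := h2
    exact h4 h3
  · intro G G' hne
    have hor : (∃ Y, Y ∈ G ∧ Y ∉ G') ∨ ∃ Y, Y ∈ G' ∧ Y ∉ G := by
      by_contra hno
      push Not at hno
      exact hne (Set.ext fun Y => ⟨hno.1 Y, hno.2 Y⟩)
    have key : ∀ G G' : Set (Mat m), (∃ Y, Y ∈ G ∧ Y ∉ G') → ltrs (fstW G) ++ rest (sndW G') ∈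
        {l | ∃ bs : List (List Ltr × List (List Ltr)), bs ≠ [] ∧
          (∀ b ∈ bs, Good strict (witM m) b) ∧ l = bs.flatMap blk} := by
      intro G G' h
      refine ⟨[(fstW G, sndW G')], by simp, ?_, by simp [blk]⟩
      intro b hb
      rw [List.mem_singleton] at hb
      subst hb
      rw [good_iff]
      exact h
    rcases hor with h | h
    · exact Or.inl (key G G' h)
    · exact Or.inr (key G' G h)

end Pool.Agent.N602.FT
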