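import Mathlib
import Pool.Agent.R620.KV.Main
import Pool.Agent.N602.FT.Straight

set_option autoImplicit false

/-!
The complement of a deterministic 1-limited automaton all of whose computations are short.
-/

namespace Pool.Agent.N602.FT

open Relation
open Pool.Agent.H630R2.LA
open Pool.Agent.R620.KV (IsComp IsAcc)

variable {A : Type}

/-- No computation on `w` has more than `t (|w| + 1)` moves. -/
def LinTime (t : ℕ) (strict : Prop) (M : LimAut A) : Prop :=
  ∀ (w : List A) (T : ℕ) (f : ℕ → Cfg M), IsComp strict M w T f → T ≤ t * (w.length + 1)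

/-- No computation on an input `w` that is not in the language has more than `t (|w| + 1)`
moves. -/
def FastRej (t : ℕ) (strict : Prop) (M : LimAut A) : Prop :=
  ∀ w : List A, w ∉ M.language strict → ∀ (T : ℕ) (f : ℕ → Cfg M), IsComp strict M w T f →
    T ≤ t * (w.length + 1)

/-- No computation visits a cell more than `t` times. -/
def VisitsLe (t : ℕ) (strict : Prop) (M : LimAut A) : Prop :=
  ∀ (w : List A) (T : ℕ) (f : ℕ → Cfg M), IsComp strict M w T f →
    ∀ i, ((Finset.range T).filter fun r => (f r).pos = i).card ≤ t

theorem LinTime.fastRej {t : ℕ} {strict : Prop} {M : LimAut A} (h : LinTime t strict M) :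
    FastRej t strict M := fun w _ T f hf => h w T f hf

theorem VisitsLe.linTime {t : ℕ} {strict : Prop} {M : LimAut A} (h : VisitsLe t strict M) :
    LinTime (2 * t) strict M := by
  intro w T f hf
  have h1 : (Finset.range T).card = ∑ i ∈ Finset.range (w.length + 2),
      ((Finset.range T).filter fun r => (f r).pos = i).card := by
    apply Finset.card_eq_sum_card_fiberwise
    intro r hr
    rw [Finset.mem_coe, Finset.mem_range] at hr ⊢
    have h5 := (hf.step r hr).1
    show (f r).pos < w.length + 2
    omega
  rw [Finset.card_range] at h1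
  have h2 : ∑ i ∈ Finset.range (w.length + 2),
      ((Finset.range T).filter fun r => (f r).pos = i).card ≤
      ∑ _i ∈ Finset.range (w.length + 2), t := Finset.sum_le_sum fun i _ => h w T f hf i
  rw [← h1, Finset.sum_const, Finset.card_range, smul_eq_mul] at h2
  refine h2.trans ?_
  have h3 : (w.length + 2) * t ≤ (2 * (w.length + 1)) * t := Nat.mul_le_mul_right _ (by omega)
  refine h3.trans (le_of_eq ?_)
  ring

/-- The moves of the complement. A work symbol is `none` or a symbol of `M` with the information
whether the cell has been visited. In the state `none` the machine moves to the right end. -/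
inductive CT (strict : Prop) (M : LimAut A) : Option M.Q → Sym (Option (M.W × Bool)) →
    Option M.Q → Option (M.W × Bool) → Bool → Prop
  | new (p : M.Q) (b : M.W) (q : M.Q) (b' : M.W) (d : Bool)
      (h : (q, b', d) ∈ M.δ p (.sym b)) :
      CT strict M (some p) (.sym (some (b, false))) (some q) (some (b', true)) d
  | newS (p : M.Q) (b : M.W) (h : ∀ x, x ∉ M.δ p (.sym b)) :
      CT strict M (some p) (.sym (some (b, false))) none (some (b, false)) true
  | old (p : M.Q) (b : M.W) (q : M.Q) (d : Bool) (h : fz strict M p (.sym b) q d) :
      CT strict M (some p) (.sym (some (b, true))) (some q) (some (b, true)) d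
  | oldS (p : M.Q) (b : M.W) (h : ∀ q d, ¬ fz strict M p (.sym b) q d) :
      CT strict M (some p) (.sym (some (b, true))) none (some (b, true)) true
  | lm (p : M.Q) (q : M.Q) (b : M.W) (h : (q, b, true) ∈ M.δ p .lm) :
      CT strict M (some p) .lm (some q) none true
  | lmS (p : M.Q) (h : ∀ q b, (q, b, true) ∉ M.δ p .lm) :
      CT strict M (some p) .lm none none true
  | rm (p : M.Q) (q : M.Q) (b : M.W) (d : Bool) (h : (q, b, d) ∈ M.δ p .rm) :
      CT strict M (some p) .rm (some q) none d
  | rmS (p : M.Q) (h : ∀ x, x ∉ M.δ p .rm) :
      CT strict M (some p) .rm none none true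
  | tr (b : Option (M.W × Bool)) : CT strict M none (.sym b) none b true
  | trL : CT strict M none .lm none none true
  | trR : CT strict M none .rm none none true

/-- The complement. -/
def complM (strict : Prop) (M : LimAut A) : LimAut A where
  Q := Option M.Q
  W := Option (M.W × Bool)
  finQ := by
    have := M.finQ
    infer_instance
  finW := by
    have := M.finW
    infer_instance
  inp := fun a => some (M.inp a, false)
  inp_inj := by
    intro a b h
    have h1 : (M.inp a, false) = (M.inp b, false) := Option.some.inj h
    exact M.inp_inj (congrArg Prod.fst h1)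
  δ := fun p σ => {x | CT strict M p σ x.1 x.2.1 x.2.2}
  q0 := some M.q0
  F := {x | ∀ q, x = some q → q ∉ M.F}

variable {strict : Prop} {M : LimAut A}

theorem complM_det (hd : M.Deterministic) : (complM strict M).Deterministic := by
  rintro P σ ⟨P1, w1, d1⟩ hx ⟨P2, w2, d2⟩ hy
  have h1 : CT strict M P σ P1 w1 d1 := hx
  have h2 : CT strict M P σ P2 w2 d2 := hy
  cases h1 with
  | new p b q b' _ h =>
    cases h2 with
    | new _ _ q2 b2 _ h' =>
      have h3 := hd _ _ h h'
      simp only [Prod.mk.injEq] at h3
      obtain ⟨rfl, rfl, rfl⟩ := h3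
      rfl
    | newS _ _ h' => exact absurd h (h' _)
  | newS p b h =>
    cases h2 with
    | new _ _ q2 b2 _ h' => exact absurd h' (h _)
    | newS _ _ h' => rfl
  | old p b q _ h =>
    cases h2 with
    | old _ _ q2 _ h' =>
      obtain ⟨rfl, rfl⟩ := fz_unique hd h h'
      rfl
    | oldS _ _ h' => exact absurd h (h' _ _)
  | oldS p b h =>
    cases h2 with
    | old _ _ q2 _ h' => exact absurd h' (h _ _)
    | oldS _ _ h' => rfl
  | lm p q b h =>
    cases h2 with
    | lm _ q2 b2 h' =>
      have h3 := hd _ _ h h'
      simp only [Prod.mk.injEq] at h3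
      obtain ⟨rfl, _, _⟩ := h3
      rfl
    | lmS _ h' => exact absurd h (h' _ _)
  | lmS p h =>
    cases h2 with
    | lm _ q2 b2 h' => exact absurd h' (h _ _)
    | lmS _ h' => rfl
  | rm p q b _ h =>
    cases h2 with
    | rm _ q2 b2 _ h' =>
      have h3 := hd _ _ h h'
      simp only [Prod.mk.injEq] at h3
      obtain ⟨rfl, _, rfl⟩ := h3
      rfl
    | rmS _ h' => exact absurd h (h' _)
  | rmS p h =>
    cases h2 with
    | rm _ q2 b2 _ h' => exact absurd h' (h _)
    | rmS _ h' => rfl
  | tr b =>
    cases h2
    rfl
  | trL =>
    cases h2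
    rfl
  | trR =>
    cases h2
    rfl

open Classical in
/-- The content of a cell. -/
noncomputable def liftS (v : Prop) : Sym M.W → Sym (Option (M.W × Bool))
  | .lm => .lm
  | .rm => .rm
  | .sym b => .sym (some (b, decide v))

/-- The configuration of the complement. -/
noncomputable def Phi (strict : Prop) (c : Cfg M) : Cfg (complM strict M) :=
  ⟨some c.state, c.pos, fun i => liftS (i ∈ c.seen) (c.tape i), c.seen⟩

theorem Phi_init (w : List A) : Phi strict (init M w) = init (complM strict M) w := by
  unfold Phi init
  congr 1
  funext i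
  rcases i with _ | i
  · rfl
  · show liftS (i + 1 ∈ (∅ : Set ℕ)) (match w[i]? with
      | some a => Sym.sym (M.inp a)
      | none => Sym.rm) = (match w[i]? with
      | some a => Sym.sym ((complM strict M).inp a)
      | none => Sym.rm)
    rcases w[i]? with _ | a
    · rfl
    · simp only [liftS, Set.mem_empty_iff_false, decide_false]
      rfl

/-- The new configuration. -/
theorem Phi_nxt (c : Cfg M) (q : M.Q) (b : M.W) (d : Bool) (b' : Option (M.W × Bool))
    (h : c.pos ∉ c.seen → (liftS (M := M) False (c.tape c.pos)).rewrite b' =
      liftS (M := M) True ((c.tape c.pos).rewrite b)) :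
    nxt (Phi strict c) (some q) b' d = Phi strict (nxt c q b d) := by
  classical
  unfold nxt Phi
  dsimp only
  congr 1
  funext i
  by_cases hs : c.pos ∈ c.seen
  · rw [if_pos hs, if_pos hs, Set.insert_eq_of_mem hs]
  · rw [if_neg hs, if_neg hs]
    by_cases hi : i = c.pos
    · subst hi
      rw [Function.update_self, Function.update_self]
      have h1 := h hs
      have e1 : (c.pos ∈ c.seen) = False := eq_false hs
      have e2 : (c.pos ∈ insert c.pos c.seen) = True := eq_true (Set.mem_insert _ _)
      rw [e1, e2]
      exact h1
    · rw [Function.update_of_ne hi, Function.update_of_ne hi]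
      have e1 : (i ∈ insert c.pos c.seen) = (i ∈ c.seen) := by
        apply propext
        rw [Set.mem_insert_iff]
        constructor
        · rintro (h2 | h2)
          · exact absurd h2 hi
          · exact h2
        · exact Or.inr
      rw [e1]

/-- The left end-marker is only in the cell `0`. -/
def OKc (c : Cfg M) : Prop := ∀ i, c.tape i = .lm → i = 0

theorem OKc_init (w : List A) : OKc (init M w) := by
  intro i hi
  rcases i with _ | i
  · rfl
  · exfalso
    have h1 : initTape M w (i + 1) = .lm := hi
    simp only [initTape] at h1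
    rcases h : w[i]? with _ | a
    · rw [h] at h1
      cases h1
    · rw [h] at h1
      cases h1

theorem OKc_step {n : ℕ} {c c' : Cfg M} (h : Step strict n c c') (hc : OKc c) : OKc c' := by
  classical
  rw [step_iff] at h
  obtain ⟨_, q, b, d, _, _, _, rfl⟩ := h
  intro i hi
  unfold nxt at hi
  dsimp only at hi
  by_cases hs : c.pos ∈ c.seen
  · rw [if_pos hs] at hi
    exact hc i hi
  · rw [if_neg hs] at hi
    by_cases h : i = c.pos
    · subst h
      rw [Function.update_self] at hi
      apply hc
      rcases ht : c.tape c.pos with _ | _ | b0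
      · rfl
      · rw [ht] at hi
        cases hi
      · rw [ht] at hi
        cases hi
    · rw [Function.update_of_ne h] at hi
      exact hc i hi

theorem Phi_step {n : ℕ} {c c' : Cfg M} (hc : OKc c) (h : Step strict n c c') :
    Step strict n (Phi strict c) (Phi strict c') := by
  classical
  rw [step_iff] at h
  obtain ⟨hle, q, b, d, h1, h2, h3, rfl⟩ := h
  rw [step_iff]
  rcases hσ : c.tape c.pos with _ | _ | b0
  · -- the left end-marker
    rw [hσ] at h1 h2
    cases d with
    | true =>
      refine ⟨hle, some q, none, true, ?_, ?_, h3, ?_⟩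
      · show CT strict M (some c.state) (liftS (c.pos ∈ c.seen) (c.tape c.pos)) _ _ _
        rw [hσ]
        exact CT.lm _ _ _ h1
      · intro _ _
        show (liftS (c.pos ∈ c.seen) (c.tape c.pos)).rewrite none =
          liftS (c.pos ∈ c.seen) (c.tape c.pos)
        rw [hσ]
        rfl
      · exact (Phi_nxt c q b true none (fun _ => by rw [hσ]; rfl)).symm
    | false =>
      have h4 := hc c.pos hσ
      have h5 := h3 rfl
      omega
  · rw [hσ] at h1 h2
    refine ⟨hle, some q, none, d, ?_, ?_, h3, ?_⟩
    · show CT strict M (some c.state) (liftS (c.pos ∈ c.seen) (c.tape c.pos)) _ _ _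
      rw [hσ]
      exact CT.rm _ _ _ _ h1
    · intro _ _
      show (liftS (c.pos ∈ c.seen) (c.tape c.pos)).rewrite none =
        liftS (c.pos ∈ c.seen) (c.tape c.pos)
      rw [hσ]
      rfl
    · exact (Phi_nxt c q b d none (fun _ => by rw [hσ]; rfl)).symm
  · rw [hσ] at h1 h2
    by_cases hs : c.pos ∈ c.seen
    · refine ⟨hle, some q, some (b0, true), d, ?_, ?_, h3, ?_⟩
      · show CT strict M (some c.state) (liftS (c.pos ∈ c.seen) (c.tape c.pos)) _ _ _
        rw [hσ]
        simp only [liftS, hs, decide_true]
        exact CT.old _ _ _ _ ⟨b, h1, fun hst => h2 hst hs⟩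
      · intro _ _
        show (liftS (c.pos ∈ c.seen) (c.tape c.pos)).rewrite (some (b0, true)) =
          liftS (c.pos ∈ c.seen) (c.tape c.pos)
        rw [hσ]
        simp only [liftS, hs, decide_true]
        rfl
      · exact (Phi_nxt c q b d _ (fun hn => absurd hs hn)).symm
    · refine ⟨hle, some q, some (b, true), d, ?_, ?_, h3, ?_⟩
      · show CT strict M (some c.state) (liftS (c.pos ∈ c.seen) (c.tape c.pos)) _ _ _
        rw [hσ]
        simp only [liftS, hs, decide_false]
        exact CT.new _ _ _ _ _ h1
      · intro _ hn
        exact absurd hn hs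
      · refine (Phi_nxt c q b d _ (fun _ => ?_)).symm
        rw [hσ]
        simp only [liftS, Sym.rewrite, decide_true]

theorem Phi_comp {w : List A} {T : ℕ} {f : ℕ → Cfg M} (hf : IsComp strict M w T f) :
    IsComp strict (complM strict M) w T (fun r => Phi strict (f r)) := by
  have hok : ∀ r, r ≤ T → OKc (f r) := by
    intro r
    induction r with
    | zero =>
      intro _
      rw [hf.start]
      exact OKc_init w
    | succ r ih =>
      intro hr
      exact OKc_step (hf.step r (by omega)) (ih (by omega))
  refine ⟨?_, ?_⟩
  · show Phi strict (f 0) = _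
    rw [hf.start]
    exact Phi_init w
  · intro r hr
    exact Phi_step (hok r (by omega)) (hf.step r hr)

theorem step_unique' (hd : M.Deterministic) {n : ℕ} {c c1 c2 : Cfg M}
    (h1 : Step strict n c c1) (h2 : Step strict n c c2) : c1 = c2 := by
  rw [step_iff] at h1 h2
  obtain ⟨_, q, b, d, h3, _, _, rfl⟩ := h1
  obtain ⟨_, q', b', d', h3', _, _, rfl⟩ := h2
  have h4 := hd _ _ h3 h3'
  simp only [Prod.mk.injEq] at h4
  obtain ⟨rfl, rfl, rfl⟩ := h4
  rfl

theorem comp_rtg {w : List A} {T : ℕ} {f : ℕ → Cfg M} (hf : IsComp strict M w T f) :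
    ReflTransGen (Step strict w.length) (init M w) (f T) := by
  have key : ∀ r, r ≤ T → ReflTransGen (Step strict w.length) (init M w) (f r) := by
    intro r
    induction r with
    | zero =>
      intro _
      rw [hf.start]
    | succ r ih =>
      intro hr
      exact (ih (by omega)).tail (hf.step r (by omega))
  exact key T le_rfl

theorem comp_of_rtg {w : List A} {c : Cfg M}
    (h : ReflTransGen (Step strict w.length) (init M w) c) :
    ∃ (T : ℕ) (f : ℕ → Cfg M), IsComp strict M w T f ∧ f T = c := by
  induction h with
  | refl => exact ⟨0, fun _ => init M w, ⟨rfl, fun _ h => absurd h (Nat.not_lt_zero _)⟩, rfl⟩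
  | @tail b c _ h' ih =>
    obtain ⟨T, f, h1, h2⟩ := ih
    refine ⟨T + 1, fun r => if r ≤ T then f r else c, ⟨?_, ?_⟩, ?_⟩
    · show (if 0 ≤ T then f 0 else c) = _
      rw [if_pos (Nat.zero_le _), h1.start]
    · intro r hr
      show Step strict w.length (if r ≤ T then f r else c) (if r + 1 ≤ T then f (r + 1) else c)
      rw [if_pos (by omega : r ≤ T)]
      by_cases h3 : r + 1 ≤ T
      · rw [if_pos h3]
        exact h1.step r (by omega)
      · rw [if_neg h3]
        have : r = T := by omega
        rw [this, h2]
        exact h'
    · show (if T + 1 ≤ T then f (T + 1) else c) = c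
      rw [if_neg (by omega)]

/-- Extension of a computation by one move. -/
theorem comp_succ {w : List A} {T : ℕ} {f : ℕ → Cfg M} {c : Cfg M} (h1 : IsComp strict M w T f)
    (h' : Step strict w.length (f T) c) :
    ∃ g : ℕ → Cfg M, IsComp strict M w (T + 1) g ∧ g (T + 1) = c := by
  refine ⟨fun r => if r ≤ T then f r else c, ⟨?_, ?_⟩, ?_⟩
  · show (if 0 ≤ T then f 0 else c) = _
    rw [if_pos (Nat.zero_le _), h1.start]
  · intro r hr
    show Step strict w.length (if r ≤ T then f r else c) (if r + 1 ≤ T then f (r + 1) else c)
    rw [if_pos (by omega : r ≤ T)]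
    by_cases h3 : r + 1 ≤ T
    · rw [if_pos h3]
      exact h1.step r (by omega)
    · rw [if_neg h3]
      have : r = T := by omega
      rw [this]
      exact h'
  · show (if T + 1 ≤ T then f (T + 1) else c) = c
    rw [if_neg (by omega)]

/-- The words of the language are rejected by the complement. -/
theorem compl_reject (hd : M.Deterministic) {w : List A} (h : w ∈ M.language strict) :
    w ∉ (complM strict M).language strict := by
  rintro ⟨c, h1, h2, h3⟩
  obtain ⟨c0, h4, h5, h6⟩ := h
  obtain ⟨T, f, h7, h8⟩ := comp_of_rtg h4
  have h9 := comp_rtg (Phi_comp h7)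
  rw [h8] at h9
  have hu : Relator.RightUnique (Step strict w.length (M := complM strict M)) :=
    fun a b c hb hc => step_unique' (complM_det hd) hb hc
  have hstop : ∀ c : Cfg (complM strict M), c.pos = w.length + 2 → ∀ c', ¬ Step strict w.length c c' := by
    intro c hc c' hs
    have := hs.1
    omega
  have heq : c = Phi strict c0 := by
    rcases ReflTransGen.total_of_right_unique hu h1 h9 with h | h
    · rcases ReflTransGen.cases_head h with h10 | ⟨d, h10, _⟩
      · exact h10
      · exact absurd h10 (hstop c h2 d)
    · rcases ReflTransGen.cases_head h with h10 | ⟨d, h10, _⟩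
      · exact h10.symm
      · exact absurd h10 (hstop _ h5 d)
  rw [heq] at h3
  exact h3 c0.state rfl h6

/-- The last part of a computation of the complement. -/
theorem traveller {w : List A} : ∀ (j : ℕ) (T : ℕ) (g : ℕ → Cfg (complM strict M)),
    IsComp strict (complM strict M) w T g → (g T).state = none →
    (g T).pos + j = w.length + 2 →
    ∃ g' : ℕ → Cfg (complM strict M), IsAcc strict (complM strict M) w (T + j) g' := by
  classical
  intro j
  induction j with
  | zero =>
    intro T g h1 h2 h3
    refine ⟨g, h1, h3, ?_⟩
    show ∀ q, (g T).state = some q → q ∉ M.F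
    intro q hq
    rw [h2] at hq
    cases hq
  | succ j ih =>
    intro T g h1 h2 h3
    have hex : ∃ b, CT strict M none ((g T).tape (g T).pos) none b true ∧
        ((g T).tape (g T).pos).rewrite b = (g T).tape (g T).pos := by
      rcases (g T).tape (g T).pos with _ | _ | b
      · exact ⟨none, CT.trL, rfl⟩
      · exact ⟨none, CT.trR, rfl⟩
      · exact ⟨b, CT.tr b, rfl⟩
    obtain ⟨b, hb1, hb2⟩ := hex
    have hstep : Step strict w.length (g T) (nxt (g T) none b true) := by
      rw [step_iff]
      refine ⟨by omega, none, b, true, ?_, fun _ _ => hb2, by simp, rfl⟩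
      rw [h2]
      exact hb1
    obtain ⟨g', h4, h5⟩ := comp_succ h1 hstep
    obtain ⟨g'', h6⟩ := ih (T + 1) g' h4 (by rw [h5]; rfl) (by
      rw [h5]
      have : (nxt (g T) none b true : Cfg (complM strict M)).pos = (g T).pos + 1 := by
        simp [nxt]
      omega)
    refine ⟨g'', ?_⟩
    have e : T + (j + 1) = T + 1 + j := by omega
    rw [e]
    exact h6

/-- The words outside the language are accepted quickly by the complement. -/
theorem compl_accept {w : List A} {B : ℕ}
    (hB : ∀ (T : ℕ) (f : ℕ → Cfg M), IsComp strict M w T f → T ≤ B)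
    (h : w ∉ M.language strict) :
    ∃ (T : ℕ) (g : ℕ → Cfg (complM strict M)), IsAcc strict (complM strict M) w T g ∧
      T ≤ B + w.length + 2 := by
  classical
  -- a longest computation
  have hmax : ∃ (T : ℕ) (f : ℕ → Cfg M), IsComp strict M w T f ∧
      ∀ c, ¬ Step strict w.length (f T) c := by
    by_contra hcon
    push Not at hcon
    have key : ∀ T : ℕ, ∃ f : ℕ → Cfg M, IsComp strict M w T f := by
      intro T
      induction T with
      | zero => exact ⟨fun _ => init M w, rfl, fun _ h => absurd h (Nat.not_lt_zero _)⟩
      | succ T ih =>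
        obtain ⟨f, hf⟩ := ih
        obtain ⟨c, hc⟩ := hcon T f hf
        obtain ⟨g, hg, _⟩ := comp_succ hf hc
        exact ⟨g, hg⟩
    obtain ⟨f, hf⟩ := key (B + 1)
    have := hB _ f hf
    omega
  obtain ⟨T, f, hf, hstuck⟩ := hmax
  have hTB := hB T f hf
  have hpos : (f T).pos ≤ w.length + 2 := by
    rcases Nat.eq_zero_or_pos T with h0 | h0
    · rw [h0, hf.start]
      show 1 ≤ w.length + 2
      omega
    · have h1 := (hf.step (T - 1) (by omega)).1
      have h2 := Pool.Agent.R620.KV.pos_succ hf (t := T - 1) (by omega)
      have e : T - 1 + 1 = T := by omega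
      rw [e] at h2
      omega
  have hPhi := Phi_comp hf
  rcases Nat.lt_or_ge (f T).pos (w.length + 2) with h1 | h1
  · -- stuck
    have hno : ∀ q b d, (q, b, d) ∈ M.δ (f T).state ((f T).tape (f T).pos) →
        (d = false → 0 < (f T).pos) →
        ¬ (strict → (f T).pos ∈ (f T).seen →
          ((f T).tape (f T).pos).rewrite b = (f T).tape (f T).pos) := by
      intro q b d h2 h3 h4
      apply hstuck (nxt (f T) q b d)
      rw [step_iff]
      exact ⟨by omega, q, b, d, h2, h4, h3, rfl⟩
    have hok : OKc (f T) := by
      have key : ∀ r, r ≤ T → OKc (f r) := by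
        intro r
        induction r with
        | zero =>
          intro _
          rw [hf.start]
          exact OKc_init w
        | succ r ih =>
          intro hr
          exact OKc_step (hf.step r (by omega)) (ih (by omega))
      exact key T le_rfl
    have htp0 : (f T).tape 0 = .lm := by
      have key : ∀ r, r ≤ T → (f r).tape 0 = .lm := by
        intro r
        induction r with
        | zero => intro _; rw [hf.start]; rfl
        | succ r ih =>
          intro hr
          obtain ⟨_, q, b, d, _, _, _, e1, e2, _, _, _⟩ := hf.step r (by omega)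
          by_cases hs : (f r).pos ∈ (f r).seen
          · rw [e1 hs]
            exact ih (by omega)
          · rw [e2 hs]
            by_cases h : (f r).pos = 0
            · rw [h, Function.update_self, ih (by omega)]
              rfl
            · rw [Function.update_of_ne (Ne.symm h)]
              exact ih (by omega)
      exact key T le_rfl
    have hex : ∃ b, CT strict M (some (f T).state)
        (liftS ((f T).pos ∈ (f T).seen) ((f T).tape (f T).pos)) none b true ∧
        (liftS ((f T).pos ∈ (f T).seen) ((f T).tape (f T).pos)).rewrite b =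
          liftS ((f T).pos ∈ (f T).seen) ((f T).tape (f T).pos) := by
      rcases hσ : (f T).tape (f T).pos with _ | _ | b0
      · refine ⟨none, CT.lmS _ ?_, rfl⟩
        intro q b hq
        rw [hσ] at hno
        exact hno q b true hq (by simp) (fun _ _ => rfl)
      · refine ⟨none, CT.rmS _ ?_, rfl⟩
        rintro ⟨q, b, d⟩ hq
        have hp : 0 < (f T).pos := by
          rcases Nat.eq_zero_or_pos (f T).pos with h2 | h2
          · rw [h2, htp0] at hσ
            cases hσ
          · exact h2
        rw [hσ] at hno
        exact hno q b d hq (fun _ => hp) (fun _ _ => rfl)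
      · have hp : 0 < (f T).pos := by
          rcases Nat.eq_zero_or_pos (f T).pos with h2 | h2
          · rw [h2, htp0] at hσ
            cases hσ
          · exact h2
        rw [hσ] at hno
        by_cases hs : (f T).pos ∈ (f T).seen
        · refine ⟨some (b0, true), ?_, ?_⟩
          · simp only [liftS, hs, decide_true]
            refine CT.oldS _ _ ?_
            rintro q d ⟨b, hb1, hb2⟩
            exact hno q b d hb1 (fun _ => hp) (fun hst _ => hb2 hst)
          · simp only [liftS, hs, decide_true]
            rfl
        · refine ⟨some (b0, false), ?_, ?_⟩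
          · simp only [liftS, hs, decide_false]
            refine CT.newS _ _ ?_
            rintro ⟨q, b, d⟩ hq
            exact hno q b d hq (fun _ => hp) (fun _ h => absurd h hs)
          · simp only [liftS, hs, decide_false]
            rfl
    obtain ⟨b, hb1, hb2⟩ := hex
    have hstep : Step strict w.length (Phi strict (f T))
        (nxt (Phi strict (f T)) none b true) := by
      rw [step_iff]
      refine ⟨?_, none, b, true, hb1, fun _ _ => hb2, by simp, rfl⟩
      show (f T).pos ≤ _
      omega
    obtain ⟨g, h4, h5⟩ := comp_succ hPhi hstep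
    have hgp : (g (T + 1)).pos = (f T).pos + 1 := by
      rw [h5]
      simp [nxt, Phi]
    obtain ⟨g', h6⟩ := traveller (w.length + 1 - (f T).pos) (T + 1) g h4 (by rw [h5]; rfl) (by
      rw [hgp]
      omega)
    exact ⟨_, g', h6, by omega⟩
  · refine ⟨T, fun r => Phi strict (f r), ⟨hPhi, ?_, ?_⟩, by omega⟩
    · show (f T).pos = _
      omega
    · show ∀ q, some (f T).state = some q → q ∉ M.F
      intro q hq hqF
      rw [← Option.some.inj hq] at hqF
      exact h ⟨f T, comp_rtg hf, by omega, hqF⟩

end Pool.Agent.N602.FT
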