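import Mathlib
import Pool.Agent.H630R2.LA.Nerode
import Pool.Agent.Y527.LA.OneWay
import Pool.Agent.N602.FT.Few

set_option autoImplicit false

/-! Deterministic one-way machines, and classes of machines with few turns. -/

namespace Pool.Agent.N602.FT

open Relation
open Pool.Agent.H630R2.LA
open Pool.Agent.Y527.LA (OneWay)

variable {A : Type}

/-! ### The deterministic one-way machine -/

/-- The successor of a set of states of the table automaton. -/
def after (strict : Prop) (M : LimAut A) (w : List A) (S : Set (Set (M.Q × M.Q) × M.Q)) :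
    Set (Set (M.Q × M.Q) × M.Q) := {y | ∃ x ∈ S, runs strict M w x y}

/-- The moves. -/
inductive OT (strict : Prop) (M : LimAut A) : Option (Set (Set (M.Q × M.Q) × M.Q)) →
    Sym (Option A) → Option (Set (Set (M.Q × M.Q) × M.Q)) → Option A → Bool → Prop
  | go (S : Set (Set (M.Q × M.Q) × M.Q)) (a : A) :
      OT strict M (some S) (.sym (some a)) (some (after strict M [a] S)) (some a) true
  | fin (S : Set (Set (M.Q × M.Q) × M.Q)) (h : ∃ x ∈ S, finX strict M x) :
      OT strict M (some S) .rm none none true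

/-- The deterministic one-way machine. -/
def detOne [Finite A] (strict : Prop) (M : LimAut A) : LimAut A where
  Q := Option (Set (Set (M.Q × M.Q) × M.Q))
  W := Option A
  finQ := by
    have := M.finQ
    infer_instance
  finW := inferInstance
  inp := some
  inp_inj := fun _ _ h => Option.some.inj h
  δ := fun q σ => {z | OT strict M q σ z.1 z.2.1 z.2.2}
  q0 := some {x0 strict M}
  F := {none}

section detOne

variable [Finite A] {strict : Prop} {M : LimAut A}

theorem detOne_det : (detOne strict M).Deterministic := by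
  rintro q σ ⟨q1, b1, d1⟩ hx ⟨q2, b2, d2⟩ hy
  have h1 : OT strict M q σ q1 b1 d1 := hx
  have h2 : OT strict M q σ q2 b2 d2 := hy
  cases h1 <;> cases h2 <;> rfl

theorem detOne_oneWay : OneWay (detOne strict M) := by
  rintro q σ ⟨q1, b1, d1⟩ hx
  have h1 : OT strict M q σ q1 b1 d1 := hx
  cases h1 <;> rfl

omit [Finite A] in
theorem after_cons (a : A) (w : List A) (S : Set (Set (M.Q × M.Q) × M.Q)) :
    after strict M (a :: w) S = after strict M w (after strict M [a] S) := by
  ext y
  constructor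
  · rintro ⟨x, hx, z, h1, h2⟩
    exact ⟨z, ⟨x, hx, z, h1, rfl⟩, h2⟩
  · rintro ⟨z, ⟨x, hx, z', h1, h2⟩, h3⟩
    have h4 : z' = z := h2
    subst h4
    exact ⟨x, hx, z', h1, h3⟩

theorem runs_detOne (s' : Prop) (w : List A) : ∀ (S : Set (Set (M.Q × M.Q) × M.Q))
    (x' : Set ((detOne strict M).Q × (detOne strict M).Q) × (detOne strict M).Q),
    x'.2 = some S → ∀ o : (detOne strict M).Q,
    (∃ T, runs s' (detOne strict M) w x' (T, o)) ↔ o = some (after strict M w S) := by
  induction w with
  | nil =>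
    intro S x' hx o
    have e : after strict M [] S = S := by
      ext y
      constructor
      · rintro ⟨x, hx, h⟩
        have h' : x = y := h
        rwa [← h']
      · intro h
        exact ⟨y, h, rfl⟩
    rw [e]
    constructor
    · rintro ⟨T, h⟩
      have h' : x' = (T, o) := h
      rw [h'] at hx
      exact hx
    · rintro rfl
      exact ⟨x'.1, Prod.ext rfl hx⟩
  | cons a w ih =>
    intro S x' hx o
    rw [after_cons]
    constructor
    · rintro ⟨T, z, ⟨q, b, d, h1, h2, h3, h4⟩, h5⟩
      have h1' : OT strict M x'.2 (.sym (some a)) q b d := h1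
      rw [hx] at h1'
      cases h1' with
      | go _ _ => exact (ih _ z (h3 rfl) o).1 ⟨T, h5⟩
    · intro ho
      let z : Set ((detOne strict M).Q × (detOne strict M).Q) × (detOne strict M).Q :=
        (ext s' (detOne strict M) x'.1 (.sym (some a)), some (after strict M [a] S))
      obtain ⟨T, hT⟩ := (ih (after strict M [a] S) z rfl o).2 ho
      refine ⟨T, z, ⟨some (after strict M [a] S), some a, true, ?_, rfl, fun _ => rfl,
        by simp⟩, hT⟩
      show OT strict M x'.2 (.sym (some a)) _ _ _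
      rw [hx]
      exact OT.go S a

theorem detOne_language (s' : Prop) : (detOne strict M).language s' = M.language strict := by
  ext w
  rw [mem_language_runs, mem_language_runs]
  have h0 : (x0 s' (detOne strict M)).2 = some {x0 strict M} := rfl
  constructor
  · rintro ⟨⟨T, o⟩, h1, z, ⟨q, b, d, h2, _, h4, _⟩, h5⟩
    have h6 := (runs_detOne s' w _ _ h0 o).1 ⟨T, h1⟩
    subst h6
    have h2' : OT strict M (some (after strict M w {x0 strict M})) .rm q b d := h2
    cases h2' with
    | fin _ h =>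
      obtain ⟨y, ⟨x, hx, hy⟩, hf⟩ := h
      have hx' : x = x0 strict M := hx
      subst hx'
      exact ⟨y, hy, hf⟩
  · rintro ⟨y, h1, h2⟩
    obtain ⟨T, hT⟩ := (runs_detOne s' w _ _ h0 _).2 rfl
    refine ⟨_, hT, (ext s' (detOne strict M) T .rm, none), ⟨none, none, true, ?_, rfl,
      fun _ => rfl, by simp⟩, rfl⟩
    show OT strict M (some (after strict M w {x0 strict M})) .rm none none true
    exact OT.fin _ ⟨y, ⟨x0 strict M, rfl, h1⟩, h2⟩

theorem card_set (X : Type) [Finite X] : Nat.card (Set X) = 2 ^ Nat.card X := by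
  have : Nat.card (Set X) = Nat.card (X → Prop) := rfl
  rw [this, Nat.card_fun]
  simp

theorem detOne_size : (detOne strict M).size ≤ 2 ^ 2 ^ (2 * M.size ^ 2) := by
  have := M.finQ
  have hq : Nat.card M.Q + Nat.card A + 3 ≤ M.size := by
    unfold LimAut.size
    omega
  have hq1 : 1 ≤ Nat.card M.Q := by
    have : Nonempty M.Q := ⟨M.q0⟩
    exact Nat.card_pos
  have h1 := numTrans_le (detOne strict M) detOne_det
  have e1 : Nat.card (detOne strict M).Q = 2 ^ (2 ^ (Nat.card M.Q * Nat.card M.Q) *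
      Nat.card M.Q) + 1 := by
    show Nat.card (Option (Set (Set (M.Q × M.Q) × M.Q))) = _
    rw [Finite.card_option, card_set, card_table]
  have e2 : Nat.card (detOne strict M).W = Nat.card A + 1 := by
    show Nat.card (Option A) = _
    rw [Finite.card_option]
  have e3 : (detOne strict M).F.ncard = 1 := Set.ncard_singleton _
  have hsize : (detOne strict M).size = Nat.card (detOne strict M).Q + Nat.card A +
      (Nat.card (detOne strict M).W + 2) + 5 * (detOne strict M).numTrans + 1 +
      (detOne strict M).F.ncard := rfl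
  rw [hsize, e3, e2]
  rw [e2] at h1
  have hB : Nat.card (detOne strict M).Q ≤ 2 ^ (2 ^ (Nat.card M.Q ^ 2 + Nat.card M.Q) + 1) := by
    rw [e1]
    have h3 : 2 ^ (Nat.card M.Q * Nat.card M.Q) * Nat.card M.Q ≤
        2 ^ (Nat.card M.Q ^ 2 + Nat.card M.Q) := by
      rw [pow_add, sq]
      exact Nat.mul_le_mul_left _ (Nat.lt_two_pow_self).le
    have h4 : 2 ^ (2 ^ (Nat.card M.Q * Nat.card M.Q) * Nat.card M.Q) ≤
        2 ^ (2 ^ (Nat.card M.Q ^ 2 + Nat.card M.Q)) := Nat.pow_le_pow_right (by omega) h3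
    have h5 : 1 ≤ 2 ^ (2 ^ (Nat.card M.Q ^ 2 + Nat.card M.Q)) := Nat.one_le_two_pow
    rw [pow_succ]
    omega
  generalize M.size = n at *
  generalize (detOne strict M).numTrans = T at *
  generalize Nat.card (detOne strict M).Q = K at *
  generalize Nat.card M.Q = s at *
  generalize Nat.card A = a at *
  have hn : n < 2 ^ n := Nat.lt_two_pow_self
  have h7 : K + a + (a + 1 + 2) + 5 * T + 1 + 1 ≤ K * (8 * n) := by
    have h8 : K * (a + 1 + 2) ≤ K * n := Nat.mul_le_mul_left _ (by omega)
    have hK : 1 ≤ K := by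
      rw [e1]
      exact Nat.le_add_left 1 _
    have h9 : n ≤ K * n := Nat.le_mul_of_pos_left _ hK
    have h10 : K ≤ K * n := Nat.le_mul_of_pos_right _ (by omega)
    have h11 : K * (8 * n) = 8 * (K * n) := by ring
    rw [h11]
    omega
  refine h7.trans ?_
  have h8 : K * (8 * n) ≤ 2 ^ (2 ^ (s ^ 2 + s) + 1) * 2 ^ (n + 3) := by
    refine Nat.mul_le_mul hB ?_
    have : 2 ^ (n + 3) = 8 * 2 ^ n := by ring
    rw [this]
    omega
  refine h8.trans ?_
  rw [← pow_add]
  apply Nat.pow_le_pow_right (by omega)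
  obtain ⟨r, rfl⟩ : ∃ r, n = s + 3 + r := ⟨n - s - 3, by omega⟩
  have h9 : s ^ 2 + s ≤ 2 * (s + 3 + r) ^ 2 - 1 := by
    apply Nat.le_sub_of_add_le
    nlinarith [Nat.zero_le r, Nat.zero_le s, Nat.zero_le (r * s)]
  have h10 : 2 ^ (s ^ 2 + s) ≤ 2 ^ (2 * (s + 3 + r) ^ 2 - 1) := Nat.pow_le_pow_right (by omega) h9
  have h11 : s + 3 + r + 4 ≤ 2 ^ (2 * (s + 3 + r) ^ 2 - 1) := by
    have h12 : s + 3 + r + 4 < 2 ^ (s + 3 + r + 4) := Nat.lt_two_pow_self
    have h13 : 2 ^ (s + 3 + r + 4) ≤ 2 ^ (2 * (s + 3 + r) ^ 2 - 1) := by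
      apply Nat.pow_le_pow_right (by omega)
      apply Nat.le_sub_of_add_le
      nlinarith [Nat.zero_le r, Nat.zero_le s, Nat.zero_le (r * s)]
    omega
  have h12 : 2 ^ (2 * (s + 3 + r) ^ 2) =
      2 ^ (2 * (s + 3 + r) ^ 2 - 1) + 2 ^ (2 * (s + 3 + r) ^ 2 - 1) := by
    have h13 : 1 ≤ 2 * (s + 3 + r) ^ 2 := by nlinarith
    obtain ⟨e, he⟩ : ∃ e, 2 * (s + 3 + r) ^ 2 = e + 1 := ⟨2 * (s + 3 + r) ^ 2 - 1, by omega⟩
    rw [he, Nat.add_sub_cancel, pow_succ]
    ring
  rw [h12]
  omega

end detOne

/-! ### Classes of machines with few turns -/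

variable {strict : Prop} {M : LimAut A}

/-- On accepted inputs the head turns at the end-markers only. -/
def Sweeping (strict : Prop) (M : LimAut A) : Prop :=
  ∀ w ∈ M.language strict, ∀ i, 1 ≤ i → i ≤ w.length → ¬ TurnsAt strict M w i

/-- An accepting computation of length `T`. -/
structure Acc (strict : Prop) (M : LimAut A) (w : List A) (T : ℕ) (f : ℕ → Cfg M) : Prop where
  zero : f 0 = init M w
  step : ∀ t, t < T → Step strict w.length (f t) (f (t + 1))
  last : (f T).pos = w.length + 2
  final : (f T).state ∈ M.F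

/-- The accepted inputs `w` have accepting computations with `o(|w|)` head reversals. -/
def FewRev (strict : Prop) (M : LimAut A) : Prop :=
  ∀ C : ℕ, ∃ n0 : ℕ, ∀ w ∈ M.language strict, n0 ≤ w.length →
    ∃ (T : ℕ) (f : ℕ → Cfg M), Acc strict M w T f ∧
      C * {t | t + 2 ≤ T ∧ (f (t + 2)).pos = (f t).pos}.ncard ≤ w.length

theorem not_turns_of_oneWay (h : OneWay M) (w : List A) (i : ℕ) : ¬ TurnsAt strict M w i := by
  rintro ⟨c, c', c'', _, h1, h2, _, h4⟩
  have key : ∀ c d : Cfg M, Step strict w.length c d → d.pos = c.pos + 1 := by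
    rintro c d ⟨_, q, b, e, hδ, _, _, _, _, _, hr, _⟩
    exact hr (h _ _ _ hδ)
  have h5 := key _ _ h1
  have h6 := key _ _ h2
  omega

theorem sweeping_of_oneWay (h : OneWay M) : Sweeping strict M :=
  fun w _ i _ _ => not_turns_of_oneWay h w i

theorem few_of_sweeping (h : Sweeping strict M) : FewTurns strict M := by
  intro C
  refine ⟨0, fun w hw _ => ?_⟩
  have : IsEmpty {i : ℕ // 1 ≤ i ∧ i ≤ w.length ∧ TurnsAt strict M w i} :=
    ⟨fun i => h w hw i.1 i.2.1 i.2.2.1 i.2.2.2⟩
  rw [Nat.card_of_isEmpty, Nat.mul_zero]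
  exact Nat.zero_le _

theorem Acc.reach (hd : M.Deterministic) {w : List A} {T : ℕ} {f : ℕ → Cfg M}
    (hf : Acc strict M w T f) {c : Cfg M}
    (hc : ReflTransGen (Step strict w.length) (init M w) c) : ∃ t, t ≤ T ∧ f t = c := by
  induction hc with
  | refl => exact ⟨0, Nat.zero_le _, hf.zero⟩
  | @tail b c _ h2 ih =>
    obtain ⟨t, ht, hft⟩ := ih
    have htT : t < T := by
      rcases Nat.lt_or_ge t T with h | h
      · exact h
      · exfalso
        have : t = T := by omega
        subst this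
        have h3 := hf.last
        rw [hft] at h3
        have h4 := h2.1
        omega
    refine ⟨t + 1, htT, ?_⟩
    have h3 := hf.step t htT
    rw [hft] at h3
    exact Step.unique hd h3 h2

theorem few_of_rev (hd : M.Deterministic) (h : FewRev strict M) : FewTurns strict M := by
  intro C
  obtain ⟨n0, hn0⟩ := h C
  refine ⟨n0, fun w hw hl => ?_⟩
  obtain ⟨T, f, hf, hle⟩ := hn0 w hw hl
  refine le_trans (Nat.mul_le_mul_left _ ?_) hle
  have key : ∀ i : {i : ℕ // 1 ≤ i ∧ i ≤ w.length ∧ TurnsAt strict M w i}, ∃ t,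
      t + 2 ≤ T ∧ (f (t + 2)).pos = (f t).pos ∧ (f (t + 1)).pos = i.1 := by
    rintro ⟨i, _, _, c, c', c'', h1, h2, h3, h4, h5⟩
    obtain ⟨t, ht, hft⟩ := hf.reach hd h1
    have hne : ∀ t ≤ T, ∀ d, Step strict w.length (f t) d → t < T ∧ f (t + 1) = d := by
      intro t ht d hd'
      have htT : t < T := by
        rcases Nat.lt_or_ge t T with h | h
        · exact h
        · exfalso
          have : t = T := by omega
          subst this
          have h3 := hf.last
          have h4 := hd'.1
          omega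
      exact ⟨htT, Step.unique hd (hf.step t htT) hd'⟩
    rw [← hft] at h2
    obtain ⟨h6, h7⟩ := hne t ht _ h2
    rw [← h7] at h3
    obtain ⟨h8, h9⟩ := hne (t + 1) h6 _ h3
    refine ⟨t, h8, ?_, ?_⟩
    · rw [h9, h5, hft]
    · rw [h7]
      exact h4
  choose t ht1 ht2 ht3 using key
  have hfin : {t | t + 2 ≤ T ∧ (f (t + 2)).pos = (f t).pos}.Finite :=
    (Set.finite_lt_nat T).subset fun t ht => by
      have := ht.1
      show t < T
      omega
  have := hfin.to_subtype
  have hinj : Function.Injective (fun i : {i : ℕ // 1 ≤ i ∧ i ≤ w.length ∧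
      TurnsAt strict M w i} => (⟨t i, ht1 i, ht2 i⟩ :
        {t | t + 2 ≤ T ∧ (f (t + 2)).pos = (f t).pos})) := by
    intro i j hij
    have h1 : t i = t j := congrArg Subtype.val hij
    apply Subtype.ext
    rw [← ht3 i, ← ht3 j, h1]
  exact Nat.card_le_card_of_injective _ hinj

theorem rev_of_oneWay (h : OneWay M) : FewRev strict M := by
  intro C
  refine ⟨0, fun w hw _ => ?_⟩
  obtain ⟨c, hc, hp, hF⟩ := hw
  have hpath : ∀ c : Cfg M, ReflTransGen (Step strict w.length) (init M w) c →
      ∃ (T : ℕ) (f : ℕ → Cfg M), f 0 = init M w ∧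
        (∀ t, t < T → Step strict w.length (f t) (f (t + 1))) ∧ f T = c := by
    intro c hc
    induction hc with
    | refl => exact ⟨0, fun _ => init M w, rfl, fun t ht => absurd ht (by omega), rfl⟩
    | @tail b c _ h2 ih =>
      obtain ⟨T, f, h0, h1, h3⟩ := ih
      refine ⟨T + 1, fun t => if t ≤ T then f t else c, ?_, ?_, ?_⟩
      · simp [h0]
      · intro t ht
        by_cases h4 : t + 1 ≤ T
        · simp only [if_pos h4, if_pos (show t ≤ T by omega)]
          exact h1 t (by omega)
        · have h5 : t = T := by omega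
          subst h5
          simp only [le_refl, if_true, if_neg h4, h3]
          exact h2
      · simp
  obtain ⟨T, f, h0, h1, h2⟩ := hpath c hc
  refine ⟨T, f, ⟨h0, h1, by rw [h2]; exact hp, by rw [h2]; exact hF⟩, ?_⟩
  have key : ∀ c d : Cfg M, Step strict w.length c d → d.pos = c.pos + 1 := by
    rintro c d ⟨_, q, b, e, hδ, _, _, _, _, _, hr, _⟩
    exact hr (h _ _ _ hδ)
  have hem : {t | t + 2 ≤ T ∧ (f (t + 2)).pos = (f t).pos} = ∅ := by
    refine Set.eq_empty_iff_forall_notMem.2 ?_
    rintro t ⟨h3, h4⟩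
    have h5 := key _ _ (h1 t (by omega))
    have h6 := key _ _ (h1 (t + 1) (by omega))
    have h7 : (f (t + 2)).pos = (f (t + 1)).pos + 1 := h6
    omega
  rw [hem, Set.ncard_empty, Nat.mul_zero]
  exact Nat.zero_le _

end Pool.Agent.N602.FT
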