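import Mathlib
import Pool.Agent.N602.FT.OneWay
import Pool.Agent.N602.FT.BlockWit

set_option autoImplicit false

/-! The cost functions of the classes of machines with few turns. -/

namespace Pool.Agent.N602.FT

open Filter
open Pool.Agent.H630R2.LA Pool.Agent.TH705.LB
open Pool.Agent.Y527.LA (OneWay)

/-- Classes of machines. -/
abbrev Cls : Type 1 := ∀ A : Type, LimAut A → Prop

/-- The least size of a deterministic machine of the class with language `L`. -/
noncomputable def sizeIn (Cl : Cls) (strict : Prop) {A : Type} (L : Set (List A)) : ℕ :=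
  sInf {s | ∃ M : LimAut A, M.Deterministic ∧ Cl A M ∧ M.language strict = L ∧ M.size = s}

/-- The set of the values of `sizeIn` for the languages of the machines of size at most `n`. -/
def costsIn (Cl : Cls) (strict : Prop) (n : ℕ) : Set ℕ :=
  {s | ∃ (A : Type) (_ : Finite A) (M : LimAut A), M.size ≤ n ∧
    s = sizeIn Cl strict (M.language strict)}

/-- The cost function of the class. -/
noncomputable def DIn (Cl : Cls) (strict : Prop) (n : ℕ) : ℕ := sSup (costsIn Cl strict n)

/-- The class contains the deterministic one-way machines, and its deterministic members have few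
turns. -/
structure Adm (Cl : Cls) (strict : Prop) : Prop where
  one : ∀ (A : Type) (M : LimAut A), M.Deterministic → OneWay M → Cl A M
  few : ∀ (A : Type) (M : LimAut A), M.Deterministic → Cl A M → FewTurns strict M

/-- The machine without moves. -/
def trivM : LimAut Empty where
  Q := Unit
  W := Empty
  finQ := inferInstance
  finW := inferInstance
  inp := id
  inp_inj := fun _ _ h => h
  δ := fun _ _ => ∅
  q0 := ()
  F := ∅

theorem size_trivM : trivM.size = 4 := by
  have h : trivM.numTrans = 0 := by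
    unfold LimAut.numTrans
    have : {t : trivM.Q × Sym trivM.W × trivM.Q × trivM.W × Bool |
        t.2.2 ∈ trivM.δ t.1 t.2.1} = ∅ := by
      ext t
      exact ⟨fun h => h, fun h => h⟩
    rw [this, Set.ncard_empty]
  unfold LimAut.size
  rw [h]
  have h1 : Nat.card trivM.Q = 1 := Nat.card_unique (α := Unit)
  have h2 : Nat.card trivM.W = 0 := Nat.card_of_isEmpty (α := Empty)
  have h3 : trivM.F.ncard = 0 := Set.ncard_empty _
  have h4 : Nat.card Empty = 0 := Nat.card_of_isEmpty
  omega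

section bounds

variable {Cl : Cls} {strict : Prop}

theorem sizeIn_le (hCl : Adm Cl strict) {A : Type} [Finite A] (M : LimAut A) :
    sizeIn Cl strict (M.language strict) ≤ 2 ^ 2 ^ (2 * M.size ^ 2) := by
  refine le_trans (Nat.sInf_le ?_) (detOne_size (strict := strict) (M := M))
  exact ⟨detOne strict M, detOne_det, hCl.one _ _ detOne_det detOne_oneWay,
    detOne_language strict, rfl⟩

theorem costsIn_le (hCl : Adm Cl strict) (n s : ℕ) (hs : s ∈ costsIn Cl strict n) :
    s ≤ 2 ^ 2 ^ (2 * n ^ 2) := by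
  obtain ⟨A, hA, M, hM, rfl⟩ := hs
  refine (sizeIn_le hCl M).trans ?_
  have h : 2 * M.size ^ 2 ≤ 2 * n ^ 2 := Nat.mul_le_mul_left _ (Nat.pow_le_pow_left hM 2)
  exact Nat.pow_le_pow_right (by omega) (Nat.pow_le_pow_right (by omega) h)

theorem bddIn (hCl : Adm Cl strict) (n : ℕ) : BddAbove (costsIn Cl strict n) :=
  ⟨_, fun s hs => costsIn_le hCl n s hs⟩

theorem greatest (hCl : Adm Cl strict) (n : ℕ) (hn : 4 ≤ n) :
    IsGreatest (costsIn Cl strict n) (DIn Cl strict n) := by
  have hne : (costsIn Cl strict n).Nonempty :=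
    ⟨_, Empty, inferInstance, trivM, by rw [size_trivM]; exact hn, rfl⟩
  exact ⟨Nat.sSup_mem hne (bddIn hCl n), fun s hs => le_csSup (bddIn hCl n) hs⟩

theorem le_sizeIn (hCl : Adm Cl strict) (m : ℕ) :
    2 ^ 2 ^ (m ^ 2) ≤ sizeIn Cl strict ((bwit m).language strict) ^ 4 := by
  have hne : {s | ∃ M : LimAut (BL Ltr), M.Deterministic ∧ Cl _ M ∧
      M.language strict = (bwit m).language strict ∧ M.size = s}.Nonempty :=
    ⟨_, detOne strict (bwit m), detOne_det, hCl.one _ _ detOne_det detOne_oneWay,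
      detOne_language strict, rfl⟩
  obtain ⟨M, h1, h2, h3, h4⟩ := Nat.sInf_mem hne
  have h5 : M.size = sizeIn Cl strict ((bwit m).language strict) := h4
  rw [← h5]
  have h6 := lower_few m strict M h1 (hCl.few _ M h1 h2) h3
  refine h6.trans ?_
  have h7 : Nat.card M.Q + 3 ≤ M.size := by
    unfold LimAut.size
    omega
  refine le_trans ?_ (Nat.pow_le_pow_left h7 4)
  generalize Nat.card M.Q = q
  have e1 : (q + 3) ^ 4 = (q + 1) ^ 2 + 2 * (q + 1) ^ 3 +
      (q ^ 4 + 10 * q ^ 3 + 47 * q ^ 2 + 100 * q + 78) := by ring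
  rw [e1]
  exact Nat.le_add_right _ _

theorem DIn_lower (hCl : Adm Cl strict) (n : ℕ) (hn : 680000 ≤ n) :
    2 ^ 2 ^ (n ^ 2 / 100000000000) ≤ DIn Cl strict n := by
  obtain ⟨m, hm, h1, h2⟩ : ∃ m, 3 ≤ m ∧ 170000 * (m + 1) ≤ n ∧ n < 170000 * (m + 2) :=
    ⟨n / 170000 - 1, by omega, by omega, by omega⟩
  have hmem : sizeIn Cl strict ((bwit m).language strict) ∈ costsIn Cl strict n :=
    ⟨BL Ltr, inferInstance, bwit m, (size_bwit m).trans h1, rfl⟩
  have h3 : sizeIn Cl strict ((bwit m).language strict) ≤ DIn Cl strict n :=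
    le_csSup (bddIn hCl n) hmem
  refine le_trans ?_ h3
  have h4 := le_sizeIn hCl m
  generalize sizeIn Cl strict ((bwit m).language strict) = s at *
  have h5 : n ^ 2 / 100000000000 + 2 ≤ m ^ 2 := by
    have h6 : n ^ 2 < 100000000000 * (m ^ 2 - 1) := by
      have h7 : n ^ 2 < (170000 * (m + 2)) ^ 2 := Nat.pow_lt_pow_left h2 (by omega)
      refine h7.trans_le ?_
      obtain ⟨r, rfl⟩ : ∃ r, m = 3 + r := ⟨m - 3, by omega⟩
      have h8 : (3 + r) ^ 2 - 1 = 8 + 6 * r + r ^ 2 := by
        have : (3 + r) ^ 2 = 8 + 6 * r + r ^ 2 + 1 := by ring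
        omega
      rw [h8]
      nlinarith [Nat.zero_le r, Nat.zero_le (r ^ 2)]
    have h9 : n ^ 2 / 100000000000 < m ^ 2 - 1 := (Nat.div_lt_iff_lt_mul (by norm_num)).2
      (by rw [mul_comm]; exact h6)
    omega
  have h6 : (2 ^ 2 ^ (n ^ 2 / 100000000000)) ^ 4 ≤ s ^ 4 := by
    refine le_trans ?_ h4
    rw [← pow_mul]
    apply Nat.pow_le_pow_right (by omega)
    have e : 2 ^ (n ^ 2 / 100000000000) * 4 = 2 ^ (n ^ 2 / 100000000000 + 2) := by
      rw [pow_add]
      norm_num
    rw [e]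
    exact Nat.pow_le_pow_right (by omega) h5
  exact (Nat.pow_le_pow_iff_left (by norm_num)).1 h6

theorem ev_pow (k : ℕ) : ∀ᶠ n : ℕ in atTop, (n + 2) ^ k < 2 ^ n := by
  have h1 : (fun n : ℕ => (n : ℝ) ^ k) =o[atTop] fun n : ℕ => (2 : ℝ) ^ n :=
    isLittleO_pow_const_const_pow_of_one_lt k (by norm_num)
  have h2 := h1.comp_tendsto (tendsto_add_atTop_nat 2)
  have h3 := h2.bound (show (0 : ℝ) < 1 / 8 by norm_num)
  filter_upwards [h3] with n hn
  simp only [Function.comp_apply, norm_pow, Real.norm_eq_abs, Nat.abs_cast] at hn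
  have h4 : |(2 : ℝ)| = 2 := abs_of_pos (by norm_num)
  rw [h4, pow_add] at hn
  have h5 : (0 : ℝ) < 2 ^ n := by positivity
  have h6 : ((n + 2 : ℕ) : ℝ) ^ k < 2 ^ n := by linarith
  exact_mod_cast h6

theorem D_le (strict : Prop) (n : ℕ) : D strict n ≤ 2 ^ ((n + 2) ^ 4) := by
  have key : ∀ s ∈ costs strict n, s ≤ 2 ^ ((n + 2) ^ 4) := by
    rintro s ⟨A, hA, M, hM, rfl⟩
    obtain ⟨M', h1, h2, h3⟩ := upper M strict
    have h4 : detSize strict (M.language strict) ≤ M'.size := Nat.sInf_le ⟨M', h1, h2, rfl⟩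
    refine h4.trans (h3.trans ?_)
    exact Nat.pow_le_pow_right (by omega) (Nat.pow_le_pow_left (by omega) 4)
  rcases (costs strict n).eq_empty_or_nonempty with h | h
  · unfold D
    rw [h]
    simp
  · exact key _ (Nat.sSup_mem h ⟨_, key⟩)

theorem separation (hCl : Adm Cl strict) (k : ℕ) :
    ∀ᶠ n : ℕ in atTop, 2 ^ (Nat.log 2 (D strict n) ^ k) < DIn Cl strict n := by
  filter_upwards [ev_pow (4 * k), eventually_ge_atTop 100000000000] with n h1 h2
  refine lt_of_lt_of_le ?_ (DIn_lower hCl n (by omega))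
  apply Nat.pow_lt_pow_right (by norm_num)
  have h3 : Nat.log 2 (D strict n) ≤ (n + 2) ^ 4 := by
    have h4 := Nat.log_mono_right (b := 2) (D_le strict n)
    rwa [Nat.log_pow (by norm_num)] at h4
  calc Nat.log 2 (D strict n) ^ k ≤ ((n + 2) ^ 4) ^ k := Nat.pow_le_pow_left h3 k
    _ = (n + 2) ^ (4 * k) := by rw [pow_mul]
    _ < 2 ^ n := h1
    _ ≤ 2 ^ (n ^ 2 / 100000000000) := by
        apply Nat.pow_le_pow_right (by omega)
        rw [Nat.le_div_iff_mul_le (by norm_num), sq]
        exact Nat.mul_le_mul_left _ h2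

end bounds

end Pool.Agent.N602.FT
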