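import Mathlib
import Pool.Agent.H630R2.LA.Nerode

set_option autoImplicit false

/-!
Grouping: a 1-limited automaton `N` that reads groups of at most `C` letters is simulated by an
automaton that reads the single letters and turns its head at the last cells of the groups of `C`
letters and at the last cell of the input only.
-/

namespace Pool.Agent.N602.FT

open Relation
open Pool.Agent.H630R2.LA

/-- Words of length at most `C`. -/
abbrev Gr (A : Type) (C : ℕ) : Type := {l : List A // l.length ≤ C}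

/-- The empty word. -/
def gnil (A : Type) (C : ℕ) : Gr A C := ⟨[], by simp⟩

/-- One more letter. -/
def gsnoc {A : Type} {C : ℕ} (l : Gr A C) (a : A) (h : l.1.length + 1 ≤ C) : Gr A C :=
  ⟨l.1 ++ [a], by simpa using h⟩

/-- Work symbols: a letter; a visited cell inside a group; the last cell of a group, with the
symbol which `N` writes for the group. -/
inductive GW (A W : Type) : Type
  | raw (a : A) : GW A W
  | bot : GW A W
  | act (w : W) : GW A W

/-- States. In the state `wk q d x` the automaton `N` is in the state `q`, the last move had the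
direction `d`, and `x` is the word that has been read in the present group or, when the right
end-marker has been reached, the symbol which `N` has written for the last group. In the states
`en q pos β` the head is at the right end-marker and the head of `N` is at its right end-marker if
`pos` holds and at the cell of the last group otherwise, and in the state `bo q pos β` the head
makes two moves to get to the state `en q pos β`. -/
inductive GS (A Q W : Type) (C : ℕ) : Type
  | wk (q : Q) (d : Bool) (x : Gr A C ⊕ W) : GS A Q W C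
  | bo (q : Q) (pos : Bool) (β : W) : GS A Q W C
  | en (q : Q) (pos : Bool) (β : W) : GS A Q W C
  | fin : GS A Q W C

variable {A : Type} {C : ℕ}

/-- The moves. -/
inductive GT (strict : Prop) (N : LimAut (Gr A C)) : GS A N.Q N.W C → Sym (GW A N.W) →
    GS A N.Q N.W C → GW A N.W → Bool → Prop
  | rd (q : N.Q) (d : Bool) (l : Gr A C) (a : A) (h : l.1.length + 1 < C) :
      GT strict N (.wk q d (Sum.inl l)) (.sym (.raw a)) (.wk q true (Sum.inl (gsnoc l a h.le)))
        .bot true
  | go (q : N.Q) (d : Bool) (l : Gr A C) (a : A) (h : l.1.length + 1 = C) (q' : N.Q) (b : N.W)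
      (d' : Bool) (hδ : (q', b, d') ∈ N.δ q (.sym (N.inp (gsnoc l a h.le)))) :
      GT strict N (.wk q d (Sum.inl l)) (.sym (.raw a)) (.wk q' d' (Sum.inl (gnil A C)))
        (.act b) d'
  | bot (q : N.Q) (d : Bool) (x : Gr A C ⊕ N.W) :
      GT strict N (.wk q d x) (.sym .bot) (.wk q d x) .bot d
  | act (q : N.Q) (d : Bool) (x : Gr A C ⊕ N.W) (b : N.W) (q' : N.Q) (b' : N.W) (d' : Bool)
      (hδ : (q', b', d') ∈ N.δ q (.sym b)) :
      GT strict N (.wk q d x) (.sym (.act b)) (.wk q' d' x) (.act b') d'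
  | lm (q : N.Q) (d : Bool) (x : Gr A C ⊕ N.W) (q' : N.Q) (b : N.W)
      (hδ : (q', b, true) ∈ N.δ q .lm) :
      GT strict N (.wk q d x) .lm (.wk q' true x) .bot true
  | e1R (q : N.Q) (d : Bool) (l : Gr A C) (q' : N.Q) (b : N.W)
      (hδ : (q', b, true) ∈ N.δ q (.sym (N.inp l))) :
      GT strict N (.wk q d (Sum.inl l)) .rm (.bo q' true b) .bot false
  | e1L (q : N.Q) (d : Bool) (l : Gr A C) (q' : N.Q) (b : N.W)
      (hδ : (q', b, false) ∈ N.δ q (.sym (N.inp l))) :
      GT strict N (.wk q d (Sum.inl l)) .rm (.wk q' false (Sum.inr b)) .bot false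
  | e2R (q : N.Q) (d : Bool) (β : N.W) (q' : N.Q) (h : fz strict N q (.sym β) q' true) :
      GT strict N (.wk q d (Sum.inr β)) .rm (.bo q' true β) .bot false
  | e2L (q : N.Q) (d : Bool) (β : N.W) (q' : N.Q) (h : fz strict N q (.sym β) q' false) :
      GT strict N (.wk q d (Sum.inr β)) .rm (.wk q' false (Sum.inr β)) .bot false
  | e3R (q : N.Q) (β : N.W) (q' : N.Q) (h : fz strict N q (.sym β) q' true) :
      GT strict N (.en q false β) .rm (.bo q' true β) .bot false
  | e3L (q : N.Q) (β : N.W) (q' : N.Q) (h : fz strict N q (.sym β) q' false) :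
      GT strict N (.en q false β) .rm (.wk q' false (Sum.inr β)) .bot false
  | e4 (q : N.Q) (β : N.W) (q' : N.Q) (b : N.W) (hδ : (q', b, false) ∈ N.δ q .rm) :
      GT strict N (.en q true β) .rm (.bo q' false β) .bot false
  | acc (q : N.Q) (β : N.W) (q' : N.Q) (b : N.W) (hδ : (q', b, true) ∈ N.δ q .rm)
      (hq : q' ∈ N.F) : GT strict N (.en q true β) .rm .fin .bot true
  | boB (q : N.Q) (pos : Bool) (β : N.W) :
      GT strict N (.bo q pos β) (.sym .bot) (.en q pos β) .bot true
  | boA (q : N.Q) (pos : Bool) (β : N.W) (b : N.W) :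
      GT strict N (.bo q pos β) (.sym (.act b)) (.en q pos β) (.act b) true
  | boL (q : N.Q) (pos : Bool) (β : N.W) :
      GT strict N (.bo q pos β) .lm (.en q pos β) .bot true

/-- The encoding of the work symbols. -/
def gwCode (A W : Type) : GW A W → Option (A ⊕ W)
  | .raw a => some (Sum.inl a)
  | .bot => none
  | .act w => some (Sum.inr w)

theorem gwCode_inj (A W : Type) : Function.Injective (gwCode A W) := by
  intro x y h
  cases x <;> cases y <;> simp_all [gwCode]

/-- The encoding of the states. -/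
def gsCode (A Q W : Type) (C : ℕ) : GS A Q W C →
    Option ((Q × Bool × (Gr A C ⊕ W)) ⊕ ((Q × Bool × W) ⊕ (Q × Bool × W)))
  | .wk q d x => some (Sum.inl (q, d, x))
  | .bo q p β => some (Sum.inr (Sum.inl (q, p, β)))
  | .en q p β => some (Sum.inr (Sum.inr (q, p, β)))
  | .fin => none

theorem gsCode_inj (A Q W : Type) (C : ℕ) : Function.Injective (gsCode A Q W C) := by
  intro x y h
  cases x <;> cases y <;> simp_all [gsCode]

/-- The encoding of the words of length at most `C`. -/
def grCode (A : Type) (C : ℕ) (l : Gr A C) (i : Fin C) : Option A := l.1[i.1]?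

theorem grCode_inj (A : Type) (C : ℕ) : Function.Injective (grCode A C) := by
  rintro ⟨l, hl⟩ ⟨l', hl'⟩ h
  apply Subtype.ext
  apply List.ext_getElem?
  intro i
  by_cases hi : i < C
  · exact congrFun h ⟨i, hi⟩
  · show l[i]? = l'[i]?
    rw [List.getElem?_eq_none (by omega), List.getElem?_eq_none (by omega)]

instance finiteGr (A : Type) [Finite A] (C : ℕ) : Finite (Gr A C) :=
  Finite.of_injective _ (grCode_inj A C)

theorem card_Gr (A : Type) [Finite A] (C : ℕ) : Nat.card (Gr A C) ≤ (Nat.card A + 1) ^ C := by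
  have h := Nat.card_le_card_of_injective _ (grCode_inj A C)
  rw [Nat.card_fun, Finite.card_option] at h
  simpa using h

instance finiteGW (A W : Type) [Finite A] [Finite W] : Finite (GW A W) :=
  Finite.of_injective _ (gwCode_inj A W)

instance finiteGS (A Q W : Type) (C : ℕ) [Finite A] [Finite Q] [Finite W] :
    Finite (GS A Q W C) := Finite.of_injective _ (gsCode_inj A Q W C)

/-- The automaton that reads single letters. -/
def grpM [Finite A] (strict : Prop) (N : LimAut (Gr A C)) : LimAut A where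
  Q := GS A N.Q N.W C
  W := GW A N.W
  finQ := by
    have := N.finQ
    have := N.finW
    infer_instance
  finW := by
    have := N.finW
    infer_instance
  inp := GW.raw
  inp_inj := by
    intro a b h
    cases h
    rfl
  δ := fun p σ => {x | GT strict N p σ x.1 x.2.1 x.2.2}
  q0 := .wk N.q0 true (Sum.inl (gnil A C))
  F := {.fin}

variable [Finite A] {strict : Prop} {N : LimAut (Gr A C)}

theorem grpM_det (hd : N.Deterministic) : (grpM strict N).Deterministic := by
  rintro P σ ⟨P1, w1, d1⟩ hx ⟨P2, w2, d2⟩ hy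
  have h1 : GT strict N P σ P1 w1 d1 := hx
  have h2 : GT strict N P σ P2 w2 d2 := hy
  cases h1 with
  | rd q d l a h =>
    cases h2 with
    | rd _ _ _ _ h' => rfl
    | go _ _ _ _ h' _ _ _ _ => omega
  | go q d l a h q' b d' hδ =>
    cases h2 with
    | rd _ _ _ _ h' => omega
    | go _ _ _ _ h' q'' b' d'' hδ' =>
      have h3 := hd _ _ hδ hδ'
      simp only [Prod.mk.injEq] at h3
      obtain ⟨rfl, rfl, rfl⟩ := h3
      rfl
  | bot q d x =>
    cases h2
    rfl
  | act q d x b q' b' d' hδ =>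
    cases h2 with
    | act _ _ _ _ q'' b'' d'' hδ' =>
      have h3 := hd _ _ hδ hδ'
      simp only [Prod.mk.injEq] at h3
      obtain ⟨rfl, rfl, rfl⟩ := h3
      rfl
  | lm q d x q' b hδ =>
    cases h2 with
    | lm _ _ _ q'' b'' hδ' =>
      have h3 := hd _ _ hδ hδ'
      simp only [Prod.mk.injEq] at h3
      obtain ⟨rfl, rfl, _⟩ := h3
      rfl
  | e1R q d l q' b hδ =>
    cases h2 with
    | e1R _ _ _ q'' b'' hδ' =>
      have h3 := hd _ _ hδ hδ'
      simp only [Prod.mk.injEq] at h3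
      obtain ⟨rfl, rfl, _⟩ := h3
      rfl
    | e1L _ _ _ q'' b'' hδ' =>
      have h3 := hd _ _ hδ hδ'
      simp only [Prod.mk.injEq] at h3
      exact absurd h3.2.2 (by simp)
  | e1L q d l q' b hδ =>
    cases h2 with
    | e1R _ _ _ q'' b'' hδ' =>
      have h3 := hd _ _ hδ hδ'
      simp only [Prod.mk.injEq] at h3
      exact absurd h3.2.2 (by simp)
    | e1L _ _ _ q'' b'' hδ' =>
      have h3 := hd _ _ hδ hδ'
      simp only [Prod.mk.injEq] at h3
      obtain ⟨rfl, rfl, _⟩ := h3
      rfl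
  | e2R q d β q' h =>
    cases h2 with
    | e2R _ _ _ q'' h' =>
      have h3 := (fz_unique hd h h').1
      subst h3
      rfl
    | e2L _ _ _ q'' h' => exact absurd (fz_unique hd h h').2 (by simp)
  | e2L q d β q' h =>
    cases h2 with
    | e2R _ _ _ q'' h' => exact absurd (fz_unique hd h h').2 (by simp)
    | e2L _ _ _ q'' h' =>
      have h3 := (fz_unique hd h h').1
      subst h3
      rfl
  | e3R q β q' h =>
    cases h2 with
    | e3R _ _ q'' h' =>
      have h3 := (fz_unique hd h h').1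
      subst h3
      rfl
    | e3L _ _ q'' h' => exact absurd (fz_unique hd h h').2 (by simp)
  | e3L q β q' h =>
    cases h2 with
    | e3R _ _ q'' h' => exact absurd (fz_unique hd h h').2 (by simp)
    | e3L _ _ q'' h' =>
      have h3 := (fz_unique hd h h').1
      subst h3
      rfl
  | e4 q β q' b hδ =>
    cases h2 with
    | e4 _ _ q'' b'' hδ' =>
      have h3 := hd _ _ hδ hδ'
      simp only [Prod.mk.injEq] at h3
      obtain ⟨rfl, _, _⟩ := h3
      rfl
    | acc _ _ q'' b'' hδ' _ =>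
      have h3 := hd _ _ hδ hδ'
      simp only [Prod.mk.injEq] at h3
      exact absurd h3.2.2 (by simp)
  | acc q β q' b hδ hq =>
    cases h2 with
    | e4 _ _ q'' b'' hδ' =>
      have h3 := hd _ _ hδ hδ'
      simp only [Prod.mk.injEq] at h3
      exact absurd h3.2.2 (by simp)
    | acc _ _ q'' b'' hδ' _ => rfl
  | boB q pos β =>
    cases h2
    rfl
  | boA q pos β b =>
    cases h2
    rfl
  | boL q pos β =>
    cases h2
    rfl

/-! ### Moves on frozen cells -/

theorem gz_act {p : N.Q} {d : Bool} {x : Gr A C ⊕ N.W} {b : N.W} {P : GS A N.Q N.W C}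
    {d' : Bool} : fz strict (grpM strict N) (.wk p d x) (.sym (.act b)) P d' ↔
      ∃ q, P = .wk q d' x ∧ fz strict N p (.sym b) q d' := by
  constructor
  · rintro ⟨w, h1, h2⟩
    have h1 : GT strict N (.wk p d x) (.sym (.act b)) P w d' := h1
    cases h1 with
    | act _ _ _ _ q b' _ h =>
      refine ⟨q, rfl, b', h, fun hs => ?_⟩
      have h3 := h2 hs
      have h4 : (Sym.sym (GW.act b') : Sym (GW A N.W)) = .sym (.act b) := h3
      simp only [Sym.sym.injEq, GW.act.injEq] at h4
      rw [h4]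
      rfl
  · rintro ⟨q, rfl, b', h, h2⟩
    refine ⟨.act b', GT.act _ _ _ _ _ _ _ h, fun hs => ?_⟩
    have h3 := h2 hs
    have h4 : (Sym.sym b' : Sym N.W) = .sym b := h3
    simp only [Sym.sym.injEq] at h4
    rw [h4]
    rfl

theorem gz_bot {p : N.Q} {d : Bool} {x : Gr A C ⊕ N.W} {P : GS A N.Q N.W C}
    {d' : Bool} : fz strict (grpM strict N) (.wk p d x) (.sym .bot) P d' ↔
      P = .wk p d x ∧ d' = d := by
  constructor
  · rintro ⟨w, h1, h2⟩
    have h1 : GT strict N (.wk p d x) (.sym .bot) P w d' := h1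
    cases h1
    exact ⟨rfl, rfl⟩
  · rintro ⟨rfl, rfl⟩
    exact ⟨.bot, GT.bot _ _ _, fun _ => rfl⟩

theorem gz_lm {p : N.Q} {d : Bool} {x : Gr A C ⊕ N.W} {P : GS A N.Q N.W C}
    {d' : Bool} : fz strict (grpM strict N) (.wk p d x) .lm P d' ↔
      d' = true ∧ ∃ q, P = .wk q true x ∧ fz strict N p .lm q true := by
  constructor
  · rintro ⟨w, h1, h2⟩
    have h1 : GT strict N (.wk p d x) .lm P w d' := h1
    cases h1 with
    | lm _ _ _ q b h => exact ⟨rfl, q, rfl, b, h, fun _ => rfl⟩
  · rintro ⟨rfl, q, rfl, b, h, _⟩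
    exact ⟨.bot, GT.lm _ _ _ _ _ h, fun _ => rfl⟩

/-- The symbols of visited cells and the left end-marker. -/
def Vis (σ : Sym (GW A N.W)) : Prop := σ = .lm ∨ σ = .sym .bot ∨ ∃ b, σ = .sym (.act b)

theorem gz_bo {p : N.Q} {pos : Bool} {β : N.W} {σ : Sym (GW A N.W)} (hσ : Vis σ)
    {P : GS A N.Q N.W C} {d' : Bool} : fz strict (grpM strict N) (.bo p pos β) σ P d' ↔
      P = .en p pos β ∧ d' = true := by
  constructor
  · rintro ⟨w, h1, h2⟩
    have h1 : GT strict N (.bo p pos β) σ P w d' := h1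
    cases h1 <;> exact ⟨rfl, rfl⟩
  · rintro ⟨rfl, rfl⟩
    rcases hσ with rfl | rfl | ⟨b, rfl⟩
    · exact ⟨.bot, GT.boL _ _ _, fun _ => rfl⟩
    · exact ⟨.bot, GT.boB _ _ _, fun _ => rfl⟩
    · exact ⟨.act b, GT.boA _ _ _ _, fun _ => rfl⟩

/-! ### Tables -/

/-- The table `T'` of the automaton for single letters simulates the table `T` of `N`. -/
structure TabG (T' : Set (GS A N.Q N.W C × GS A N.Q N.W C)) (T : Set (N.Q × N.Q)) : Prop where
  wk : ∀ (p : N.Q) (x : Gr A C ⊕ N.W) (y : GS A N.Q N.W C), (.wk p false x, y) ∈ T' ↔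
    ∃ q, y = .wk q true x ∧ (p, q) ∈ T
  bo : ∀ (p : N.Q) (pos : Bool) (β : N.W) (y : GS A N.Q N.W C), (.bo p pos β, y) ∈ T' ↔
    y = .en p pos β

omit [Finite A] in
/-- Chains of loops. -/
theorem gchain_iff {x : Gr A C ⊕ N.W} {C' : GS A N.Q N.W C → GS A N.Q N.W C → Prop}
    {D : N.Q → N.Q → Prop}
    (hC : ∀ p z, C' (.wk p true x) z ↔ ∃ q, z = .wk q true x ∧ D p q) {p : N.Q}
    {z : GS A N.Q N.W C} : ReflTransGen C' (.wk p true x) z ↔
      ∃ q, z = .wk q true x ∧ ReflTransGen D p q := by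
  constructor
  · intro h
    induction h with
    | refl => exact ⟨p, rfl, ReflTransGen.refl⟩
    | tail _ h2 ih =>
      obtain ⟨q, rfl, h3⟩ := ih
      obtain ⟨r, rfl, h4⟩ := (hC _ _).1 h2
      exact ⟨r, rfl, h3.tail h4⟩
  · rintro ⟨q, rfl, h⟩
    induction h with
    | refl => exact ReflTransGen.refl
    | tail _ h2 ih => exact ih.tail ((hC _ _).2 ⟨_, rfl, h2⟩)

theorem gext_bo {T' : Set (GS A N.Q N.W C × GS A N.Q N.W C)} {σ : Sym (GW A N.W)} (hσ : Vis σ)
    (p : N.Q) (pos : Bool) (β : N.W) (y : GS A N.Q N.W C) :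
    (.bo p pos β, y) ∈ ext strict (grpM strict N) T' σ ↔ y = .en p pos β := by
  constructor
  · rintro ⟨s, h1, h2⟩
    rcases ReflTransGen.cases_head h1 with h3 | ⟨c, ⟨r, h3, h4⟩, h5⟩
    · have h5 : (.bo p pos β : GS A N.Q N.W C) = s := h3
      subst h5
      exact ((gz_bo hσ).1 h2).1
    · have h3' : fz strict (grpM strict N) (.bo p pos β) σ r false := h3
      exact absurd ((gz_bo hσ).1 h3').2 (by simp)
  · rintro rfl
    exact mem_ext_right (M := grpM strict N) ((gz_bo hσ).2 ⟨rfl, rfl⟩)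

theorem gext_act {T' : Set (GS A N.Q N.W C × GS A N.Q N.W C)} {T : Set (N.Q × N.Q)}
    (hT : TabG T' T) (b : N.W) (p : N.Q) (d : Bool) (x : Gr A C ⊕ N.W)
    (y : GS A N.Q N.W C) :
    (.wk p d x, y) ∈ ext strict (grpM strict N) T' (.sym (.act b)) ↔
      ∃ q, y = .wk q true x ∧ (p, q) ∈ ext strict N T (.sym b) := by
  have hC : ∀ (d : Bool) (p : N.Q) (z : GS A N.Q N.W C),
      (∃ r, fz strict (grpM strict N) (.wk p d x) (.sym (.act b)) r false ∧ (r, z) ∈ T') ↔
      ∃ q, z = .wk q true x ∧ ∃ r, fz strict N p (.sym b) r false ∧ (r, q) ∈ T := by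
    intro d p z
    constructor
    · rintro ⟨r, h1, h2⟩
      obtain ⟨x', rfl, h3⟩ := gz_act.1 h1
      obtain ⟨q, rfl, h4⟩ := (hT.wk _ _ _).1 h2
      exact ⟨q, rfl, x', h3, h4⟩
    · rintro ⟨q, rfl, x', h3, h4⟩
      exact ⟨.wk x' false x, gz_act.2 ⟨x', rfl, h3⟩, (hT.wk _ _ _).2 ⟨q, rfl, h4⟩⟩
  constructor
  · rintro ⟨s, h1, h2⟩
    rcases ReflTransGen.cases_head h1 with h3 | ⟨c, h3, h4⟩
    · have h5 : (.wk p d x : GS A N.Q N.W C) = s := h3
      subst h5
      obtain ⟨q, h6, h7⟩ := gz_act.1 h2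
      exact ⟨q, h6, mem_ext_right h7⟩
    · obtain ⟨q, rfl, r, h5, h6⟩ := (hC d p c).1 h3
      obtain ⟨q', rfl, h7⟩ := (gchain_iff (hC true)).1 h4
      obtain ⟨q'', h8, h9⟩ := gz_act.1 h2
      exact ⟨q'', h8, mem_ext_loop h5 h6 ⟨q', h7, h9⟩⟩
  · rintro ⟨q, rfl, s, h1, h2⟩
    rcases ReflTransGen.cases_head h1 with h3 | ⟨c, h3, h4⟩
    · have h5 : p = s := h3
      subst h5
      exact mem_ext_right (M := grpM strict N) (gz_act.2 ⟨q, rfl, h2⟩)
    · obtain ⟨r, h5, h6⟩ := (hC d p (.wk c true x)).2 ⟨c, rfl, h3⟩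
      exact mem_ext_loop (M := grpM strict N) h5 h6 ⟨.wk s true x,
        (gchain_iff (hC true)).2 ⟨s, rfl, h4⟩, gz_act.2 ⟨q, rfl, h2⟩⟩

theorem tabG_act {T' : Set (GS A N.Q N.W C × GS A N.Q N.W C)} {T : Set (N.Q × N.Q)}
    (hT : TabG T' T) (b : N.W) :
    TabG (ext strict (grpM strict N) T' (.sym (.act b))) (ext strict N T (.sym b)) :=
  ⟨fun p x y => gext_act hT b p false x y,
    fun p pos β y => gext_bo (Or.inr (Or.inr ⟨b, rfl⟩)) p pos β y⟩

theorem tabG_bot {T' : Set (GS A N.Q N.W C × GS A N.Q N.W C)} {T : Set (N.Q × N.Q)}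
    (hT : TabG T' T) : TabG (ext strict (grpM strict N) T' (.sym .bot)) T := by
  refine ⟨?_, fun p pos β y => gext_bo (Or.inr (Or.inl rfl)) p pos β y⟩
  intro p x y
  constructor
  · rintro ⟨s, h1, h2⟩
    rcases ReflTransGen.cases_head h1 with h3 | ⟨c, ⟨r, h3, h4⟩, h5⟩
    · have h5 : (.wk p false x : GS A N.Q N.W C) = s := h3
      subst h5
      obtain ⟨_, h6⟩ := gz_bot.1 h2
      cases h6
    · have h3' : fz strict (grpM strict N) (.wk p false x) (.sym .bot) r false := h3
      obtain ⟨rfl, _⟩ := gz_bot.1 h3'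
      obtain ⟨q, rfl, h6⟩ := (hT.wk _ _ _).1 h4
      rcases ReflTransGen.cases_head h5 with h7 | ⟨c', ⟨r', h7, _⟩, _⟩
      · have h8 : (.wk q true x : GS A N.Q N.W C) = s := h7
        subst h8
        obtain ⟨h9, _⟩ := gz_bot.1 h2
        exact ⟨q, h9, h6⟩
      · have h7' : fz strict (grpM strict N) (.wk q true x) (.sym .bot) r' false := h7
        obtain ⟨_, h8⟩ := gz_bot.1 h7'
        cases h8
  · rintro ⟨q, rfl, h⟩
    exact mem_ext_loop (M := grpM strict N) (gz_bot.2 ⟨rfl, rfl⟩)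
      ((hT.wk _ _ _).2 ⟨q, rfl, h⟩) (mem_ext_right (gz_bot.2 ⟨rfl, rfl⟩))

theorem tabG_lm {T' : Set (GS A N.Q N.W C × GS A N.Q N.W C)} :
    TabG (ext strict (grpM strict N) T' .lm) (x0 strict N).1 := by
  refine ⟨?_, fun p pos β y => gext_bo (Or.inl rfl) p pos β y⟩
  intro p x y
  constructor
  · rintro ⟨s, h1, h2⟩
    rcases ReflTransGen.cases_head h1 with h3 | ⟨c, ⟨r, h3, h4⟩, h5⟩
    · have h5 : (.wk p false x : GS A N.Q N.W C) = s := h3
      subst h5
      obtain ⟨_, q, h6, h7⟩ := gz_lm.1 h2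
      exact ⟨q, h6, mem_ext_right h7⟩
    · have h3' : fz strict (grpM strict N) (.wk p false x) .lm r false := h3
      obtain ⟨h6, _⟩ := gz_lm.1 h3'
      cases h6
  · rintro ⟨q, rfl, s, h1, h2⟩
    rcases ReflTransGen.cases_head h1 with h3 | ⟨c, ⟨r, h3, h4⟩, h5⟩
    · have h5 : p = s := h3
      subst h5
      exact mem_ext_right (M := grpM strict N) (gz_lm.2 ⟨rfl, q, rfl, h2⟩)
    · exact absurd h4 (Set.notMem_empty _)

/-! ### The right end -/

/-- `N` accepts from the state `q` at the last group or, if `pos` holds, at the right end-marker;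
`T` is the table of the cells before the last group, in which `β` has been written. -/
inductive Acp (strict : Prop) (N : LimAut (Gr A C)) (T : Set (N.Q × N.Q)) (β : N.W) :
    N.Q → Bool → Prop
  | acc (q q' : N.Q) (h : fz strict N q .rm q' true) (hq : q' ∈ N.F) : Acp strict N T β q true
  | back (q q' : N.Q) (h : fz strict N q .rm q' false) (h2 : Acp strict N T β q' false) :
      Acp strict N T β q true
  | fwd (q q' : N.Q) (h : fz strict N q (.sym β) q' true) (h2 : Acp strict N T β q' true) :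
      Acp strict N T β q false
  | loop (q q' s : N.Q) (h : fz strict N q (.sym β) q' false) (hs : (q', s) ∈ T)
      (h2 : Acp strict N T β s false) : Acp strict N T β q false

omit [Finite A] in
theorem acp_true {T : Set (N.Q × N.Q)} {β : N.W} {q : N.Q} :
    Acp strict N T β q true ↔
      ∃ f ∈ N.F, (q, f) ∈ ext strict N (ext strict N T (.sym β)) .rm := by
  constructor
  · intro h
    have key : ∀ (q : N.Q) (pos : Bool), Acp strict N T β q pos →
        (pos = true → ∃ f ∈ N.F, (q, f) ∈ ext strict N (ext strict N T (.sym β)) .rm) ∧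
        (pos = false → ∃ z, (q, z) ∈ ext strict N T (.sym β) ∧
          ∃ f ∈ N.F, (z, f) ∈ ext strict N (ext strict N T (.sym β)) .rm) := by
      intro q pos h
      induction h with
      | acc q q' h hq => exact ⟨fun _ => ⟨q', hq, mem_ext_right h⟩, by simp⟩
      | back q q' h h2 ih =>
        refine ⟨fun _ => ?_, by simp⟩
        obtain ⟨z, h3, f, hf, h4⟩ := ih.2 rfl
        exact ⟨f, hf, mem_ext_loop h h3 h4⟩
      | fwd q q' h h2 ih =>
        refine ⟨by simp, fun _ => ⟨q', mem_ext_right h, ih.1 rfl⟩⟩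
      | loop q q' s h hs h2 ih =>
        refine ⟨by simp, fun _ => ?_⟩
        obtain ⟨z, h3, h4⟩ := ih.2 rfl
        exact ⟨z, mem_ext_loop h hs h3, h4⟩
    exact (key q true h).1 rfl
  · rintro ⟨f, hf, s, h1, h2⟩
    replace h1 : ReflTransGen (fun y z => ∃ r, fz strict N y .rm r false ∧
      (r, z) ∈ ext strict N T (.sym β)) q s := h1
    replace h2 : fz strict N s .rm f true := h2
    induction h1 using ReflTransGen.head_induction_on with
    | refl => exact Acp.acc _ f h2 hf
    | @head a c hac _ ih =>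
      obtain ⟨r, h3, t, h4, h5⟩ := hac
      refine Acp.back a r h3 ?_
      replace h4 : ReflTransGen (fun y z => ∃ r, fz strict N y (.sym β) r false ∧
        (r, z) ∈ T) r t := h4
      replace h5 : fz strict N t (.sym β) c true := h5
      clear h3
      induction h4 using ReflTransGen.head_induction_on with
      | refl => exact Acp.fwd _ c h5 ih
      | @head a' c' hac' _ ih' =>
        obtain ⟨r', h6, h7⟩ := hac'
        exact Acp.loop a' r' c' h6 h7 ih'

theorem acp_end {T' : Set (GS A N.Q N.W C × GS A N.Q N.W C)} {T : Set (N.Q × N.Q)}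
    (hT : TabG T' T) {β : N.W} :
    (∀ (q : N.Q) (pos : Bool), (.en q pos β, .fin) ∈ ext strict (grpM strict N) T' .rm ↔
      Acp strict N T β q pos) ∧
    (∀ q : N.Q, (.wk q true (Sum.inr β), .fin) ∈ ext strict (grpM strict N) T' .rm ↔
      Acp strict N T β q false) := by
  have hfwd : ∀ y : GS A N.Q N.W C, (y, .fin) ∈ ext strict (grpM strict N) T' .rm →
      (∀ q pos, y = .en q pos β → Acp strict N T β q pos) ∧
      (∀ q, y = .wk q true (Sum.inr β) → Acp strict N T β q false) := by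
    rintro y ⟨s, h1, h2⟩
    replace h1 : ReflTransGen (fun y z => ∃ r, fz strict (grpM strict N) y .rm r false ∧
      (r, z) ∈ T') y s := h1
    replace h2 : fz strict (grpM strict N) s .rm .fin true := h2
    induction h1 using ReflTransGen.head_induction_on with
    | refl =>
      obtain ⟨w, h3, _⟩ := h2
      have h3 : GT strict N s .rm .fin w true := h3
      cases h3 with
      | acc q β' q' b hδ hq =>
        refine ⟨?_, fun q hq => by cases hq⟩
        intro q2 pos he
        simp only [GS.en.injEq] at he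
        obtain ⟨rfl, rfl, rfl⟩ := he
        exact Acp.acc _ q' ⟨b, hδ, fun _ => rfl⟩ hq
    | @head a c hac _ ih =>
      obtain ⟨r, ⟨w, h3, _⟩, h4⟩ := hac
      have h3 : GT strict N a .rm r w false := h3
      cases h3 with
      | e1R q d l q' b hδ =>
        refine ⟨?_, ?_⟩
        · intro q pos he
          cases he
        · intro q he
          cases he
      | e1L q d l q' b hδ =>
        refine ⟨?_, ?_⟩
        · intro q pos he
          cases he
        · intro q he
          cases he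
      | e2R q d β' q' h =>
        refine ⟨?_, ?_⟩
        · intro q pos he
          cases he
        · intro q2 he
          simp only [GS.wk.injEq, Sum.inr.injEq] at he
          obtain ⟨rfl, rfl, rfl⟩ := he
          have h5 := (hT.bo _ _ _ _).1 h4
          exact Acp.fwd _ q' h (ih.1 _ _ h5)
      | e2L q d β' q' h =>
        refine ⟨?_, ?_⟩
        · intro q pos he
          cases he
        · intro q2 he
          simp only [GS.wk.injEq, Sum.inr.injEq] at he
          obtain ⟨rfl, rfl, rfl⟩ := he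
          obtain ⟨s', h5, h6⟩ := (hT.wk _ _ _).1 h4
          exact Acp.loop _ q' s' h h6 (ih.2 _ h5)
      | e3R q β' q' h =>
        refine ⟨?_, fun q hq => by cases hq⟩
        intro q2 pos he
        simp only [GS.en.injEq] at he
        obtain ⟨rfl, rfl, rfl⟩ := he
        have h5 := (hT.bo _ _ _ _).1 h4
        exact Acp.fwd _ q' h (ih.1 _ _ h5)
      | e3L q β' q' h =>
        refine ⟨?_, fun q hq => by cases hq⟩
        intro q2 pos he
        simp only [GS.en.injEq] at he
        obtain ⟨rfl, rfl, rfl⟩ := he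
        obtain ⟨s', h5, h6⟩ := (hT.wk _ _ _).1 h4
        exact Acp.loop _ q' s' h h6 (ih.2 _ h5)
      | e4 q β' q' b hδ =>
        refine ⟨?_, fun q hq => by cases hq⟩
        intro q2 pos he
        simp only [GS.en.injEq] at he
        obtain ⟨rfl, rfl, rfl⟩ := he
        have h5 := (hT.bo _ _ _ _).1 h4
        exact Acp.back _ q' ⟨b, hδ, fun _ => rfl⟩ (ih.1 _ _ h5)
  have hbwd : ∀ (q : N.Q) (pos : Bool), Acp strict N T β q pos →
      (.en q pos β, .fin) ∈ ext strict (grpM strict N) T' .rm ∧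
      (pos = false → (.wk q true (Sum.inr β), .fin) ∈ ext strict (grpM strict N) T' .rm) := by
    intro q pos h
    induction h with
    | acc q q' h hq =>
      obtain ⟨b, h3, _⟩ := h
      exact ⟨mem_ext_right (M := grpM strict N) ⟨.bot, GT.acc _ _ _ _ h3 hq, fun _ => rfl⟩,
        by simp⟩
    | back q q' h h2 ih =>
      obtain ⟨b, h3, _⟩ := h
      exact ⟨mem_ext_loop (M := grpM strict N) ⟨.bot, GT.e4 _ _ _ _ h3, fun _ => rfl⟩
        ((hT.bo _ _ _ _).2 rfl) ih.1, by simp⟩
    | fwd q q' h h2 ih =>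
      exact ⟨mem_ext_loop (M := grpM strict N) ⟨.bot, GT.e3R _ _ _ h, fun _ => rfl⟩
        ((hT.bo _ _ _ _).2 rfl) ih.1,
        fun _ => mem_ext_loop (M := grpM strict N) ⟨.bot, GT.e2R _ _ _ _ h, fun _ => rfl⟩
        ((hT.bo _ _ _ _).2 rfl) ih.1⟩
    | loop q q' s h hs h2 ih =>
      exact ⟨mem_ext_loop (M := grpM strict N) ⟨.bot, GT.e3L _ _ _ h, fun _ => rfl⟩
        ((hT.wk _ _ _).2 ⟨s, rfl, hs⟩) (ih.2 rfl),
        fun _ => mem_ext_loop (M := grpM strict N) ⟨.bot, GT.e2L _ _ _ _ h, fun _ => rfl⟩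
        ((hT.wk _ _ _).2 ⟨s, rfl, hs⟩) (ih.2 rfl)⟩
  exact ⟨fun q pos => ⟨fun h => (hfwd _ h).1 q pos rfl, fun h => (hbwd q pos h).1⟩,
    fun q => ⟨fun h => (hfwd _ h).2 q rfl, fun h => (hbwd q false h).2 rfl⟩⟩

/-! ### Steps of the table automata -/

/-- Simulation. -/
def SimG (l : Gr A C) (x' : Set (GS A N.Q N.W C × GS A N.Q N.W C) × GS A N.Q N.W C)
    (x : Set (N.Q × N.Q) × N.Q) : Prop :=
  x'.2 = .wk x.2 true (Sum.inl l) ∧ TabG x'.1 x.1

theorem rd_fwd {l : Gr A C} {a : A} (hl : l.1.length + 1 < C)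
    {x' y' : Set (GS A N.Q N.W C × GS A N.Q N.W C) × GS A N.Q N.W C}
    {x : Set (N.Q × N.Q) × N.Q} (hx : SimG l x' x)
    (h : nstep strict (grpM strict N) (.sym (.raw a)) x' y') : SimG (gsnoc l a hl.le) y' x := by
  obtain ⟨T, p⟩ := x
  have hx1 : x'.2 = .wk p true (Sum.inl l) := hx.1
  obtain ⟨q', b', d', h1, h2, h3, h4⟩ := h
  have h1' : GT strict N x'.2 (.sym (.raw a)) q' b' d' := h1
  rw [hx1] at h1'
  cases h1' with
  | rd _ _ _ _ _ =>
    have h2' : y'.1 = ext strict (grpM strict N) x'.1 (.sym .bot) := h2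
    refine ⟨h3 rfl, ?_⟩
    rw [h2']
    exact tabG_bot hx.2
  | go _ _ _ _ h' _ _ _ _ => omega

theorem rd_bwd {l : Gr A C} (a : A) (hl : l.1.length + 1 < C)
    {x' : Set (GS A N.Q N.W C × GS A N.Q N.W C) × GS A N.Q N.W C}
    {x : Set (N.Q × N.Q) × N.Q} (hx : SimG l x' x) :
    ∃ y', nstep strict (grpM strict N) (.sym (.raw a)) x' y' ∧ SimG (gsnoc l a hl.le) y' x := by
  have hbt : GT strict N x'.2 (.sym (.raw a)) (.wk x.2 true (Sum.inl (gsnoc l a hl.le)))
      .bot true := by
    rw [hx.1]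
    exact GT.rd _ _ _ _ hl
  exact ⟨(ext strict (grpM strict N) x'.1 (.sym .bot), _),
    ⟨_, .bot, true, hbt, rfl, fun _ => rfl, by simp⟩, rfl, tabG_bot hx.2⟩

theorem go_fwd {l : Gr A C} {a : A} (hl : l.1.length + 1 = C)
    {x' y' : Set (GS A N.Q N.W C × GS A N.Q N.W C) × GS A N.Q N.W C}
    {x : Set (N.Q × N.Q) × N.Q} (hx : SimG l x' x)
    (h : nstep strict (grpM strict N) (.sym (.raw a)) x' y') :
    ∃ y, nstep strict N (.sym (N.inp (gsnoc l a hl.le))) x y ∧ SimG (gnil A C) y' y := by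
  obtain ⟨T, p⟩ := x
  have hx1 : x'.2 = .wk p true (Sum.inl l) := hx.1
  obtain ⟨q', b', d', h1, h2, h3, h4⟩ := h
  have h1' : GT strict N x'.2 (.sym (.raw a)) q' b' d' := h1
  rw [hx1] at h1'
  cases h1' with
  | rd _ _ _ _ _ => omega
  | go _ _ _ _ h' q b _ hδ =>
    have h2' : y'.1 = ext strict (grpM strict N) x'.1 (.sym (.act b)) := h2
    cases d'
    · obtain ⟨s, h5, h6⟩ := h4 rfl
      obtain ⟨s', rfl, h7⟩ := (hx.2.wk _ _ _).1 h5
      rw [h2'] at h6
      obtain ⟨t, h8, h9⟩ := (gext_act hx.2 b _ _ _ _).1 h6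
      refine ⟨(ext strict N T (.sym b), t), ⟨q, b, false, hδ, rfl, by simp, fun _ =>
        ⟨s', h7, h9⟩⟩, h8, ?_⟩
      rw [h2']
      exact tabG_act hx.2 b
    · refine ⟨(ext strict N T (.sym b), q), ⟨q, b, true, hδ, rfl, fun _ => rfl, by simp⟩,
        h3 rfl, ?_⟩
      rw [h2']
      exact tabG_act hx.2 b

theorem go_bwd {l : Gr A C} (a : A) (hl : l.1.length + 1 = C)
    {x' : Set (GS A N.Q N.W C × GS A N.Q N.W C) × GS A N.Q N.W C}
    {x y : Set (N.Q × N.Q) × N.Q} (hx : SimG l x' x)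
    (h : nstep strict N (.sym (N.inp (gsnoc l a hl.le))) x y) :
    ∃ y', nstep strict (grpM strict N) (.sym (.raw a)) x' y' ∧ SimG (gnil A C) y' y := by
  obtain ⟨q, b, d, h1, h2, h3, h4⟩ := h
  have h2' : y.1 = ext strict N x.1 (.sym b) := h2
  have hok : TabG (ext strict (grpM strict N) x'.1 (.sym (.act b))) y.1 := by
    rw [h2']
    exact tabG_act hx.2 b
  have hbt : GT strict N x'.2 (.sym (.raw a)) (.wk q d (Sum.inl (gnil A C))) (.act b) d := by
    rw [hx.1]
    exact GT.go _ _ _ _ hl _ _ _ h1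
  refine ⟨(ext strict (grpM strict N) x'.1 (.sym (.act b)),
    .wk y.2 true (Sum.inl (gnil A C))), ⟨_, .act b, d, hbt, rfl, ?_, ?_⟩, rfl, hok⟩
  · rintro rfl
    rw [h3 rfl]
  · rintro rfl
    obtain ⟨s, h5, h6⟩ := h4 rfl
    refine ⟨.wk s true (Sum.inl (gnil A C)), (hx.2.wk _ _ _).2 ⟨s, rfl, h5⟩, ?_⟩
    rw [h2'] at h6
    exact (gext_act hx.2 b _ _ _ _).2 ⟨_, rfl, h6⟩

theorem end_iff {l : Gr A C} {x' : Set (GS A N.Q N.W C × GS A N.Q N.W C) × GS A N.Q N.W C}
    {x : Set (N.Q × N.Q) × N.Q} (hx : SimG l x' x) :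
    finX strict (grpM strict N) x' ↔
      ∃ y, nstep strict N (.sym (N.inp l)) x y ∧ finX strict N y := by
  obtain ⟨T, p⟩ := x
  have hx1 : x'.2 = .wk p true (Sum.inl l) := hx.1
  have hx2 : TabG x'.1 T := hx.2
  have hfin : ∀ y : Set (N.Q × N.Q) × N.Q, finX strict N y ↔
      ∃ f ∈ N.F, (y.2, f) ∈ ext strict N y.1 .rm := by
    intro y
    constructor
    · rintro ⟨z, ⟨q, b, d, h1, h2, h3, h4⟩, hz⟩
      have h2' : z.1 = ext strict N y.1 .rm := h2
      cases d
      · obtain ⟨s, h5, h6⟩ := h4 rfl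
        rw [h2'] at h6
        exact ⟨z.2, hz, mem_ext_loop ⟨b, h1, fun _ => rfl⟩ h5 h6⟩
      · have h5 := h3 rfl
        exact ⟨z.2, hz, mem_ext_right (by rw [h5]; exact ⟨b, h1, fun _ => rfl⟩)⟩
    · rintro ⟨f, hf, s, h1, h2⟩
      rcases ReflTransGen.cases_head h1 with h3 | ⟨c, ⟨r, ⟨b, h3, _⟩, h4⟩, h5⟩
      · have h3 : y.2 = s := h3
        subst h3
        obtain ⟨b, h4, _⟩ := h2
        exact ⟨(ext strict N y.1 .rm, f), ⟨f, b, true, h4, rfl, fun _ => rfl, by simp⟩, hf⟩
      · exact ⟨(ext strict N y.1 .rm, f), ⟨r, b, false, h3, rfl, by simp, fun _ =>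
          ⟨c, h4, s, h5, h2⟩⟩, hf⟩
  constructor
  · rintro ⟨z, ⟨q', b', d', h1, h2, h3, h4⟩, hz⟩
    have h1' : GT strict N x'.2 .rm q' b' d' := h1
    have hz' : z.2 = .fin := hz
    have h2' : z.1 = ext strict (grpM strict N) x'.1 .rm := h2
    rw [hx1] at h1'
    cases h1' with
    | e1R _ _ _ q b hδ =>
      obtain ⟨s, h5, h6⟩ := h4 rfl
      have h7 := (hx2.bo _ _ _ _).1 h5
      subst h7
      rw [h2', hz', (acp_end hx2).1, acp_true] at h6
      refine ⟨(ext strict N T (.sym b), q), ⟨q, b, true, hδ, rfl, fun _ => rfl, by simp⟩, ?_⟩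
      rw [hfin]
      exact h6
    | e1L _ _ _ q b hδ =>
      obtain ⟨s, h5, h6⟩ := h4 rfl
      obtain ⟨s', rfl, h7⟩ := (hx2.wk _ _ _).1 h5
      rw [h2', hz', (acp_end hx2).2] at h6
      have key : ∀ (s : N.Q), Acp strict N T b s false → ∃ z, (s, z) ∈ ext strict N T (.sym b) ∧
          Acp strict N T b z true := by
        intro s h
        have key2 : ∀ (q : N.Q) (pos : Bool), Acp strict N T b q pos → pos = false →
            ∃ z, (q, z) ∈ ext strict N T (.sym b) ∧ Acp strict N T b z true := by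
          intro q pos h
          induction h with
          | acc q q' h hq => intro h; cases h
          | back q q' h h2 ih => intro h; cases h
          | fwd q q' h h2 ih => exact fun _ => ⟨q', mem_ext_right h, h2⟩
          | loop q q' s h hs h2 ih =>
            intro _
            obtain ⟨z, h3, h4⟩ := ih rfl
            exact ⟨z, mem_ext_loop h hs h3, h4⟩
        exact key2 s false h rfl
      obtain ⟨z2, h8, h9⟩ := key s' h6
      rw [acp_true] at h9
      refine ⟨(ext strict N T (.sym b), z2), ⟨q, b, false, hδ, rfl, by simp, fun _ =>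
        ⟨s', h7, h8⟩⟩, ?_⟩
      rw [hfin]
      exact h9
  · rintro ⟨y, ⟨q, b, d, h1, h2, h3, h4⟩, hy⟩
    rw [hfin] at hy
    have h2' : y.1 = ext strict N T (.sym b) := h2
    rw [h2', ← acp_true] at hy
    cases d
    · obtain ⟨s, h5, h6⟩ := h4 rfl
      have hbt : GT strict N x'.2 .rm (.wk q false (Sum.inr b)) .bot false := by
        rw [hx1]
        exact GT.e1L _ _ _ _ _ h1
      refine ⟨(ext strict (grpM strict N) x'.1 .rm, .fin), ⟨_, .bot, false, hbt, rfl, by simp,
        fun _ => ⟨.wk s true (Sum.inr b), (hx2.wk _ _ _).2 ⟨s, rfl, h5⟩, ?_⟩⟩, rfl⟩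
      rw [h2'] at h6
      refine ((acp_end hx2).2 s).2 ?_
      obtain ⟨t, h7, h8⟩ := h6
      replace h7 : ReflTransGen (fun y z => ∃ r, fz strict N y (.sym b) r false ∧
        (r, z) ∈ T) s t := h7
      replace h8 : fz strict N t (.sym b) y.2 true := h8
      clear h5 hbt
      induction h7 using ReflTransGen.head_induction_on with
      | refl => exact Acp.fwd _ _ h8 hy
      | @head a' c' hac' _ ih' =>
        obtain ⟨r', h9, h10⟩ := hac'
        exact Acp.loop a' r' c' h9 h10 ih'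
    · have h5 := h3 rfl
      rw [h5] at hy
      have hbt : GT strict N x'.2 .rm (.bo q true b) .bot false := by
        rw [hx1]
        exact GT.e1R _ _ _ _ _ h1
      exact ⟨(ext strict (grpM strict N) x'.1 .rm, .fin), ⟨_, .bot, false, hbt, rfl, by simp,
        fun _ => ⟨.en q true b, (hx2.bo _ _ _ _).2 rfl, ((acp_end hx2).1 q true).2 hy⟩⟩, rfl⟩

/-! ### Words -/

theorem runs_rd_fwd (l2 : List A) : ∀ (l : Gr A C) (h : l.1.length + l2.length < C)
    {x' y' : Set (GS A N.Q N.W C × GS A N.Q N.W C) × GS A N.Q N.W C}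
    {x : Set (N.Q × N.Q) × N.Q}, SimG l x' x → runs strict (grpM strict N) l2 x' y' →
    SimG (⟨l.1 ++ l2, by rw [List.length_append]; exact h.le⟩ : Gr A C) y' x := by
  induction l2 with
  | nil =>
    intro l h x' y' x hx hr
    have h1 : x' = y' := hr
    subst h1
    have e : (⟨l.1 ++ [], by rw [List.length_append]; exact h.le⟩ : Gr A C) = l :=
      Subtype.ext (List.append_nil _)
    rw [e]
    exact hx
  | cons a l2 ih =>
    intro l h x' y' x hx hr
    simp only [List.length_cons] at h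
    obtain ⟨z', h1, h2⟩ := hr
    have h3 := rd_fwd (a := a) (show l.1.length + 1 < C by omega) hx h1
    have h4 := ih (gsnoc l a (by omega)) (by
      show (l.1 ++ [a]).length + l2.length < C
      simp only [List.length_append, List.length_singleton]
      omega) h3 h2
    have e : (⟨l.1 ++ (a :: l2), by rw [List.length_append, List.length_cons]; omega⟩ :
        Gr A C) = ⟨(gsnoc l a (by omega)).1 ++ l2, by
          show ((l.1 ++ [a]) ++ l2).length ≤ C
          simp only [List.length_append, List.length_singleton]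
          omega⟩ :=
      Subtype.ext (by
        show l.1 ++ (a :: l2) = (l.1 ++ [a]) ++ l2
        simp)
    rw [e]
    exact h4

theorem runs_rd_bwd (l2 : List A) : ∀ (l : Gr A C) (h : l.1.length + l2.length < C)
    {x' : Set (GS A N.Q N.W C × GS A N.Q N.W C) × GS A N.Q N.W C}
    {x : Set (N.Q × N.Q) × N.Q}, SimG l x' x → ∃ y', runs strict (grpM strict N) l2 x' y' ∧
    SimG (⟨l.1 ++ l2, by rw [List.length_append]; exact h.le⟩ : Gr A C) y' x := by
  induction l2 with
  | nil =>
    intro l h x' x hx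
    have e : (⟨l.1 ++ [], by rw [List.length_append]; exact h.le⟩ : Gr A C) = l :=
      Subtype.ext (List.append_nil _)
    rw [e]
    exact ⟨x', rfl, hx⟩
  | cons a l2 ih =>
    intro l h x' x hx
    simp only [List.length_cons] at h
    obtain ⟨z', h1, h3⟩ := rd_bwd (strict := strict) a (show l.1.length + 1 < C by omega) hx
    obtain ⟨y', h4, h5⟩ := ih (gsnoc l a (by omega)) (by
      show (l.1 ++ [a]).length + l2.length < C
      simp only [List.length_append, List.length_singleton]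
      omega) h3
    have e : (⟨l.1 ++ (a :: l2), by rw [List.length_append, List.length_cons]; omega⟩ :
        Gr A C) = ⟨(gsnoc l a (by omega)).1 ++ l2, by
          show ((l.1 ++ [a]) ++ l2).length ≤ C
          simp only [List.length_append, List.length_singleton]
          omega⟩ :=
      Subtype.ext (by
        show l.1 ++ (a :: l2) = (l.1 ++ [a]) ++ l2
        simp)
    rw [e]
    exact ⟨y', ⟨z', h1, h4⟩, h5⟩

/-- A full group. -/
theorem runs_grp_fwd (hC : 1 ≤ C) (g : Gr A C) (hg : g.1.length = C)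
    {x' y' : Set (GS A N.Q N.W C × GS A N.Q N.W C) × GS A N.Q N.W C}
    {x : Set (N.Q × N.Q) × N.Q} (hx : SimG (gnil A C) x' x)
    (h : runs strict (grpM strict N) g.1 x' y') :
    ∃ y, nstep strict N (.sym (N.inp g)) x y ∧ SimG (gnil A C) y' y := by
  obtain ⟨g, hgC⟩ := g
  rcases List.eq_nil_or_concat' g with rfl | ⟨l, a, rfl⟩
  · simp at hg
    omega
  · simp only [List.length_append, List.length_singleton] at hg
    rw [runs_append] at h
    obtain ⟨z', h1, z'', h2, h3⟩ := h
    have h3 : z'' = y' := h3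
    subst h3
    have h4 := runs_rd_fwd l (gnil A C) (by show 0 + l.length < C; omega) hx h1
    obtain ⟨y, h5, h6⟩ := go_fwd (by show ([] ++ l).length + 1 = C; simpa using hg) h4 h2
    exact ⟨y, h5, h6⟩

theorem runs_grp_bwd (hC : 1 ≤ C) (g : Gr A C) (hg : g.1.length = C)
    {x' : Set (GS A N.Q N.W C × GS A N.Q N.W C) × GS A N.Q N.W C}
    {x y : Set (N.Q × N.Q) × N.Q} (hx : SimG (gnil A C) x' x)
    (h : nstep strict N (.sym (N.inp g)) x y) :
    ∃ y', runs strict (grpM strict N) g.1 x' y' ∧ SimG (gnil A C) y' y := by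
  obtain ⟨g, hgC⟩ := g
  rcases List.eq_nil_or_concat' g with rfl | ⟨l, a, rfl⟩
  · simp at hg
    omega
  · simp only [List.length_append, List.length_singleton] at hg
    obtain ⟨z', h1, h4⟩ := runs_rd_bwd (strict := strict) l (gnil A C)
      (by show 0 + l.length < C; omega) hx
    obtain ⟨y', h5, h6⟩ := go_bwd a (by show ([] ++ l).length + 1 = C; simpa using hg) h4 h
    exact ⟨y', (runs_append _ _ _ _).2 ⟨z', h1, y', h5, rfl⟩, h6⟩

theorem runs_grps_fwd (hC : 1 ≤ C) (gs : List (Gr A C)) :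
    ∀ (_ : ∀ g ∈ gs, g.1.length = C)
    {x' y' : Set (GS A N.Q N.W C × GS A N.Q N.W C) × GS A N.Q N.W C}
    {x : Set (N.Q × N.Q) × N.Q}, SimG (gnil A C) x' x →
    runs strict (grpM strict N) (gs.flatMap Subtype.val) x' y' →
    ∃ y, runs strict N gs x y ∧ SimG (gnil A C) y' y := by
  induction gs with
  | nil =>
    intro _ x' y' x hx h
    have h1 : x' = y' := h
    subst h1
    exact ⟨x, rfl, hx⟩
  | cons g gs ih =>
    intro hg x' y' x hx h
    rw [List.flatMap_cons, runs_append] at h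
    obtain ⟨z', h1, h2⟩ := h
    obtain ⟨z, h3, h4⟩ := runs_grp_fwd hC g (hg g List.mem_cons_self) hx h1
    obtain ⟨y, h5, h6⟩ := ih (fun g' hg' => hg g' (List.mem_cons_of_mem _ hg')) h4 h2
    exact ⟨y, ⟨z, h3, h5⟩, h6⟩

theorem runs_grps_bwd (hC : 1 ≤ C) (gs : List (Gr A C)) :
    ∀ (_ : ∀ g ∈ gs, g.1.length = C)
    {x' : Set (GS A N.Q N.W C × GS A N.Q N.W C) × GS A N.Q N.W C}
    {x y : Set (N.Q × N.Q) × N.Q}, SimG (gnil A C) x' x → runs strict N gs x y →
    ∃ y', runs strict (grpM strict N) (gs.flatMap Subtype.val) x' y' ∧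
      SimG (gnil A C) y' y := by
  induction gs with
  | nil =>
    intro _ x' x y hx h
    have h1 : x = y := h
    subst h1
    exact ⟨x', rfl, hx⟩
  | cons g gs ih =>
    intro hg x' x y hx h
    obtain ⟨z, h1, h2⟩ := h
    obtain ⟨z', h3, h4⟩ := runs_grp_bwd hC g (hg g List.mem_cons_self) hx h1
    obtain ⟨y', h5, h6⟩ := ih (fun g' hg' => hg g' (List.mem_cons_of_mem _ hg')) h4 h2
    refine ⟨y', ?_, h6⟩
    rw [List.flatMap_cons]
    exact (runs_append _ _ _ _).2 ⟨z', h3, h5⟩

/-- The language of the automaton for single letters. -/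
theorem mem_grpM (hC : 1 ≤ C) (gs : List (Gr A C)) (hg : ∀ g ∈ gs, g.1.length = C)
    (r : Gr A C) (hr : r.1.length < C) :
    gs.flatMap Subtype.val ++ r.1 ∈ (grpM strict N).language strict ↔
      gs ++ [r] ∈ N.language strict := by
  have hx : SimG (gnil A C) (x0 strict (grpM strict N)) (x0 strict N) := ⟨rfl, tabG_lm⟩
  rw [mem_language_runs, mem_language_runs]
  constructor
  · rintro ⟨y', h1, h2⟩
    rw [runs_append] at h1
    obtain ⟨z', h3, h4⟩ := h1
    obtain ⟨z, h5, h6⟩ := runs_grps_fwd hC gs hg hx h3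
    have h7 := runs_rd_fwd r.1 (gnil A C) (by show 0 + r.1.length < C; omega) h6 h4
    have e : (⟨(gnil A C).1 ++ r.1, by
        show ([] ++ r.1).length ≤ C
        simpa using hr.le⟩ : Gr A C) = r := Subtype.ext rfl
    rw [e] at h7
    obtain ⟨y, h8, h9⟩ := (end_iff h7).1 h2
    exact ⟨y, (runs_append _ _ _ _).2 ⟨z, h5, y, h8, rfl⟩, h9⟩
  · rintro ⟨y, h1, h2⟩
    rw [runs_append] at h1
    obtain ⟨z, h3, w, h4, h5⟩ := h1
    have h5 : w = y := h5
    subst h5
    obtain ⟨z', h6, h7⟩ := runs_grps_bwd hC gs hg hx h3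
    obtain ⟨y', h8, h9⟩ := runs_rd_bwd (strict := strict) r.1 (gnil A C)
      (by show 0 + r.1.length < C; omega) h7
    have e : (⟨(gnil A C).1 ++ r.1, by
        show ([] ++ r.1).length ≤ C
        simpa using hr.le⟩ : Gr A C) = r := Subtype.ext rfl
    rw [e] at h9
    exact ⟨y', (runs_append _ _ _ _).2 ⟨z', h6, h8⟩, (end_iff h9).2 ⟨w, h4, h2⟩⟩

end Pool.Agent.N602.FT
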