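import Mathlib
import Pool.Agent.N602.FT.Group
import Pool.Agent.N602.FT.Replace

set_option autoImplicit false

/-! The cells in which the automaton for single letters turns. -/

namespace Pool.Agent.N602.FT

open Relation
open Pool.Agent.H630R2.LA

variable {A : Type} {C : ℕ} [Finite A] {strict : Prop} {N : LimAut (Gr A C)}

/-- The invariant for the state, the position `p` and the number `m` of visited cells. -/
def StOK (n m : ℕ) : GS A N.Q N.W C → ℕ → Prop
  | .wk _ _ (Sum.inl l), p => m ≤ n ∧ m % C = l.1.length ∧ l.1.length < C ∧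
      (l.1.length = 0 ∨ p = m + 1)
  | .wk _ _ (Sum.inr _), _ => m = n + 1
  | .bo _ _ _, p => m = n + 1 ∧ p = n
  | .en _ _ _, p => m = n + 1 ∧ p = n + 1
  | .fin, p => m = n + 1 ∧ p = n + 2

/-- The invariant. -/
structure GInv (w : List A) (c : Cfg (grpM strict N)) (m : ℕ) : Prop where
  hm : m ≤ w.length + 1
  seen : ∀ i, 1 ≤ i → (i ∈ c.seen ↔ i ≤ m)
  raw : ∀ i, m < i → c.tape i = initTape (grpM strict N) w i
  pos : c.pos ≤ m + 1
  lm : c.tape 0 = .lm
  old : ∀ i, 1 ≤ i → i ≤ m → i ≤ w.length →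
    (C ∣ i ∧ ∃ b, c.tape i = .sym (.act b)) ∨ (¬ C ∣ i ∧ c.tape i = .sym .bot)
  rm : c.tape (w.length + 1) = .rm
  st : StOK w.length m c.state c.pos

/-- What the scanned symbol can be. -/
theorem GInv.cell {w : List A} {c : Cfg (grpM strict N)} {m : ℕ} (h : GInv w c m)
    (hp : c.pos ≤ w.length + 1) :
    (c.pos = 0 ∧ c.tape c.pos = .lm) ∨
    (1 ≤ c.pos ∧ c.pos ≤ m ∧ c.pos ≤ w.length ∧
      ((C ∣ c.pos ∧ ∃ b, c.tape c.pos = .sym (.act b)) ∨
        (¬ C ∣ c.pos ∧ c.tape c.pos = .sym .bot))) ∨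
    (c.pos = w.length + 1 ∧ c.tape c.pos = .rm) ∨
    (c.pos = m + 1 ∧ c.pos ≤ w.length ∧ ∃ a, c.tape c.pos = .sym (.raw a)) := by
  rcases Nat.eq_zero_or_pos c.pos with h0 | h0
  · left
    exact ⟨h0, by rw [h0]; exact h.lm⟩
  · rcases Nat.lt_or_ge w.length c.pos with h1 | h1
    · right; right; left
      have h2 : c.pos = w.length + 1 := by omega
      exact ⟨h2, by rw [h2]; exact h.rm⟩
    · rcases Nat.lt_or_ge m c.pos with h2 | h2
      · right; right; right
        have h3 := h.pos
        refine ⟨by omega, h1, ?_⟩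
        rw [h.raw _ h2]
        obtain ⟨j, hj⟩ : ∃ j, c.pos = j + 1 := ⟨c.pos - 1, by omega⟩
        rw [hj]
        have h4 : w[j]? = some w[j] := List.getElem?_eq_getElem (by omega)
        refine ⟨w[j], ?_⟩
        simp only [initTape, h4]
        rfl
      · right; left
        exact ⟨h0, h2, h1, h.old _ h0 h2 h1⟩

/-- A move on a visited cell or on an end-marker that does not change the number `m`. -/
theorem GInv.keep {w : List A} {c : Cfg (grpM strict N)} {m : ℕ} (h : GInv w c m)
    (_hp : c.pos ≤ w.length + 1) (hseen : c.pos = 0 ∨ c.pos ≤ m)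
    (q : GS A N.Q N.W C) (b : GW A N.W) (d : Bool)
    (hpos : (if d then c.pos + 1 else c.pos - 1) ≤ m + 1)
    (hst : StOK w.length m q (if d then c.pos + 1 else c.pos - 1)) :
    GInv w (nxt c q b d) m := by
  classical
  have htape : (nxt c q b d).tape = c.tape := by
    unfold nxt
    dsimp only
    by_cases hs : c.pos ∈ c.seen
    · rw [if_pos hs]
    · rw [if_neg hs]
      have h0 : c.pos = 0 := by
        rcases hseen with h0 | h0
        · exact h0
        · by_contra h1
          exact hs ((h.seen _ (by omega)).2 h0)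
      rw [h0, h.lm]
      funext i
      by_cases hi : i = 0
      · rw [hi, Function.update_self, h.lm]
        rfl
      · rw [Function.update_of_ne hi]
  have hsn : ∀ i, 1 ≤ i → (i ∈ (nxt c q b d).seen ↔ i ≤ m) := by
    intro i hi
    unfold nxt
    dsimp only
    rw [Set.mem_insert_iff, h.seen i hi]
    constructor
    · rintro (h1 | h1)
      · rcases hseen with h0 | h0 <;> omega
      · exact h1
    · exact Or.inr
  exact ⟨h.hm, hsn, fun i hi => by rw [htape]; exact h.raw i hi, hpos,
    by rw [htape]; exact h.lm, fun i h1 h2 h3 => by rw [htape]; exact h.old i h1 h2 h3,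
    by rw [htape]; exact h.rm, hst⟩

/-- The first visit of a cell. -/
theorem GInv.new {w : List A} {c : Cfg (grpM strict N)} {m : ℕ} (h : GInv w c m)
    (hp : c.pos = m + 1) (hn : c.pos ≤ w.length + 1)
    (q : GS A N.Q N.W C) (b : GW A N.W) (d : Bool)
    (hold : c.pos ≤ w.length →
      (C ∣ c.pos ∧ ∃ b', (c.tape c.pos).rewrite b = .sym (.act b')) ∨
        (¬ C ∣ c.pos ∧ (c.tape c.pos).rewrite b = .sym .bot))
    (hst : StOK w.length (m + 1) q (if d then c.pos + 1 else c.pos - 1)) :
    GInv w (nxt c q b d) (m + 1) := by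
  classical
  have hs : c.pos ∉ c.seen := by
    rw [h.seen _ (by omega)]
    omega
  have htape : (nxt c q b d).tape = Function.update c.tape c.pos ((c.tape c.pos).rewrite b) := by
    unfold nxt
    dsimp only
    rw [if_neg hs]
  refine ⟨by omega, ?_, ?_, ?_, ?_, ?_, ?_, hst⟩
  · intro i hi
    unfold nxt
    dsimp only
    rw [Set.mem_insert_iff, h.seen i hi]
    omega
  · intro i hi
    rw [htape, Function.update_of_ne (by omega)]
    exact h.raw i (by omega)
  · show (if d then c.pos + 1 else c.pos - 1) ≤ m + 1 + 1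
    cases d
    · simp only [Bool.false_eq_true, if_false]
      omega
    · simp only [if_true]
      omega
  · rw [htape, Function.update_of_ne (by omega)]
    exact h.lm
  · intro i h1 h2 h3
    rw [htape]
    by_cases hi : i = c.pos
    · rw [hi, Function.update_self]
      exact hold (by omega)
    · rw [Function.update_of_ne hi]
      exact h.old i h1 (by omega) h3
  · rw [htape]
    by_cases hi : w.length + 1 = c.pos
    · have h2 : c.tape c.pos = .rm := by
        rw [← hi]
        exact h.rm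
      rw [hi, Function.update_self, h2]
      rfl
    · rw [Function.update_of_ne hi]
      exact h.rm

theorem ginv_init (w : List A) (hC : 1 ≤ C) : GInv w (init (grpM strict N) w) 0 := by
  refine ⟨by omega, ?_, fun _ _ => rfl, le_refl _, rfl, ?_, ?_, ?_⟩
  · intro i hi
    show i ∈ (∅ : Set ℕ) ↔ _
    simp only [Set.mem_empty_iff_false, false_iff]
    omega
  · intro i h1 h2
    omega
  · show initTape (grpM strict N) w (w.length + 1) = .rm
    simp only [initTape, List.getElem?_eq_none (le_refl w.length)]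
  · show StOK w.length 0 (.wk N.q0 true (Sum.inl (gnil A C))) 1
    exact ⟨Nat.zero_le _, Nat.zero_mod _, hC, Or.inl rfl⟩

theorem ginv_step {w : List A} {c c' : Cfg (grpM strict N)} {m : ℕ} (h : GInv w c m)
    (hs : Step strict w.length c c') : ∃ m', GInv w c' m' := by
  rw [step_iff] at hs
  obtain ⟨hle, P, b, d, hδ, _, hd, rfl⟩ := hs
  have hbt : GT strict N c.state (c.tape c.pos) P b d := hδ
  have hcell := h.cell hle
  have hst := h.st
  generalize hσ : c.tape c.pos = σ at hbt hcell
  generalize hq : c.state = q at hbt hst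
  cases hbt with
  | rd q d l a hl =>
    obtain ⟨g1, g2, g3, g4⟩ := hst
    have hp : c.pos = m + 1 ∧ c.pos ≤ w.length := by
      rcases hcell with ⟨_, hc⟩ | ⟨_, _, _, ⟨_, _, hc⟩ | ⟨_, hc⟩⟩ | ⟨_, hc⟩ | ⟨hc1, hc2, _⟩
      · cases hc
      · cases hc
      · cases hc
      · cases hc
      · exact ⟨hc1, hc2⟩
    have e : (m + 1) % C = l.1.length + 1 := by
      rw [Nat.add_mod, g2]
      have h1 : 1 % C = 1 := Nat.mod_eq_of_lt (by omega)
      rw [h1, Nat.mod_eq_of_lt hl]
    refine ⟨m + 1, h.new hp.1 hle _ _ _ ?_ ?_⟩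
    · intro _
      right
      refine ⟨?_, by rw [hσ]; rfl⟩
      rw [hp.1, Nat.dvd_iff_mod_eq_zero, e]
      omega
    · refine ⟨by omega, ?_, ?_, Or.inr ?_⟩
      · rw [e]
        show l.1.length + 1 = (l.1 ++ [a]).length
        simp
      · show (l.1 ++ [a]).length < C
        simpa using hl
      · simp only [if_true]
        omega
  | go q d l a hl q' b d' hδ' =>
    obtain ⟨g1, g2, g3, g4⟩ := hst
    have hp : c.pos = m + 1 ∧ c.pos ≤ w.length := by
      rcases hcell with ⟨_, hc⟩ | ⟨_, _, _, ⟨_, _, hc⟩ | ⟨_, hc⟩⟩ | ⟨_, hc⟩ | ⟨hc1, hc2, _⟩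
      · cases hc
      · cases hc
      · cases hc
      · cases hc
      · exact ⟨hc1, hc2⟩
    have e : C ∣ m + 1 := by
      have h1 := Nat.div_add_mod m C
      rw [g2] at h1
      refine ⟨m / C + 1, ?_⟩
      rw [Nat.mul_add, Nat.mul_one]
      omega
    refine ⟨m + 1, h.new hp.1 hle _ _ _ ?_ ?_⟩
    · intro _
      left
      exact ⟨by rw [hp.1]; exact e, b, by rw [hσ]; rfl⟩
    · exact ⟨by omega, Nat.mod_eq_zero_of_dvd e, by show 0 < C; omega, Or.inl rfl⟩
  | bot q d x =>
    have hp : 1 ≤ c.pos ∧ c.pos ≤ m ∧ c.pos ≤ w.length := by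
      rcases hcell with ⟨_, hc⟩ | ⟨h1, h2, h3, _⟩ | ⟨_, hc⟩ | ⟨_, _, _, hc⟩
      · cases hc
      · exact ⟨h1, h2, h3⟩
      · cases hc
      · cases hc
    refine ⟨m, h.keep hle (Or.inr hp.2.1) _ _ _ ?_ ?_⟩
    · cases d
      · simp only [Bool.false_eq_true, if_false]
        omega
      · simp only [if_true]
        omega
    · rcases x with l | β
      · obtain ⟨g1, g2, g3, g4⟩ := hst
        exact ⟨g1, g2, g3, Or.inl (by omega)⟩
      · exact hst
  | act q d x b q' b' d' hδ' =>
    have hp : 1 ≤ c.pos ∧ c.pos ≤ m ∧ c.pos ≤ w.length := by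
      rcases hcell with ⟨_, hc⟩ | ⟨h1, h2, h3, _⟩ | ⟨_, hc⟩ | ⟨_, _, _, hc⟩
      · cases hc
      · exact ⟨h1, h2, h3⟩
      · cases hc
      · cases hc
    refine ⟨m, h.keep hle (Or.inr hp.2.1) _ _ _ ?_ ?_⟩
    · split_ifs <;> omega
    · rcases x with l | β
      · obtain ⟨g1, g2, g3, g4⟩ := hst
        exact ⟨g1, g2, g3, Or.inl (by omega)⟩
      · exact hst
  | lm q d x q' b hδ' =>
    have hp : c.pos = 0 := by
      rcases hcell with ⟨h1, _⟩ | ⟨_, _, _, ⟨_, _, hc⟩ | ⟨_, hc⟩⟩ | ⟨_, hc⟩ | ⟨_, _, _, hc⟩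
      · exact h1
      · cases hc
      · cases hc
      · cases hc
      · cases hc
    refine ⟨m, h.keep hle (Or.inl hp) _ _ _ ?_ ?_⟩
    · simp only [if_true]
      omega
    · rcases x with l | β
      · obtain ⟨g1, g2, g3, g4⟩ := hst
        exact ⟨g1, g2, g3, Or.inl (by omega)⟩
      · exact hst
  | e1R q d l q' b hδ' =>
    obtain ⟨g1, g2, g3, g4⟩ := hst
    have hp : c.pos = w.length + 1 := by
      rcases hcell with ⟨_, hc⟩ | ⟨_, _, _, ⟨_, _, hc⟩ | ⟨_, hc⟩⟩ | ⟨h1, _⟩ | ⟨_, _, _, hc⟩
      · cases hc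
      · cases hc
      · cases hc
      · exact h1
      · cases hc
    have h2 := h.pos
    refine ⟨m + 1, h.new (by omega) hle _ _ _ (fun h3 => by omega) ?_⟩
    exact ⟨by omega, by simp only [Bool.false_eq_true, if_false]; omega⟩
  | e1L q d l q' b hδ' =>
    obtain ⟨g1, g2, g3, g4⟩ := hst
    have hp : c.pos = w.length + 1 := by
      rcases hcell with ⟨_, hc⟩ | ⟨_, _, _, ⟨_, _, hc⟩ | ⟨_, hc⟩⟩ | ⟨h1, _⟩ | ⟨_, _, _, hc⟩
      · cases hc
      · cases hc
      · cases hc
      · exact h1
      · cases hc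
    have h2 := h.pos
    refine ⟨m + 1, h.new (by omega) hle _ _ _ (fun h3 => by omega) ?_⟩
    show m + 1 = w.length + 1
    omega
  | e2R q d β q' hf =>
    have g : m = w.length + 1 := hst
    have hp : c.pos = w.length + 1 := by
      rcases hcell with ⟨_, hc⟩ | ⟨_, _, _, ⟨_, _, hc⟩ | ⟨_, hc⟩⟩ | ⟨h1, _⟩ | ⟨_, _, _, hc⟩
      · cases hc
      · cases hc
      · cases hc
      · exact h1
      · cases hc
    refine ⟨m, h.keep hle (Or.inr (by omega)) _ _ _ ?_ ?_⟩
    · simp only [Bool.false_eq_true, if_false]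
      omega
    · exact ⟨by omega, by simp only [Bool.false_eq_true, if_false]; omega⟩
  | e2L q d β q' hf =>
    have g : m = w.length + 1 := hst
    have hp : c.pos = w.length + 1 := by
      rcases hcell with ⟨_, hc⟩ | ⟨_, _, _, ⟨_, _, hc⟩ | ⟨_, hc⟩⟩ | ⟨h1, _⟩ | ⟨_, _, _, hc⟩
      · cases hc
      · cases hc
      · cases hc
      · exact h1
      · cases hc
    refine ⟨m, h.keep hle (Or.inr (by omega)) _ _ _ ?_ g⟩
    simp only [Bool.false_eq_true, if_false]
    omega
  | e3R q β q' hf =>
    obtain ⟨g, hp⟩ := hst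
    refine ⟨m, h.keep hle (Or.inr (by omega)) _ _ _ ?_ ?_⟩
    · simp only [Bool.false_eq_true, if_false]
      omega
    · exact ⟨by omega, by simp only [Bool.false_eq_true, if_false]; omega⟩
  | e3L q β q' hf =>
    obtain ⟨g, hp⟩ := hst
    refine ⟨m, h.keep hle (Or.inr (by omega)) _ _ _ ?_ g⟩
    simp only [Bool.false_eq_true, if_false]
    omega
  | e4 q β q' b hδ' =>
    obtain ⟨g, hp⟩ := hst
    refine ⟨m, h.keep hle (Or.inr (by omega)) _ _ _ ?_ ?_⟩
    · simp only [Bool.false_eq_true, if_false]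
      omega
    · exact ⟨by omega, by simp only [Bool.false_eq_true, if_false]; omega⟩
  | acc q β q' b hδ' hq =>
    obtain ⟨g, hp⟩ := hst
    refine ⟨m, h.keep hle (Or.inr (by omega)) _ _ _ ?_ ?_⟩
    · simp only [if_true]
      omega
    · exact ⟨by omega, by simp only [if_true]; omega⟩
  | boB q pos β =>
    obtain ⟨g, hp⟩ := hst
    refine ⟨m, h.keep hle (Or.inr (by omega)) _ _ _ ?_ ?_⟩
    · simp only [if_true]
      omega
    · exact ⟨by omega, by simp only [if_true]; omega⟩
  | boA q pos β b =>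
    obtain ⟨g, hp⟩ := hst
    refine ⟨m, h.keep hle (Or.inr (by omega)) _ _ _ ?_ ?_⟩
    · simp only [if_true]
      omega
    · exact ⟨by omega, by simp only [if_true]; omega⟩
  | boL q pos β =>
    obtain ⟨g, hp⟩ := hst
    refine ⟨m, h.keep hle (Or.inr (by omega)) _ _ _ ?_ ?_⟩
    · simp only [if_true]
      omega
    · exact ⟨by omega, by simp only [if_true]; omega⟩

theorem ginv {w : List A} (hC : 1 ≤ C) {c : Cfg (grpM strict N)}
    (hc : ReflTransGen (Step strict w.length) (init (grpM strict N) w) c) :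
    ∃ m, GInv w c m := by
  induction hc with
  | refl => exact ⟨0, ginv_init w hC⟩
  | tail _ h2 ih =>
    obtain ⟨m, hm⟩ := ih
    exact ginv_step hm h2

omit [Finite A] in
/-- The direction stored in a state is the direction of the last move. -/
theorem GT.dir {P : GS A N.Q N.W C} {σ : Sym (GW A N.W)} {q : N.Q} {e : Bool}
    {x : Gr A C ⊕ N.W} {b : GW A N.W} {d : Bool} (h : GT strict N P σ (.wk q e x) b d) :
    d = e := by
  cases h <;> rfl

theorem turns_grpM (hC : 1 ≤ C) {w : List A} {i : ℕ} (hi1 : 1 ≤ i) (hi2 : i ≤ w.length)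
    (ht : TurnsAt strict (grpM strict N) w i) : C ∣ i ∨ i = w.length := by
  obtain ⟨c, c', c'', h1, h2, h3, h4, h5⟩ := ht
  obtain ⟨m, hm⟩ := ginv hC (h1.tail h2)
  have hst := hm.st
  have hcell := hm.cell (by omega)
  have hcs : c.pos ∈ c'.seen := by
    obtain ⟨_, _, _, _, _, _, _, _, _, h6, _, _⟩ := h2
    rw [h6]
    exact Set.mem_insert _ _
  rw [step_iff] at h2 h3
  obtain ⟨_, P1, b1, d1, hδ1, _, _, e1⟩ := h2
  obtain ⟨_, P2, b2, d2, hδ2, _, _, e2⟩ := h3
  have hg1 : GT strict N c.state (c.tape c.pos) P1 b1 d1 := hδ1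
  have hg2 : GT strict N c'.state (c'.tape c'.pos) P2 b2 d2 := hδ2
  have hP1 : c'.state = P1 := by rw [e1]; rfl
  have hp1 : c'.pos = if d1 then c.pos + 1 else c.pos - 1 := by rw [e1]; rfl
  have hp2 : c''.pos = if d2 then c'.pos + 1 else c'.pos - 1 := by rw [e2]; rfl
  have hdd : d1 ≠ d2 := by
    rintro rfl
    cases d1
    · simp only [Bool.false_eq_true, if_false] at hp1 hp2
      omega
    · simp only [if_true] at hp1 hp2
      omega
  rw [← h4] at hi1 hi2 ⊢
  rcases hcell with ⟨hc1, _⟩ | ⟨_, _, _, ⟨hc1, _⟩ | ⟨_, hc1⟩⟩ | ⟨hc1, _⟩ | ⟨hc1, _, a, hc2⟩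
  · omega
  · exact Or.inl hc1
  · -- a passive cell
    rw [hc1] at hg2
    generalize hq : c'.state = q at hg2 hst
    rw [hP1] at hq
    subst hq
    cases hg2 with
    | bot q d x => exact absurd (GT.dir hg1) hdd
    | boB q pos β => exact Or.inr hst.2
  · omega
  · -- a cell that has not been visited
    rw [hc2] at hg2
    generalize hq : c'.state = q at hg2 hst
    cases hg2 with
    | rd q d l a hl =>
      exfalso
      have h6 : d1 = false := by
        cases d1
        · rfl
        · exact absurd rfl hdd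
      subst h6
      simp only [Bool.false_eq_true, if_false] at hp1
      have h7 := (hm.seen c.pos (by omega)).1 hcs
      omega
    | go q d l a hl q' b d' hδ' =>
      left
      obtain ⟨g1, g2, g3, g4⟩ := hst
      have h1 := Nat.div_add_mod m C
      rw [g2] at h1
      refine ⟨m / C + 1, ?_⟩
      rw [Nat.mul_add, Nat.mul_one]
      omega

/-- The number of turning cells. -/
theorem card_turns_grpM (hC : 1 ≤ C) (w : List A) :
    Nat.card {i : ℕ // 1 ≤ i ∧ i ≤ w.length ∧ TurnsAt strict (grpM strict N) w i} ≤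
      w.length / C + 1 := by
  classical
  have key : ∀ i : {i : ℕ // 1 ≤ i ∧ i ≤ w.length ∧ TurnsAt strict (grpM strict N) w i},
      C ∣ i.1 → i.1 / C - 1 < w.length / C := by
    rintro ⟨i, h1, h2, _⟩ ⟨k, hk⟩
    dsimp only at hk ⊢
    have h3 : i / C ≤ w.length / C := Nat.div_le_div_right h2
    have h4 : i / C = k := by
      rw [hk]
      exact Nat.mul_div_cancel_left k (by omega)
    have h5 : 1 ≤ k := by
      rcases Nat.eq_zero_or_pos k with h | h
      · rw [h, Nat.mul_zero] at hk
        omega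
      · exact h
    omega
  let f : {i : ℕ // 1 ≤ i ∧ i ≤ w.length ∧ TurnsAt strict (grpM strict N) w i} →
      Option (Fin (w.length / C)) := fun i =>
    if h : C ∣ i.1 then some ⟨i.1 / C - 1, key i h⟩ else none
  have hf : Function.Injective f := by
    intro i j hij
    by_cases hi : C ∣ i.1
    · by_cases hj : C ∣ j.1
      · simp only [f, dif_pos hi, dif_pos hj, Option.some.injEq, Fin.mk.injEq] at hij
        obtain ⟨k, hk⟩ := hi
        obtain ⟨l, hl⟩ := hj
        have h1 := i.2.1
        have h2 := j.2.1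
        rw [hk, hl, Nat.mul_div_cancel_left k (by omega), Nat.mul_div_cancel_left l (by omega)]
          at hij
        have h3 : 1 ≤ k := by
          rcases Nat.eq_zero_or_pos k with h | h
          · rw [h, Nat.mul_zero] at hk
            omega
          · exact h
        have h4 : 1 ≤ l := by
          rcases Nat.eq_zero_or_pos l with h | h
          · rw [h, Nat.mul_zero] at hl
            omega
          · exact h
        have h5 : k = l := by omega
        exact Subtype.ext (by rw [hk, hl, h5])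
      · simp only [f, dif_pos hi, dif_neg hj] at hij
        cases hij
    · by_cases hj : C ∣ j.1
      · simp only [f, dif_neg hi, dif_pos hj] at hij
        cases hij
      · have h1 := turns_grpM hC i.2.1 i.2.2.1 i.2.2.2
        have h2 := turns_grpM hC j.2.1 j.2.2.1 j.2.2.2
        exact Subtype.ext ((h1.resolve_left hi).trans (h2.resolve_left hj).symm)
  have h := Nat.card_le_card_of_injective f hf
  rw [Finite.card_option] at h
  simpa using h

end Pool.Agent.N602.FT
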