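import Mathlib
import Pool.Agent.R620.KV.Comb
import Pool.Agent.N602.FT.GroupTurns
import Pool.Agent.N602.FT.Cost

set_option autoImplicit false

/-! Small deterministic machines that turn at a small fraction of the cells. -/

namespace Pool.Agent.N602.FT

open Relation
open Pool.Agent.H630R2.LA
open Pool.Agent.R620.KV (Rn comb_nfa)

/-- The head turns at at most `|w| / C + 1` cells of the input `w`. -/
def TurnsLe (C : ℕ) (strict : Prop) {A : Type} (M : LimAut A) : Prop :=
  ∀ w : List A, Nat.card {i : ℕ // 1 ≤ i ∧ i ≤ w.length ∧ TurnsAt strict M w i} ≤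
    w.length / C + 1

section sizes

variable {A : Type} [Finite A] {C : ℕ} {strict : Prop}

theorem card_GS (N : LimAut (Gr A C)) : Nat.card (GS A N.Q N.W C) ≤
    1 + 2 * Nat.card N.Q * (Nat.card (Gr A C) + 3 * Nat.card N.W) := by
  have := N.finQ
  have := N.finW
  have h := Nat.card_le_card_of_injective _ (gsCode_inj A N.Q N.W C)
  have h3 : Nat.card Bool = 2 := by simp
  rw [Finite.card_option, Nat.card_sum, Nat.card_sum, Nat.card_prod, Nat.card_prod,
    Nat.card_prod, Nat.card_prod, Nat.card_sum, h3] at h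
  refine h.trans (le_of_eq ?_)
  ring

theorem card_GW (W : Type) [Finite W] : Nat.card (GW A W) ≤ Nat.card A + Nat.card W + 1 := by
  have h := Nat.card_le_card_of_injective _ (gwCode_inj A W)
  rw [Finite.card_option, Nat.card_sum] at h
  exact h

theorem size_grpM (N : LimAut (Gr A C)) (hd : N.Deterministic) (P G : ℕ)
    (hQ : Nat.card N.Q ≤ P) (hW : Nat.card N.W = 3 * Nat.card (Gr A C) + 1)
    (hG : Nat.card (Gr A C) ≤ G) (hA : Nat.card A ≤ G) (hG1 : 1 ≤ G) (hP1 : 1 ≤ P) :
    (grpM strict N).size ≤ 2048 * (P * (G * G)) := by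
  have := N.finQ
  have := N.finW
  have h1 := numTrans_le (grpM strict N) (grpM_det hd)
  have e1 : Nat.card (grpM strict N).Q ≤
      1 + 2 * Nat.card N.Q * (Nat.card (Gr A C) + 3 * Nat.card N.W) := card_GS N
  have e2 : Nat.card (grpM strict N).W ≤ Nat.card A + Nat.card N.W + 1 := card_GW N.W
  have e3 : (grpM strict N).F.ncard = 1 := Set.ncard_singleton _
  have e4 : Nat.card (grpM strict N).Q ≤ 27 * (P * G) := by
    have h2 : 2 * Nat.card N.Q * (Nat.card (Gr A C) + 3 * Nat.card N.W) ≤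
        2 * P * (13 * G) := Nat.mul_le_mul (by omega) (by omega)
    have h3 : 2 * P * (13 * G) = 26 * (P * G) := by ring
    have h4 : 1 ≤ P * G := Nat.mul_pos hP1 hG1
    omega
  have e5 : Nat.card (grpM strict N).W + 2 ≤ 8 * G := by omega
  have e6 : (grpM strict N).numTrans ≤ 216 * (P * (G * G)) := by
    refine h1.trans ((Nat.mul_le_mul e4 e5).trans (le_of_eq ?_))
    ring
  have e7 : G ≤ P * (G * G) := by
    calc G ≤ G * G := Nat.le_mul_of_pos_left _ hG1
      _ ≤ P * (G * G) := Nat.le_mul_of_pos_left _ hP1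
  have e8 : P * G ≤ P * (G * G) := Nat.mul_le_mul_left _ (Nat.le_mul_of_pos_left _ hG1)
  unfold LimAut.size
  rw [e3]
  omega

end sizes

theorem rn_iff {A : Type} {C : ℕ} {strict : Prop} {M : LimAut A} (P : Set (M.Q × M.Q) × M.Q → Prop)
    (gs : List (Gr A C)) : ∀ o : Option (Set (M.Q × M.Q) × M.Q),
    (∃ y, Rn (fun (g : Gr A C) (o : Option (Set (M.Q × M.Q) × M.Q)) y =>
      runs strict M g.1 (o.getD (x0 strict M)) y) gs o y ∧ P (y.getD (x0 strict M))) ↔
    ∃ z, runs strict M (gs.flatMap Subtype.val) (o.getD (x0 strict M)) z ∧ P z := by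
  induction gs with
  | nil =>
    intro o
    constructor
    · rintro ⟨y, h1, h2⟩
      have h1 : o = y := h1
      subst h1
      exact ⟨_, rfl, h2⟩
    · rintro ⟨z, h1, h2⟩
      have h1 : o.getD (x0 strict M) = z := h1
      exact ⟨o, rfl, by rw [h1]; exact h2⟩
  | cons g gs ih =>
    intro o
    rw [List.flatMap_cons]
    constructor
    · rintro ⟨y, ⟨z, h1, h2⟩, h3⟩
      obtain ⟨z', h4, h5⟩ := (ih (some z)).1 ⟨y, h2, h3⟩
      exact ⟨z', (runs_append _ _ _ _).2 ⟨z, h1, h4⟩, h5⟩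
    · rintro ⟨z', h1, h2⟩
      rw [runs_append] at h1
      obtain ⟨z, h3, h4⟩ := h1
      obtain ⟨y, h5, h6⟩ := (ih (some z)).2 ⟨z', h4, h2⟩
      exact ⟨y, ⟨z, h3, h5⟩, h6⟩

/-- Every word is a sequence of groups. -/
theorem exists_groups {A : Type} {C : ℕ} (hC : 1 ≤ C) (w : List A) :
    ∃ (gs : List (Gr A C)) (r : Gr A C), (∀ g ∈ gs, g.1.length = C) ∧ r.1.length < C ∧
      w = gs.flatMap Subtype.val ++ r.1 := by
  induction hw : w.length using Nat.strong_induction_on generalizing w with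
  | _ n ih =>
    rcases Nat.lt_or_ge w.length C with h | h
    · exact ⟨[], ⟨w, h.le⟩, fun g hg => absurd hg List.not_mem_nil, h, by simp⟩
    · obtain ⟨gs, r, h1, h2, h3⟩ := ih (w.drop C).length (by
        rw [List.length_drop]
        omega) (w.drop C) rfl
      refine ⟨⟨w.take C, by rw [List.length_take]; exact Nat.min_le_left _ _⟩ :: gs, r, ?_,
        h2, ?_⟩
      · intro g hg
        rcases List.mem_cons.1 hg with rfl | hg
        · show (w.take C).length = C
          rw [List.length_take]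
          exact Nat.min_eq_left h
        · exact h1 g hg
      · rw [List.flatMap_cons, List.append_assoc, ← h3]
        exact (List.take_append_drop C w).symm

/-- **Deterministic machines that turn at at most `|w| / C + 1` cells.** -/
theorem exists_sparse {A : Type} [Finite A] (M : LimAut A) (strict : Prop) {C : ℕ} (hC : 1 ≤ C) :
    ∃ M' : LimAut A, M'.Deterministic ∧ M'.language strict = M.language strict ∧
      TurnsLe C strict M' ∧ M'.size ≤ 2 ^ ((M.size + 2) ^ 4 + 2 * C * M.size) := by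
  have := M.finQ
  have hq : Nat.card M.Q + Nat.card A + 3 ≤ M.size := by
    unfold LimAut.size
    omega
  have hq1 : 1 ≤ Nat.card M.Q := by
    have : Nonempty M.Q := ⟨M.q0⟩
    exact Nat.card_pos
  generalize hn : M.size = n at *
  have hcard : ∑ _i : Fin 1, Nat.card (Set (M.Q × M.Q) × M.Q) + 1 ≤ 2 ^ (n ^ 2) := by
    simp only [Finset.univ_unique, Finset.sum_const, Finset.card_singleton, one_smul]
    rw [card_table]
    calc 2 ^ (Nat.card M.Q * Nat.card M.Q) * Nat.card M.Q + 1
        ≤ 2 ^ (Nat.card M.Q * Nat.card M.Q) * Nat.card M.Q +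
          2 ^ (Nat.card M.Q * Nat.card M.Q) := by
          have := Nat.one_le_two_pow (n := Nat.card M.Q * Nat.card M.Q)
          omega
      _ = 2 ^ (Nat.card M.Q * Nat.card M.Q) * (Nat.card M.Q + 1) := by ring
      _ ≤ 2 ^ (Nat.card M.Q * Nat.card M.Q) * 2 ^ (Nat.card M.Q) :=
          Nat.mul_le_mul_left _ Nat.lt_two_pow_self
      _ = 2 ^ (Nat.card M.Q * Nat.card M.Q + Nat.card M.Q) := by rw [pow_add]
      _ ≤ 2 ^ (n ^ 2) := by
          apply Nat.pow_le_pow_right (by omega)
          nlinarith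
  obtain ⟨N, h1, h2, h3, h4, _, _⟩ := comb_nfa (A := Gr A C) (n := 1)
    (fun _ => Set (M.Q × M.Q) × M.Q)
    (fun _ (g : Gr A C) (o : Option (Set (M.Q × M.Q) × M.Q)) y =>
      runs strict M g.1 (o.getD (x0 strict M)) y)
    (fun _ o => finX strict M (o.getD (x0 strict M))) (fun P => P 0) (n ^ 2) (by nlinarith) hcard
  refine ⟨grpM strict N, grpM_det h1, ?_, fun w => card_turns_grpM hC w, ?_⟩
  · ext w
    obtain ⟨gs, r, k1, k2, k3⟩ := exists_groups hC w
    rw [k3, mem_grpM hC gs k1 r k2, h2, rn_iff (finX strict M) (gs ++ [r]) none,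
      mem_language_runs]
    have e : (gs ++ [r]).flatMap Subtype.val = gs.flatMap Subtype.val ++ r.1 := by
      simp
    rw [e]
    rfl
  · have hA1 : Nat.card A + 1 ≤ 2 ^ n := by
      have : n < 2 ^ n := Nat.lt_two_pow_self
      omega
    have hG : Nat.card (Gr A C) ≤ 2 ^ (n * C) := by
      refine (card_Gr A C).trans ?_
      rw [pow_mul]
      exact Nat.pow_le_pow_left hA1 C
    have hA : Nat.card A ≤ 2 ^ (n * C) := by
      have h5 : 2 ^ n ≤ 2 ^ (n * C) := Nat.pow_le_pow_right (by omega)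
        (Nat.le_mul_of_pos_right _ hC)
      omega
    have h5 := size_grpM (strict := strict) N h1 _ _ h3 h4 hG hA Nat.one_le_two_pow
      Nat.one_le_two_pow
    refine h5.trans ?_
    have e : 2048 * (2 ^ ((n ^ 2) ^ 2 + 6 * n ^ 2 + 8 + 1) * (2 ^ (n * C) * 2 ^ (n * C))) =
        2 ^ ((n ^ 2) ^ 2 + 6 * n ^ 2 + 20 + (n * C + n * C)) := by
      have : (n ^ 2) ^ 2 + 6 * n ^ 2 + 20 + (n * C + n * C) =
          11 + (((n ^ 2) ^ 2 + 6 * n ^ 2 + 8 + 1) + (n * C + n * C)) := by ring
      rw [this, pow_add 2 11, pow_add 2 _ (n * C + n * C), pow_add 2 (n * C)]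
      norm_num
    rw [e]
    apply Nat.pow_le_pow_right (by omega)
    have e2 : n * C + n * C = 2 * C * n := by ring
    rw [e2]
    have h6 : (n ^ 2) ^ 2 + 6 * n ^ 2 + 20 ≤ (n + 2) ^ 4 := by
      have h7 : (n + 2) ^ 4 = (n ^ 2) ^ 2 + 6 * n ^ 2 + 20 +
          (8 * n ^ 3 + 18 * n ^ 2 + 32 * n) - 4 := by
        have : (n + 2) ^ 4 + 4 = (n ^ 2) ^ 2 + 6 * n ^ 2 + 20 +
          (8 * n ^ 3 + 18 * n ^ 2 + 32 * n) := by ring
        omega
      rw [h7]
      omega
    omega

end Pool.Agent.N602.FT
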