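import Mathlib
import Pool.Agent.N602.FT.Sparse

set_option autoImplicit false

/-! The cost function of the machines that turn at at most `|w| / C + 1` cells. -/

namespace Pool.Agent.N602.FT

open Pool.Agent.H630R2.LA

/-- The class of the machines that turn at at most `|w| / C + 1` cells. -/
def turnsCls (C : ℕ) (strict : Prop) : Cls := fun _ M => TurnsLe C strict M

section

variable {C : ℕ} {strict : Prop}

theorem sizeIn_sparse (hC : 1 ≤ C) {A : Type} [Finite A] (M : LimAut A) :
    sizeIn (turnsCls C strict) strict (M.language strict) ≤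
      2 ^ ((M.size + 2) ^ 4 + 2 * C * M.size) := by
  obtain ⟨M', h1, h2, h3, h4⟩ := exists_sparse M strict hC
  exact le_trans (Nat.sInf_le ⟨M', h1, h3, h2, rfl⟩) h4

theorem costs_sparse (hC : 1 ≤ C) (n s : ℕ) (hs : s ∈ costsIn (turnsCls C strict) strict n) :
    s ≤ 2 ^ ((n + 2) ^ 4 + 2 * C * n) := by
  obtain ⟨A, hA, M, hM, rfl⟩ := hs
  refine (sizeIn_sparse hC M).trans ?_
  have h1 : (M.size + 2) ^ 4 ≤ (n + 2) ^ 4 := Nat.pow_le_pow_left (by omega) 4
  have h2 : 2 * C * M.size ≤ 2 * C * n := Nat.mul_le_mul_left _ hM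
  exact Nat.pow_le_pow_right (by omega) (by omega)

theorem greatest_sparse (hC : 1 ≤ C) (n : ℕ) (hn : 4 ≤ n) :
    IsGreatest (costsIn (turnsCls C strict) strict n) (DIn (turnsCls C strict) strict n) := by
  have hne : (costsIn (turnsCls C strict) strict n).Nonempty :=
    ⟨_, Empty, inferInstance, trivM, by rw [size_trivM]; exact hn, rfl⟩
  have hb : BddAbove (costsIn (turnsCls C strict) strict n) :=
    ⟨_, fun s hs => costs_sparse hC n s hs⟩
  exact ⟨Nat.sSup_mem hne hb, fun s hs => le_csSup hb hs⟩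

theorem D_le_sparse (hC : 1 ≤ C) (n : ℕ) : D strict n ≤ DIn (turnsCls C strict) strict n := by
  have hb : BddAbove (costsIn (turnsCls C strict) strict n) :=
    ⟨_, fun s hs => costs_sparse hC n s hs⟩
  rcases (costs strict n).eq_empty_or_nonempty with h | h
  · unfold D
    rw [h]
    simp
  · refine csSup_le h ?_
    rintro s ⟨A, hA, M, hM, rfl⟩
    refine le_trans ?_ (le_csSup hb ⟨A, hA, M, hM, rfl⟩)
    have hne : {s | ∃ M' : LimAut A, M'.Deterministic ∧ turnsCls C strict A M' ∧
        M'.language strict = M.language strict ∧ M'.size = s}.Nonempty := by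
      obtain ⟨M', h1, h2, h3, _⟩ := exists_sparse M strict hC
      exact ⟨_, M', h1, h3, h2, rfl⟩
    obtain ⟨M', h1, _, h3, h4⟩ := Nat.sInf_mem hne
    exact Nat.sInf_le ⟨M', h1, h3, h4⟩

end

end Pool.Agent.N602.FT
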