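import Mathlib
import Pool.Agent.N602.FT.Compl

set_option autoImplicit false

/-!
Computations are cut at a boundary with few trips and glued together.
-/

namespace Pool.Agent.N602.FT

open Relation
open Pool.Agent.H630R2.LA
open Pool.Agent.R620.KV

variable {A : Type} {strict : Prop} {M : LimAut A}

/-- The left part `x` provides at least the trips in the label. -/
def LeftOK (strict : Prop) (M : LimAut A) (x : List A) (l : Set (M.Q × M.Q) × M.Q) : Prop :=
  ∃ R, l.1 ⊆ R ∧ runs strict M x (x0 strict M) (R, l.2)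

/-- The right part `y` is accepted if at least the trips in the label are provided. -/
def RightOK (strict : Prop) (M : LimAut A) (y : List A) (l : Set (M.Q × M.Q) × M.Q) : Prop :=
  ∀ R, l.1 ⊆ R → ∃ z, runs strict M y (R, l.2) z ∧ finX strict M z

theorem paste {x y : List A} {l : Set (M.Q × M.Q) × M.Q} (h1 : LeftOK strict M x l)
    (h2 : RightOK strict M y l) : x ++ y ∈ M.language strict := by
  obtain ⟨R, h3, h4⟩ := h1
  obtain ⟨z, h5, h6⟩ := h2 R h3
  rw [mem_language_runs]
  exact ⟨z, (runs_append _ _ _ _).2 ⟨_, h4, h5⟩, h6⟩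

theorem segment {w : List A} {T : ℕ} {f : ℕ → Cfg M} (hf : IsComp strict M w T f)
    (hT : (f T).pos = w.length + 2) (b : List A) :
    ∀ (a c : List A), w = a ++ b ++ c → ∀ (R : Set (M.Q × M.Q)), trips T f a.length ⊆ R →
      ∀ t0, t0 ≤ T → (f t0).pos = a.length + 1 → (∀ r, r < t0 → (f r).pos ≤ a.length) →
      ∃ R1 t1, trips T f (a.length + b.length) ⊆ R1 ∧ t1 ≤ T ∧
        (f t1).pos = a.length + b.length + 1 ∧ (∀ r, r < t1 → (f r).pos ≤ a.length + b.length) ∧
        runs strict M b (R, (f t0).state) (R1, (f t1).state) := by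
  induction b with
  | nil =>
    intro a c _ R hR t0 h1 h2 h3
    exact ⟨R, t0, hR, h1, h2, h3, rfl⟩
  | cons x b ih =>
    intro a c hw R hR t0 h1 h2 h3
    have hlen : w.length = a.length + (b.length + 1) + c.length := by
      rw [hw]
      simp only [List.length_append, List.length_cons]
    obtain ⟨t1, h4, h5, h6⟩ := arrival hf (a.length + 1) ⟨T, le_rfl, by rw [hT]; omega⟩
    have hs := step_complete hf a.length t0 t1 h2 h3 h4 h5 h6
    have hwt : w[a.length]? = some x := by
      rw [hw, List.append_assoc, List.getElem?_append_right le_rfl]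
      simp
    have hcell : initTape M w (a.length + 1) = .sym (M.inp x) := by
      simp only [initTape, hwt]
    rw [hcell] at hs
    obtain ⟨R1, h7, h8⟩ := nstep_of_nstepS hs R hR
    have e1 : (a ++ [x]).length = a.length + 1 := by simp
    obtain ⟨R2, t2, h9, h10, h11, h12, h13⟩ := ih (a ++ [x]) c (by rw [hw]; simp) R1
      (by rw [e1]; exact h7) t1 h4 (by rw [e1]; exact h5) (by rw [e1]; exact h6)
    rw [e1] at h9 h11 h12
    have e2 : a.length + (x :: b).length = a.length + 1 + b.length := by
      simp only [List.length_cons]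
      omega
    rw [e2]
    exact ⟨R2, t2, h9, h10, h11, h12, _, h8, h13⟩

theorem split {x y : List A} {T : ℕ} {f : ℕ → Cfg M} (hf : IsAcc strict M (x ++ y) T f) :
    ∃ p, LeftOK strict M x (trips T f x.length, p) ∧
      RightOK strict M y (trips T f x.length, p) := by
  have hle : ∀ r, r < T → (f r).pos ≤ (x ++ y).length + 1 :=
    fun r hr => (hf.step r hr).1
  obtain ⟨R1, t1, h1, h2, h3, h4, h5⟩ := segment hf.toIsComp hf.last x [] y rfl
    (x0 strict M).1 (trips_zero hf.toIsComp) 0 (Nat.zero_le _) (by rw [hf.start]; rfl)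
    (fun r hr => absurd hr (Nat.not_lt_zero _))
  have e0 : ([] : List A).length + x.length = x.length := by simp
  rw [e0] at h1 h3 h4
  have e1 : (f 0).state = (x0 strict M).2 := by
    rw [hf.start]
    rfl
  rw [e1] at h5
  refine ⟨(f t1).state, ⟨R1, h1, h5⟩, ?_⟩
  intro R hR
  obtain ⟨R2, t2, h6, h7, h8, h9, h10⟩ := segment hf.toIsComp hf.last y x [] (by simp)
    R hR t1 h2 h3 h4
  refine ⟨_, h10, ?_⟩
  have hlen : (x ++ y).length = x.length + y.length := List.length_append
  rw [← hlen] at h6 h8 h9
  have hs := step_complete hf.toIsComp (x ++ y).length t2 T h8 h9 le_rfl hf.last hle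
  have hcell : initTape M (x ++ y) ((x ++ y).length + 1) = .rm := by
    simp only [initTape, List.getElem?_eq_none (le_refl (x ++ y).length)]
  rw [hcell] at hs
  obtain ⟨R3, _, h12⟩ := nstep_of_nstepS hs R2 h6
  exact ⟨_, h12, hf.final⟩

end Pool.Agent.N602.FT
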