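import Mathlib
import Pool.Agent.N602.FT.Split
import Pool.Agent.N602.FT.BlockWit

set_option autoImplicit false

/-!
The lower bound for deterministic machines that make at most `t (|w| + 1)` moves.
-/

namespace Pool.Agent.N602.FT

open Relation
open Pool.Agent.H630R2.LA
open Pool.Agent.R620.KV
open Pool.Agent.TH705.LB

/-! ### The number of moves to the left -/

section left

variable {A : Type} {strict : Prop} {M : LimAut A} {w : List A} {T : ℕ} {f : ℕ → Cfg M}

/-- The times of the moves to the left. -/
noncomputable def lefts (T : ℕ) (f : ℕ → Cfg M) : Finset ℕ :=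
  (Finset.range T).filter fun r => (f (r + 1)).pos + 1 = (f r).pos

theorem pos_lefts (hf : IsComp strict M w T f) :
    ∀ r, r ≤ T → (f r).pos + 2 * (lefts r f).card = r + 1 := by
  intro r
  induction r with
  | zero =>
    intro _
    rw [hf.start]
    rfl
  | succ r ih =>
    intro hr
    have h1 := ih (by omega)
    have h2 := pos_succ hf (t := r) (by omega)
    unfold lefts at h1 ⊢
    rw [Finset.range_add_one, Finset.filter_insert]
    rcases h2 with h2 | h2
    · rw [if_neg (by omega)]
      omega
    · rw [if_pos h2, Finset.card_insert_of_notMem (by simp)]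
      omega

/-- The trips across a boundary are at most as many as the moves that cross it to the left. -/
theorem trips_le_lefts (i : ℕ) :
    (trips T f i).ncard ≤ ((lefts T f).filter fun r => (f r).pos = i + 1).card := by
  classical
  rw [← Set.ncard_coe_finset]
  choose! s hs using fun (x : M.Q × M.Q) (hx : x ∈ trips T f i) => hx
  refine Set.ncard_le_ncard_of_injOn s ?_ ?_ (Finset.finite_toSet _)
  · intro x hx
    obtain ⟨t, h1, h2, h3, h4, _⟩ := hs x hx
    simp only [lefts, Finset.coe_filter, Finset.mem_range, Finset.mem_filter, Set.mem_ofPred_eq]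
    exact ⟨⟨by omega, by omega⟩, h3⟩
  · intro x hx y hy hxy
    obtain ⟨t, h1, h2, h3, h4, h5, h6, h7, h8⟩ := hs x hx
    obtain ⟨t', h1', h2', h3', h4', h5', h6', h7', h8'⟩ := hs y hy
    rw [← hxy] at h1' h5' h8'
    have : t = t' := by
      rcases Nat.lt_trichotomy t t' with h | h | h
      · have := h8' t (by omega) h
        omega
      · exact h
      · have := h8 t' (by omega) h
        omega
    subst this
    exact Prod.ext (h5.symm.trans h5') (h7.symm.trans h7')

theorem sum_trips_lefts (I : Finset ℕ) :
    ∑ i ∈ I, (trips T f i).ncard ≤ (lefts T f).card := by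
  classical
  refine (Finset.sum_le_sum fun i _ => trips_le_lefts i).trans ?_
  have h1 : ∑ i ∈ I, ((lefts T f).filter fun r => (f r).pos = i + 1).card =
      ∑ j ∈ I.image (· + 1), ((lefts T f).filter fun r => (f r).pos = j).card := by
    rw [Finset.sum_image]
    intro a _ b _ h
    have h' : a + 1 = b + 1 := h
    omega
  rw [h1, Finset.sum_card_fiberwise_eq_card_filter]
  exact Finset.card_filter_le _ _

/-- One of many boundaries has few trips. -/
theorem exists_few_lefts (a N k : ℕ) (hN : (lefts T f).card < (k + 1) * (N + 1)) :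
    ∃ j, j ≤ N ∧ (trips T f (a + 2 * j)).ncard ≤ k := by
  classical
  by_contra hcon
  push Not at hcon
  have h1 := sum_trips_lefts (T := T) (f := f) ((Finset.range (N + 1)).image fun j => a + 2 * j)
  rw [Finset.sum_image (by
    intro x _ y _ h
    have h' : a + 2 * x = a + 2 * y := h
    omega)] at h1
  have h2 : ∑ j ∈ Finset.range (N + 1), (k + 1) ≤
      ∑ j ∈ Finset.range (N + 1), (trips T f (a + 2 * j)).ncard := by
    apply Finset.sum_le_sum
    intro j hj
    rw [Finset.mem_range] at hj
    exact hcon j (by omega)
  rw [Finset.sum_const, Finset.card_range, smul_eq_mul] at h2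
  have h3 : (N + 1) * (k + 1) = (k + 1) * (N + 1) := Nat.mul_comm _ _
  omega

end left

/-! ### Padded blocks -/

variable {m : ℕ} {strict : Prop}

/-- The padding. -/
def pads (N : ℕ) : List (BL Ltr) := (List.replicate N [Ltr.u]).flatMap fun w => BL.c :: ltrs w

theorem length_pads (N : ℕ) : (pads N).length = 2 * N := by
  unfold pads
  rw [List.length_flatMap, List.map_replicate, List.sum_replicate]
  show N • 2 = 2 * N
  rw [smul_eq_mul, Nat.mul_comm]

theorem pads_add (a b : ℕ) : pads (a + b) = pads a ++ pads b := by
  unfold pads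
  rw [List.replicate_add, List.flatMap_append]

theorem pads_rest (N : ℕ) (ws : List (List Ltr)) :
    pads N ++ rest ws = rest (List.replicate N [Ltr.u] ++ ws) := by
  unfold pads rest
  rw [List.flatMap_append, List.append_assoc]

/-- A single letter `u` after the mark is rejected. -/
theorem fst_u (G : Set (Mat m)) : fstW G ++ [Ltr.u] ∉ (witM m).language strict := by
  unfold fstW
  rw [List.append_assoc]
  show blocksW (listOf G) ++ Ltr.q :: [Ltr.u] ∉ _
  have hu : Ltr.q ∉ [Ltr.u] := by simp
  rw [mem_witM, accept_split _ _ hu]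
  rintro ⟨X, Xs1, Xs2, _, h⟩
  rw [← List.append_assoc, S2_K_q _ _ _ (by
    rw [List.mem_append]
    rintro (h | h)
    · exact (rowsW_free X).2 h
    · exact blocksW_free _ h), List.nil_append] at h
  obtain ⟨t, h1, h2⟩ := h
  rw [S1_I_u] at h1
  have h3 : t = (.I, 0) := h2
  rw [h3] at h1
  have h4 := h1.2
  simp at h4

theorem good_pad (G H : Set (Mat m)) (k : ℕ) :
    Good strict (witM m) (fstW G, List.replicate k [Ltr.u] ++ sndW H) ↔
      ∃ Y, Y ∈ G ∧ Y ∉ H := by
  rw [← good_iff (strict := strict) G H]
  unfold Good
  dsimp only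
  constructor
  · rintro ⟨w, hw, h⟩
    rcases List.mem_append.1 hw with hw | hw
    · rw [List.eq_of_mem_replicate hw] at h
      exact absurd h (fst_u G)
    · exact ⟨w, hw, h⟩
  · rintro ⟨w, hw, h⟩
    exact ⟨w, List.mem_append_right _ hw, h⟩

/-- The left part. -/
noncomputable def lft (G : Set (Mat m)) (j : ℕ) : List (BL Ltr) := ltrs (fstW G) ++ pads j

/-- The right part. -/
noncomputable def rgt (H : Set (Mat m)) (j : ℕ) : List (BL Ltr) := pads j ++ rest (sndW H)

theorem lft_rgt (G H : Set (Mat m)) (i j : ℕ) :
    lft G i ++ rgt H j = [(fstW G, List.replicate (i + j) [Ltr.u] ++ sndW H)].flatMap blk := by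
  unfold lft rgt
  rw [List.append_assoc, ← List.append_assoc (pads i), ← pads_add, pads_rest]
  simp [blk]

theorem mem_lft_rgt (G H : Set (Mat m)) (i j : ℕ) :
    lft G i ++ rgt H j ∈ (bwit m).language strict ↔ ∃ Y, Y ∈ G ∧ Y ∉ H := by
  rw [lft_rgt]
  show _ ∈ (blockM (witM m)).language strict ↔ _
  rw [mem_blocks, ← good_pad (strict := strict) G H (i + j)]
  simp

/-- **The lower bound.** -/
theorem lower_time (m t : ℕ) (strict : Prop) (M : LimAut (BL Ltr)) (hd : M.Deterministic)
    (hlin : FastRej t strict M) (hM : M.language strict = (bwit m).language strict) :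
    2 ^ 2 ^ (m ^ 2) ≤ ((Nat.card M.Q + 1) ^ 2 + 1) ^ t * (Nat.card M.Q + 1) := by
  classical
  set C := complM strict M with hC
  have hfin := M.finQ
  -- the labels
  have key : ∀ G : Set (Mat m), ∃ (l : XS C t) (i j : ℕ), LeftOK strict C (lft G i) l.1 ∧
      RightOK strict C (rgt G j) l.1 := by
    intro G
    set B := (ltrs (fstW G)).length + (rest (sndW G)).length with hB
    set N := t * (B + 1) with hN
    have hrej : lft G 0 ++ rgt G N ∉ M.language strict := by
      rw [hM, mem_lft_rgt]
      rintro ⟨Y, h1, h2⟩
      exact h2 h1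
    have hlen : (lft G 0 ++ rgt G N).length = B + 2 * N := by
      unfold lft rgt
      simp only [List.length_append, length_pads]
      omega
    obtain ⟨T, g, hg, hT⟩ := compl_accept (strict := strict) (M := M)
      (fun T f hf => hlin _ hrej T f hf) hrej
    rw [hlen] at hT
    have hl := pos_lefts hg.toIsComp T le_rfl
    rw [hg.last, hlen] at hl
    have hfew : (lefts T g).card < (t + 1) * (N + 1) := by
      have e1 : (t + 1) * (N + 1) = t * N + t + N + 1 := by ring
      have e2 : t * (B + 2 * N + 1) = t * (B + 1) + 2 * (t * N) := by ring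
      rw [e2, ← hN] at hT
      rw [e1]
      omega
    obtain ⟨i, hi, hk⟩ := exists_few_lefts (T := T) (f := g) (ltrs (fstW G)).length N t hfew
    have hw : lft G 0 ++ rgt G N = lft G i ++ rgt G (N - i) := by
      unfold lft rgt
      have e3 : pads N = pads i ++ pads (N - i) := by
        rw [← pads_add]
        congr 1
        omega
      rw [e3]
      simp [pads]
    rw [hw] at hg
    obtain ⟨p, hp1, hp2⟩ := split hg
    have hli : (lft G i).length = (ltrs (fstW G)).length + 2 * i := by
      unfold lft
      rw [List.length_append, length_pads]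
    rw [hli] at hp1 hp2
    exact ⟨⟨(trips T g ((ltrs (fstW G)).length + 2 * i), p), hk⟩, i, N - i, hp1, hp2⟩
  choose l i j hl hr using key
  have hfinX := finite_XS C t
  have hsub : ∀ G G' : Set (Mat m), l G = l G' → G ⊆ G' := by
    intro G G' h Y hY
    by_contra hY'
    have h1 : lft G (i G) ++ rgt G' (j G') ∈ C.language strict := by
      apply paste (hl G)
      rw [h]
      exact hr G'
    have h2 : lft G (i G) ++ rgt G' (j G') ∈ M.language strict := by
      rw [hM, mem_lft_rgt]
      exact ⟨Y, hY, hY'⟩
    exact compl_reject hd h2 h1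
  have hinj : Function.Injective l := by
    intro G G' h
    exact Set.Subset.antisymm (hsub G G' h) (hsub G' G h.symm)
  have h1 := Nat.card_le_card_of_injective l hinj
  rw [card_sets m] at h1
  refine h1.trans ((card_XS C t).trans ?_)
  have h2 : Nat.card C.Q = Nat.card M.Q + 1 := Finite.card_option
  rw [h2, sq]

end Pool.Agent.N602.FT
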