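import Mathlib
import Pool.Agent.N602.FT.TimeWit
import Pool.Agent.N602.FT.Cost
import Pool.Agent.Y527.LA.Comb

set_option autoImplicit false

/-! The cost functions of the classes of fast machines. -/

namespace Pool.Agent.N602.FT

open Filter
open Pool.Agent.H630R2.LA Pool.Agent.TH705.LB
open Pool.Agent.Y527.LA (OneWay exists_comb tabs Steps)
open Pool.Agent.R620.KV (IsComp)

/-- The class of the machines that make at most `t (|w| + 1)` moves. -/
def timeCls (t : ℕ) (strict : Prop) : Cls := fun _ M => LinTime t strict M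

/-- One-way machines are fast. -/
theorem oneWay_linTime {A : Type} {strict : Prop} {M : LimAut A} (h : OneWay M) {t : ℕ}
    (ht : 1 ≤ t) : LinTime t strict M := by
  intro w T f hf
  have key : ∀ r, r ≤ T → (f r).pos = r + 1 := by
    intro r
    induction r with
    | zero =>
      intro _
      rw [hf.start]
      rfl
    | succ r ih =>
      intro hr
      obtain ⟨_, q, b, d, hδ, _, _, _, _, _, h1, _⟩ := hf.step r (by omega)
      have h2 := h _ _ _ hδ
      rw [h1 h2, ih (by omega)]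
  have h3 : T ≤ w.length + 1 := by
    rcases Nat.eq_zero_or_pos T with h0 | h0
    · omega
    · have h1 := (hf.step (T - 1) (by omega)).1
      rw [key (T - 1) (by omega)] at h1
      omega
  exact h3.trans (Nat.le_mul_of_pos_left _ ht)

/-- The class contains the deterministic one-way machines. -/
def HasOne (Cl : Cls) : Prop := ∀ (A : Type) (M : LimAut A), M.Deterministic → OneWay M → Cl A M

section bounds

variable {Cl : Cls} {strict : Prop}

theorem one_sizeIn_le (hCl : HasOne Cl) {A : Type} [Finite A] (M : LimAut A) :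
    sizeIn Cl strict (M.language strict) ≤ 2 ^ 2 ^ (2 * M.size ^ 2) := by
  refine le_trans (Nat.sInf_le ?_) (detOne_size (strict := strict) (M := M))
  exact ⟨detOne strict M, detOne_det, hCl _ _ detOne_det detOne_oneWay,
    detOne_language strict, rfl⟩

theorem one_costsIn_le (hCl : HasOne Cl) (n s : ℕ) (hs : s ∈ costsIn Cl strict n) :
    s ≤ 2 ^ 2 ^ (2 * n ^ 2) := by
  obtain ⟨A, hA, M, hM, rfl⟩ := hs
  refine (one_sizeIn_le hCl M).trans ?_
  have h : 2 * M.size ^ 2 ≤ 2 * n ^ 2 := Nat.mul_le_mul_left _ (Nat.pow_le_pow_left hM 2)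
  exact Nat.pow_le_pow_right (by omega) (Nat.pow_le_pow_right (by omega) h)

theorem one_bddIn (hCl : HasOne Cl) (n : ℕ) : BddAbove (costsIn Cl strict n) :=
  ⟨_, fun s hs => one_costsIn_le hCl n s hs⟩

theorem one_greatest (hCl : HasOne Cl) (n : ℕ) (hn : 4 ≤ n) :
    IsGreatest (costsIn Cl strict n) (DIn Cl strict n) := by
  have hne : (costsIn Cl strict n).Nonempty :=
    ⟨_, Empty, inferInstance, trivM, by rw [size_trivM]; exact hn, rfl⟩
  exact ⟨Nat.sSup_mem hne (one_bddIn hCl n), fun s hs => le_csSup (one_bddIn hCl n) hs⟩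

theorem one_D_le (hCl : HasOne Cl) (n : ℕ) : D strict n ≤ DIn Cl strict n := by
  rcases (costs strict n).eq_empty_or_nonempty with h | h
  · unfold D
    rw [h]
    simp
  · refine csSup_le h ?_
    rintro s ⟨A, hA, M, hM, rfl⟩
    refine le_trans ?_ (le_csSup (one_bddIn hCl n) ⟨A, hA, M, hM, rfl⟩)
    have hne : {s | ∃ M' : LimAut A, M'.Deterministic ∧ Cl A M' ∧
        M'.language strict = M.language strict ∧ M'.size = s}.Nonempty :=
      ⟨_, detOne strict M, detOne_det, hCl _ _ detOne_det detOne_oneWay,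
        detOne_language strict, rfl⟩
    obtain ⟨M', h1, _, h3, h4⟩ := Nat.sInf_mem hne
    exact Nat.sInf_le ⟨M', h1, h3, h4⟩

/-- The least size of a fast machine for the witness. -/
theorem le_sizeT (hCl : HasOne Cl) {t : ℕ}
    (hf : ∀ (A : Type) (M : LimAut A), M.Deterministic → Cl A M → FastRej t strict M) (m : ℕ) :
    2 ^ 2 ^ (m ^ 2) ≤ sizeIn Cl strict ((bwit m).language strict) ^ (2 * t + 1) := by
  have hne : {s | ∃ M : LimAut (BL Ltr), M.Deterministic ∧ Cl _ M ∧
      M.language strict = (bwit m).language strict ∧ M.size = s}.Nonempty :=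
    ⟨_, detOne strict (bwit m), detOne_det, hCl _ _ detOne_det detOne_oneWay,
      detOne_language strict, rfl⟩
  obtain ⟨M, h1, h2, h3, h4⟩ := Nat.sInf_mem hne
  have h5 : M.size = sizeIn Cl strict ((bwit m).language strict) := h4
  rw [← h5]
  have h6 := lower_time m t strict M h1 (hf _ M h1 h2) h3
  refine h6.trans ?_
  have h7 : Nat.card M.Q + 3 ≤ M.size := by
    unfold LimAut.size
    omega
  have h8 : (Nat.card M.Q + 1) ^ 2 + 1 ≤ M.size ^ 2 := by
    refine le_trans ?_ (Nat.pow_le_pow_left h7 2)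
    nlinarith [Nat.zero_le (Nat.card M.Q)]
  calc ((Nat.card M.Q + 1) ^ 2 + 1) ^ t * (Nat.card M.Q + 1)
      ≤ (M.size ^ 2) ^ t * M.size := Nat.mul_le_mul (Nat.pow_le_pow_left h8 t) (by omega)
    _ = M.size ^ (2 * t + 1) := by rw [← pow_mul, ← pow_succ]

theorem DT_lower (hCl : HasOne Cl) {t : ℕ}
    (hf : ∀ (A : Type) (M : LimAut A), M.Deterministic → Cl A M → FastRej t strict M)
    (n : ℕ) (hn : 680000 ≤ n) :
    2 ^ 2 ^ (n ^ 2 / 100000000000) ≤ DIn Cl strict n ^ (t + 1) := by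
  obtain ⟨m, hm, h1, h2⟩ : ∃ m, 3 ≤ m ∧ 170000 * (m + 1) ≤ n ∧ n < 170000 * (m + 2) :=
    ⟨n / 170000 - 1, by omega, by omega, by omega⟩
  have hmem : sizeIn Cl strict ((bwit m).language strict) ∈ costsIn Cl strict n :=
    ⟨BL Ltr, inferInstance, bwit m, (size_bwit m).trans h1, rfl⟩
  have h3 : sizeIn Cl strict ((bwit m).language strict) ≤ DIn Cl strict n :=
    le_csSup (one_bddIn hCl n) hmem
  refine le_trans ?_ (Nat.pow_le_pow_left h3 (t + 1))
  have h4 := le_sizeT hCl hf m
  generalize sizeIn Cl strict ((bwit m).language strict) = s at *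
  have h5 : n ^ 2 / 100000000000 + 2 ≤ m ^ 2 := by
    have h6 : n ^ 2 < 100000000000 * (m ^ 2 - 1) := by
      have h7 : n ^ 2 < (170000 * (m + 2)) ^ 2 := Nat.pow_lt_pow_left h2 (by omega)
      refine h7.trans_le ?_
      obtain ⟨r, rfl⟩ : ∃ r, m = 3 + r := ⟨m - 3, by omega⟩
      have h8 : (3 + r) ^ 2 - 1 = 8 + 6 * r + r ^ 2 := by
        have : (3 + r) ^ 2 = 8 + 6 * r + r ^ 2 + 1 := by ring
        omega
      rw [h8]
      nlinarith [Nat.zero_le r, Nat.zero_le (r ^ 2)]
    have h9 : n ^ 2 / 100000000000 < m ^ 2 - 1 := (Nat.div_lt_iff_lt_mul (by norm_num)).2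
      (by rw [mul_comm]; exact h6)
    omega
  have hs : 1 ≤ s := by
    rcases Nat.eq_zero_or_pos s with h0 | h0
    · rw [h0, Nat.zero_pow (by omega)] at h4
      have : 1 ≤ 2 ^ 2 ^ (m ^ 2) := Nat.one_le_two_pow
      omega
    · exact h0
  have h6 : (2 ^ 2 ^ (n ^ 2 / 100000000000)) ^ 4 ≤ (s ^ (t + 1)) ^ 4 := by
    refine le_trans (le_trans ?_ h4) ?_
    · rw [← pow_mul]
      apply Nat.pow_le_pow_right (by omega)
      have e : 2 ^ (n ^ 2 / 100000000000) * 4 = 2 ^ (n ^ 2 / 100000000000 + 2) := by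
        rw [pow_add]
        norm_num
      rw [e]
      exact Nat.pow_le_pow_right (by omega) h5
    · rw [← pow_mul]
      exact Nat.pow_le_pow_right hs (by omega)
  exact (Nat.pow_le_pow_iff_left (by norm_num)).1 h6

/-- Time times logarithm of the size. -/
theorem DT_trade (hCl : HasOne Cl) {t : ℕ}
    (hf : ∀ (A : Type) (M : LimAut A), M.Deterministic → Cl A M → FastRej t strict M)
    (n b : ℕ) (hn : 680000 ≤ n) (hb : DIn Cl strict n ≤ 2 ^ b) :
    2 ^ (n ^ 2 / 100000000000) ≤ b * (t + 1) := by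
  have h1 := DT_lower hCl hf n hn
  have h2 : DIn Cl strict n ^ (t + 1) ≤ 2 ^ (b * (t + 1)) := by
    rw [pow_mul]
    exact Nat.pow_le_pow_left hb _
  exact (Nat.pow_le_pow_iff_right (by norm_num)).1 (h1.trans h2)

theorem DT_separation (hCl : HasOne Cl) {t : ℕ}
    (hf : ∀ (A : Type) (M : LimAut A), M.Deterministic → Cl A M → FastRej t strict M) (k : ℕ) :
    ∀ᶠ n : ℕ in atTop, 2 ^ (Nat.log 2 (D strict n) ^ k) < DIn Cl strict n := by
  filter_upwards [ev_pow (4 * k + 1), eventually_ge_atTop 100000000000,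
    eventually_ge_atTop t] with n h1 h2 h2'
  by_contra hcon
  push Not at hcon
  have h3 := DT_trade hCl hf n _ (by omega) hcon
  have h4 : Nat.log 2 (D strict n) ≤ (n + 2) ^ 4 := by
    have h5 := Nat.log_mono_right (b := 2) (D_le strict n)
    rwa [Nat.log_pow (by norm_num)] at h5
  have h6 : Nat.log 2 (D strict n) ^ k * (t + 1) ≤ (n + 2) ^ (4 * k + 1) := by
    rw [pow_succ, pow_mul]
    exact Nat.mul_le_mul (Nat.pow_le_pow_left h4 k) (by omega)
  have h7 : 2 ^ n ≤ 2 ^ (n ^ 2 / 100000000000) := by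
    apply Nat.pow_le_pow_right (by omega)
    rw [Nat.le_div_iff_mul_le (by norm_num), sq]
    exact Nat.mul_le_mul_left _ h2
  omega

end bounds

/-! ### Slow machines -/

section slow

variable {strict : Prop}

theorem steps_of_comp {A : Type} {M : LimAut A} {w : List A} {T : ℕ} {f : ℕ → Cfg M}
    (hf : IsComp strict M w T f) : Steps (Step strict w.length) T (init M w) (f T) := by
  have key : ∀ r, r ≤ T → Steps (Step strict w.length) r (init M w) (f r) := by
    intro r
    induction r with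
    | zero =>
      intro _
      rw [hf.start]
      exact Steps.zero _
    | succ r ih =>
      intro hr
      exact Steps.tail r _ _ _ (ih (by omega)) (hf.step r (by omega))
  exact key T le_rfl

/-- A small deterministic machine with a large time factor. -/
theorem exists_slow {A : Type} [Finite A] (M : LimAut A) (strict : Prop) {t : ℕ}
    (ht : 2 ^ ((M.size + 2) ^ 4) ≤ t) :
    ∃ M' : LimAut A, M'.Deterministic ∧ LinTime t strict M' ∧
      M'.language strict = M.language strict ∧ M'.size ≤ 2 ^ ((M.size + 2) ^ 4) := by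
  have hfin := M.finQ
  have hne : Nonempty M.Q := ⟨M.q0⟩
  have hr : ∑ _i : Fin 1, (tabs strict M).ncard + 1 ≤
      2 ^ (Nat.card M.Q ^ 2 + Nat.card M.Q + 1) := by
    have h1 : (tabs strict M).ncard ≤ 2 ^ (Nat.card M.Q * Nat.card M.Q) * Nat.card M.Q := by
      rw [← card_table, ← Set.ncard_univ]
      exact Set.ncard_le_ncard (Set.subset_univ _) (Set.toFinite _)
    rw [Finset.sum_const, Finset.card_univ, Fintype.card_fin, one_smul]
    generalize Nat.card M.Q = s at *
    have h3 : s + 1 ≤ 2 ^ s := Nat.lt_two_pow_self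
    have h4 : 1 ≤ 2 ^ (s ^ 2) := Nat.one_le_two_pow
    rw [← sq] at h1
    calc (tabs strict M).ncard + 1 ≤ 2 ^ (s ^ 2) * s + 2 ^ (s ^ 2) := by omega
      _ = 2 ^ (s ^ 2) * (s + 1) := by ring
      _ ≤ 2 ^ (s ^ 2) * 2 ^ s := Nat.mul_le_mul_left _ h3
      _ = 2 ^ (s ^ 2 + s) := by rw [pow_add]
      _ ≤ _ := Nat.pow_le_pow_right (by omega) (by omega)
  obtain ⟨M', h1, h2, h3, _, h5, h6⟩ := exists_comb strict (fun _ : Fin 1 => M) (fun v => v 0)
    (Nat.card M.Q ^ 2 + Nat.card M.Q + 1) (by omega) hr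
  have hsz : Nat.card M.Q + Nat.card A + 3 ≤ M.size := by
    unfold LimAut.size
    omega
  have hA : Nat.card A + 1 ≤ 2 ^ Nat.card A := Nat.lt_two_pow_self
  generalize M.size = n at *
  generalize Nat.card M.Q = s at *
  generalize Nat.card A = a at *
  have hsize : M'.size ≤ 2 ^ ((n + 2) ^ 4) := by
    refine h5.trans ?_
    calc 2 ^ ((s ^ 2 + s + 1) ^ 2 + 6 * (s ^ 2 + s + 1) + 13 + 1) * (a + 1)
        ≤ 2 ^ ((s ^ 2 + s + 1) ^ 2 + 6 * (s ^ 2 + s + 1) + 13 + 1) * 2 ^ a :=
          Nat.mul_le_mul_left _ hA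
      _ = 2 ^ ((s ^ 2 + s + 1) ^ 2 + 6 * (s ^ 2 + s + 1) + 13 + 1 + a) := by
          rw [pow_add 2 _ a]
      _ ≤ 2 ^ ((n + 2) ^ 4) := by
          apply Nat.pow_le_pow_right (by omega)
          have h10 : s ^ 2 + s + 5 + a ≤ (n + 2) ^ 2 := by
            have h11 : (s + a + 5) ^ 2 ≤ (n + 2) ^ 2 := Nat.pow_le_pow_left (by omega) 2
            nlinarith [Nat.zero_le s, Nat.zero_le a, Nat.zero_le (s * a), Nat.zero_le (a ^ 2)]
          calc (s ^ 2 + s + 1) ^ 2 + 6 * (s ^ 2 + s + 1) + 13 + 1 + a ≤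
                (s ^ 2 + s + 5 + a) ^ 2 := by
                nlinarith [Nat.zero_le s, Nat.zero_le a, Nat.zero_le (s * a),
                  Nat.zero_le (s ^ 2 * a), Nat.zero_le (a ^ 2)]
            _ ≤ ((n + 2) ^ 2) ^ 2 := Nat.pow_le_pow_left h10 2
            _ = (n + 2) ^ 4 := by ring
  refine ⟨M', h1, ?_, Set.ext (h2 strict), hsize⟩
  intro w T f hf
  have h7 := h6 strict w T (f T) (steps_of_comp hf)
  refine h7.trans (Nat.mul_le_mul_right _ ?_)
  have h8 : Nat.card M'.Q ≤ M'.size := by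
    unfold LimAut.size
    omega
  omega

theorem DT_slow (n t : ℕ) (hn : 4 ≤ n) (ht : 2 ^ ((n + 2) ^ 4) ≤ t) :
    DIn (timeCls t strict) strict n ≤ 2 ^ ((n + 2) ^ 4) := by
  have hone : HasOne (timeCls t strict) := fun A M _ h =>
    oneWay_linTime h (le_trans Nat.one_le_two_pow ht)
  have hmem := (one_greatest (strict := strict) hone n hn).1
  obtain ⟨A, hA, M, hM, h1⟩ := hmem
  rw [h1]
  have h2 : (M.size + 2) ^ 4 ≤ (n + 2) ^ 4 := Nat.pow_le_pow_left (by omega) 4
  have h3 : 2 ^ ((M.size + 2) ^ 4) ≤ 2 ^ ((n + 2) ^ 4) := Nat.pow_le_pow_right (by omega) h2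
  obtain ⟨M', h4, h5, h6, h7⟩ := exists_slow M strict (h3.trans ht)
  have h8 : sizeIn (timeCls t strict) strict (M.language strict) ≤ M'.size :=
    Nat.sInf_le ⟨M', h4, h5, h6, rfl⟩
  exact h8.trans (h7.trans h3)

end slow

end Pool.Agent.N602.FT
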